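import Mathlib

/-!
MP_f620bf_co (helper50).  Arithmetic of the sums of binomial coefficients of binary digit sums.
-/

set_option autoImplicit false

open Finset

namespace Pool.Agent.CubF620

/-- Number of ones in the binary expansion of `k`. -/
def ones (k : ℕ) : ℕ := (Nat.digits 2 k).sum

theorem ones_two_mul (k : ℕ) : ones (2 * k) = ones k := by
  unfold ones
  rcases Nat.eq_zero_or_pos k with h | h
  · subst h; simp
  · rw [Nat.digits_def' (by norm_num) (by omega)]
    simp

theorem ones_two_mul_add_one (k : ℕ) : ones (2 * k + 1) = ones k + 1 := by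
  unfold ones
  rw [Nat.digits_def' (by norm_num) (by omega)]
  have h1 : (2 * k + 1) % 2 = 1 := by omega
  have h2 : (2 * k + 1) / 2 = k := by omega
  rw [h1, h2, List.sum_cons]; omega

/-- The number of `i`-dimensional subcubes of `{0,1}^∞` whose vertices all lie among the first `n`
vertices in the binary order. -/
def cubeSum (n i : ℕ) : ℕ := ∑ k ∈ range n, (ones k).choose i

/-- Shifted version with `g 0 = 0`. -/
def g : ℕ → ℕ → ℕ
  | 0, _ => 0
  | i + 1, n => cubeSum n i

theorem g_zero_left (n : ℕ) : g 0 n = 0 := rfl

theorem g_succ (i n : ℕ) : g (i + 1) n = cubeSum n i := rfl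

theorem g_zero_right (i : ℕ) : g i 0 = 0 := by
  cases i <;> simp [g, cubeSum]

theorem cubeSum_zero (n : ℕ) : cubeSum n 0 = n := by simp [cubeSum]

theorem g_mono (i : ℕ) {m n : ℕ} (h : m ≤ n) : g i m ≤ g i n := by
  cases i with
  | zero => simp [g]
  | succ i =>
    simp only [g, cubeSum]
    exact Finset.sum_le_sum_of_subset (Finset.range_mono h)

theorem cubeSum_two_mul_zero (n : ℕ) : cubeSum (2 * n) 0 = 2 * cubeSum n 0 := by
  simp [cubeSum_zero]

theorem cubeSum_two_mul_succ (n i : ℕ) :
    cubeSum (2 * n) (i + 1) = 2 * cubeSum n (i + 1) + cubeSum n i := by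
  induction n with
  | zero => simp [cubeSum]
  | succ n ih =>
    have e : 2 * (n + 1) = 2 * n + 1 + 1 := by ring
    rw [e]
    unfold cubeSum at ih ⊢
    rw [Finset.sum_range_succ, Finset.sum_range_succ, ih, Finset.sum_range_succ,
      Finset.sum_range_succ, ones_two_mul, ones_two_mul_add_one, Nat.choose_succ_succ]
    ring

theorem cubeSum_succ (n i : ℕ) : cubeSum (n + 1) i = cubeSum n i + (ones n).choose i := by
  simp [cubeSum, Finset.sum_range_succ]

theorem g_two_mul (i n : ℕ) : g (i + 1) (2 * n) = 2 * g (i + 1) n + g i n := by
  cases i with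
  | zero => simp [g, cubeSum_zero]
  | succ i => simp only [g]; exact cubeSum_two_mul_succ n i

theorem g_two_mul_add_one (i n : ℕ) :
    g (i + 1) (2 * n + 1) = g (i + 1) n + g (i + 1) (n + 1) + g i n := by
  have h1 : g (i + 1) (2 * n + 1) = g (i + 1) (2 * n) + (ones n).choose i := by
    simp only [g]; rw [cubeSum_succ, ones_two_mul]
  have h2 : g (i + 1) (n + 1) = g (i + 1) n + (ones n).choose i := by
    simp only [g]; rw [cubeSum_succ]
  rw [h1, h2, g_two_mul]; ring

/-- The key superadditivity. -/
theorem g_add (s : ℕ) : ∀ i a b : ℕ, a + b = s → b ≤ a →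
    g (i + 1) a + g (i + 1) b + g i b ≤ g (i + 1) (a + b) := by
  induction s using Nat.strong_induction_on with
  | _ s ih =>
    intro i a b hs hba
    -- `D` : the induction hypothesis
    have D : ∀ i p q : ℕ, p + q < s → q ≤ p →
        g (i + 1) p + g (i + 1) q + g i q ≤ g (i + 1) (p + q) :=
      fun i p q h1 h2 => ih (p + q) h1 i p q rfl h2
    rcases Nat.eq_zero_or_pos b with hb | hb
    · subst hb; simp [g_zero_right]
    -- a version for all `i`, with halves
    have E : ∀ p q : ℕ, p + q < s → q ≤ p → g i p + g i (2 * q) ≤ g i (p + q) + g i q := by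
      intro p q h1 h2
      cases i with
      | zero => simp [g]
      | succ i =>
        have := D i p q h1 h2
        rw [g_two_mul]; omega
    rcases Nat.even_or_odd' a with ⟨p, hp | hp⟩ <;> rcases Nat.even_or_odd' b with ⟨q, hq | hq⟩
    · -- even, even
      subst hp; subst hq
      have h1 := D i p q (by omega) (by omega)
      have h2 := E p q (by omega) (by omega)
      have e : 2 * p + 2 * q = 2 * (p + q) := by ring
      rw [e, g_two_mul, g_two_mul, g_two_mul]
      omega
    · -- even, odd
      subst hp; subst hq
      have h1 := D i p q (by omega) (by omega)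
      have h2 := D i p (q + 1) (by omega) (by omega)
      have e : 2 * p + (2 * q + 1) = 2 * (p + q) + 1 := by ring
      have e2 : p + (q + 1) = p + q + 1 := by ring
      rw [e2] at h2
      rw [e, g_two_mul, g_two_mul_add_one, g_two_mul_add_one]
      have h3 : g i p + g i (2 * q + 1) ≤ g i (p + q) + g i (q + 1) := by
        cases i with
        | zero => simp [g]
        | succ i =>
          have := D i p q (by omega) (by omega)
          rw [g_two_mul_add_one]; omega
      omega
    · -- odd, even
      subst hp; subst hq
      have h1 := D i p q (by omega) (by omega)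
      have h2 := D i (p + 1) q (by omega) (by omega)
      have h3 := E p q (by omega) (by omega)
      have e : 2 * p + 1 + 2 * q = 2 * (p + q) + 1 := by ring
      have e2 : p + 1 + q = p + q + 1 := by ring
      rw [e2] at h2
      rw [e, g_two_mul, g_two_mul_add_one, g_two_mul_add_one]
      omega
    · -- odd, odd
      subst hp; subst hq
      have e : 2 * p + 1 + (2 * q + 1) = 2 * (p + q + 1) := by ring
      rcases Nat.lt_or_ge q p with hqp | hqp
      · have h1 := D i p (q + 1) (by omega) (by omega)
        have h2 := D i (p + 1) q (by omega) (by omega)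
        have e2 : p + 1 + q = p + q + 1 := by ring
        have e3 : p + (q + 1) = p + q + 1 := by ring
        rw [e2] at h2
        rw [e3] at h1
        have h3 : g i p + g i (2 * q + 1) ≤ g i (p + q + 1) + g i (q + 1) := by
          cases i with
          | zero => simp [g]
          | succ i =>
            have := D i p q (by omega) (by omega)
            have := g_mono (i + 1) (show p + q ≤ p + q + 1 by omega)
            rw [g_two_mul_add_one]; omega
        rw [e, g_two_mul, g_two_mul_add_one, g_two_mul_add_one]
        omega
      · have hpq : p = q := by omega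
        subst hpq
        have h1 : g (i + 1) (p + p + 1) = g (i + 1) p + g (i + 1) (p + 1) + g i p := by
          have e4 : p + p + 1 = 2 * p + 1 := by ring
          rw [e4, g_two_mul_add_one]
        have h2 : g i (p + p + 1) = g i (2 * p + 1) := by
          have e4 : p + p + 1 = 2 * p + 1 := by ring
          rw [e4]
        rw [e, g_two_mul, h1, h2, g_two_mul_add_one]
        omega

theorem cubeSum_add (i a b : ℕ) (h : b ≤ a) :
    cubeSum a (i + 1) + cubeSum b (i + 1) + cubeSum b i ≤ cubeSum (a + b) (i + 1) :=
  g_add (a + b) (i + 1) a b rfl h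

/-- The closed form at powers of two. -/
theorem two_pow_mul_cubeSum (m i : ℕ) : 2 ^ i * cubeSum (2 ^ m) i = 2 ^ m * m.choose i := by
  induction m generalizing i with
  | zero =>
    cases i with
    | zero => simp [cubeSum]
    | succ i => simp [cubeSum, ones]
  | succ m ih =>
    cases i with
    | zero => simp [cubeSum_zero]
    | succ i =>
      have h1 := ih (i + 1)
      have h2 := ih i
      rw [pow_succ' 2 m, cubeSum_two_mul_succ, Nat.choose_succ_succ]
      calc 2 ^ (i + 1) * (2 * cubeSum (2 ^ m) (i + 1) + cubeSum (2 ^ m) i)
          = 2 * (2 ^ (i + 1) * cubeSum (2 ^ m) (i + 1)) + 2 * (2 ^ i * cubeSum (2 ^ m) i) := by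
            ring
        _ = 2 * 2 ^ m * (m.choose i + m.choose (i + 1)) := by rw [h1, h2]; ring

end Pool.Agent.CubF620
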