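import Pool.Agent.CubF620.Arith

/-!
MP_f620bf_co (helper50).  Combinatorial core: families of cubes whose vertex labelling by
`{0,1}`-vectors is locally injective.
-/

set_option autoImplicit false

open Finset

namespace Pool.Agent.CubF620

/-- Change the coordinate `t` of the `{0,1}`-vector `b`. -/
def flip {n : ℕ} (b : Fin n → Bool) (t : Fin n) : Fin n → Bool := Function.update b t (!b t)

theorem flip_same {n : ℕ} (b : Fin n → Bool) (t : Fin n) : flip b t t = !b t := by
  simp [flip]

theorem flip_ne {n : ℕ} (b : Fin n → Bool) {t u : Fin n} (h : u ≠ t) : flip b t u = b u := by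
  simp [flip, h]

theorem flip_flip {n : ℕ} (b : Fin n → Bool) (t : Fin n) : flip (flip b t) t = b := by
  funext u
  by_cases h : u = t
  · subst h; simp [flip]
  · simp [flip, h]

theorem flip_comm {n : ℕ} (b : Fin n → Bool) (t u : Fin n) :
    flip (flip b t) u = flip (flip b u) t := by
  funext v
  by_cases htu : t = u
  · subst htu; rfl
  · by_cases h1 : v = t
    · subst h1
      rw [flip_ne _ htu, flip_same, flip_same, flip_ne _ htu]
    · by_cases h2 : v = u
      · subst h2
        rw [flip_same, flip_ne _ h1, flip_ne _ h1, flip_same]
      · rw [flip_ne _ h2, flip_ne _ h1, flip_ne _ h1, flip_ne _ h2]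

theorem flip_inj {n : ℕ} (b : Fin n → Bool) {t u : Fin n} (h : flip b t = flip b u) : t = u := by
  by_contra hne
  have h1 := congrFun h t
  rw [flip_same, flip_ne _ hne] at h1
  cases hb : b t <;> simp [hb] at h1

theorem flip_ne_self {n : ℕ} (b : Fin n → Bool) (t : Fin n) : flip b t ≠ b := by
  intro h
  have h1 := congrFun h t
  rw [flip_same] at h1
  cases hb : b t <;> simp [hb] at h1

/-- Commutation of two different flips of a vector forces equality of labels. -/
theorem label_square {n : ℕ} (b : Fin n → Bool) {p q r s : Fin n}
    (h : flip (flip b p) q = flip (flip b r) s) (hpq : p ≠ q) (hpr : p ≠ r) : p = s := by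
  by_contra hps
  have h1 := congrFun h p
  rw [flip_ne _ hpq, flip_same, flip_ne _ hps, flip_ne _ hpr] at h1
  cases hb : b p <;> simp [hb] at h1

section Core

variable {V : Type} {N : ℕ}

/-- `IsCell i S β`: `β` parametrises the finite set `S` by the vertices of the `i`-cube, neighbours
going to adjacent points. -/
structure IsCell (adj : V → V → Prop) (i : ℕ) (S : Finset V) (β : (Fin i → Bool) → V) : Prop where
  mem : ∀ v, v ∈ S ↔ ∃ b, β b = v
  adj : ∀ b t, adj (β b) (β (flip b t))

/-- Hypotheses on the labelling. -/
structure IsLabelling (adj : V → V → Prop) (σ : V → (Fin N → Bool)) : Prop where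
  symm : ∀ v w, adj v w → adj w v
  step : ∀ v w, adj v w → ∃ j, σ w = flip (σ v) j
  inj : ∀ v w w', adj v w → adj v w' → σ w = σ w' → w = w'

variable {adj : V → V → Prop} {σ : V → (Fin N → Bool)}

/-- The label of the edge from `β b` in direction `t` does not depend on `b`. -/
theorem exists_labels (hσ : IsLabelling adj σ) {i : ℕ} {S : Finset V} {β : (Fin i → Bool) → V}
    (hβ : IsCell adj i S β) (hinj : Function.Injective β) :
    ∃ lam : Fin i → Fin N, Function.Injective lam ∧
      ∀ b t, σ (β (flip b t)) = flip (σ (β b)) (lam t) := by
  classical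
  have h1 : ∀ b t, ∃ j, σ (β (flip b t)) = flip (σ (β b)) j := fun b t =>
    hσ.step _ _ (hβ.adj b t)
  choose ℓ hℓ using h1
  -- labels at one vertex are distinct
  have h2 : ∀ b t u, ℓ b t = ℓ b u → t = u := by
    intro b t u h
    have h3 : σ (β (flip b t)) = σ (β (flip b u)) := by rw [hℓ, hℓ, h]
    have h4 := hσ.inj _ _ _ (hβ.adj b t) (hβ.adj b u) h3
    exact flip_inj b (hinj h4)
  -- the label seen from the other end
  have h3 : ∀ b t, ℓ (flip b t) t = ℓ b t := by
    intro b t
    have h4 := hℓ (flip b t) t
    rw [flip_flip, hℓ b t] at h4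
    by_contra hne
    have h5 := congrFun h4 (ℓ b t)
    rw [flip_ne _ (Ne.symm hne), flip_same] at h5
    cases hb : σ (β b) (ℓ b t) <;> simp [hb] at h5
  -- parallel edges of a square have the same label
  have h4 : ∀ b t u, ℓ (flip b u) t = ℓ b t := by
    intro b t u
    by_cases htu : t = u
    · subst htu; exact h3 b t
    · have e1 : σ (β (flip (flip b t) u)) = flip (flip (σ (β b)) (ℓ b t)) (ℓ (flip b t) u) := by
        rw [hℓ, hℓ]
      have e2 : σ (β (flip (flip b u) t)) = flip (flip (σ (β b)) (ℓ b u)) (ℓ (flip b u) t) := by
        rw [hℓ, hℓ]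
      rw [flip_comm b u t] at e2
      have e3 := e1.symm.trans e2
      have n1 : ℓ b t ≠ ℓ (flip b t) u := by
        intro h
        rw [← h3 b t] at h
        exact htu (h2 _ _ _ h)
      have n2 : ℓ b t ≠ ℓ b u := fun h => htu (h2 _ _ _ h)
      exact (label_square _ e3 n1 n2).symm
  -- hence constant
  have h5 : ∀ (T : Finset (Fin i)) (b c : Fin i → Bool), (∀ u, u ∉ T → b u = c u) →
      ∀ t, ℓ b t = ℓ c t := by
    intro T
    induction T using Finset.induction_on with
    | empty =>
      intro b c h t
      have : b = c := funext fun u => h u (by simp)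
      rw [this]
    | insert u T hu ih =>
      intro b c h t
      by_cases hbc : b u = c u
      · exact ih b c (fun v hv => by
          by_cases hvu : v = u
          · subst hvu; exact hbc
          · exact h v (by simp [hvu, hv])) t
      · have h6 := ih (flip b u) c (fun v hv => by
          by_cases hvu : v = u
          · subst hvu
            rw [flip_same]
            cases hb : b v <;> cases hc : c v <;> simp_all
          · rw [flip_ne _ hvu]; exact h v (by simp [hvu, hv])) t
        rw [← h6, h4]
  refine ⟨fun t => ℓ (fun _ => false) t, fun t u h => h2 _ _ _ h, fun b t => ?_⟩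
  rw [hℓ b t, h5 Finset.univ b (fun _ => false) (by simp) t]

/-- How a label behaves on a cell. -/
theorem label_values (hσ : IsLabelling adj σ) {i : ℕ} {S : Finset V} {β : (Fin i → Bool) → V}
    (hβ : IsCell adj i S β) (hinj : Function.Injective β) (j : Fin N) :
    (∀ b c, σ (β b) j = σ (β c) j) ∨
      ∃ t : Fin i, (∀ b, σ (β (flip b t)) = flip (σ (β b)) j) ∧
        ∃ e : Bool, ∀ b, σ (β b) j = xor e (b t) := by
  classical
  obtain ⟨lam, hlam, hstep⟩ := exists_labels hσ hβ hinj
  -- general statement: value at coordinate `j`
  have key : ∀ (T : Finset (Fin i)) (b c : Fin i → Bool), (∀ u, u ∉ T → b u = c u) →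
      (∀ t, lam t = j → b t = c t) → σ (β b) j = σ (β c) j := by
    intro T
    induction T using Finset.induction_on with
    | empty =>
      intro b c h _
      have : b = c := funext fun u => h u (by simp)
      rw [this]
    | insert u T hu ih =>
      intro b c h hj
      by_cases hbc : b u = c u
      · exact ih b c (fun v hv => by
          by_cases hvu : v = u
          · subst hvu; exact hbc
          · exact h v (by simp [hvu, hv])) hj
      · have hlu : lam u ≠ j := fun hl => hbc (hj u hl)
        have h6 := ih (flip b u) c (fun v hv => by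
          by_cases hvu : v = u
          · subst hvu
            rw [flip_same]
            cases hb : b v <;> cases hc : c v <;> simp_all
          · rw [flip_ne _ hvu]; exact h v (by simp [hvu, hv])) (fun t ht => by
            have htu : t ≠ u := fun h' => hlu (h' ▸ ht)
            rw [flip_ne _ htu]; exact hj t ht)
        rw [← h6, hstep b u, flip_ne _ (Ne.symm hlu)]
  by_cases hex : ∃ t, lam t = j
  · right
    obtain ⟨t, ht⟩ := hex
    refine ⟨t, fun b => by rw [← ht]; exact hstep b t, σ (β (fun _ => false)) j, fun b => ?_⟩
    have hu : ∀ t', lam t' = j → t' = t := fun t' h' => hlam (h'.trans ht.symm)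
    cases hb : b t with
    | false =>
      rw [key Finset.univ b (fun _ => false) (by simp) (fun t' h' => by rw [hu t' h', hb])]
      simp
    | true =>
      have h1 : σ (β (flip b t)) j = σ (β (fun _ => false)) j :=
        key Finset.univ _ _ (by simp) (fun t' h' => by rw [hu t' h', flip_same, hb]; rfl)
      have h2 := congrFun (hstep b t) j
      rw [ht, flip_same] at h2
      rw [← h1, h2]
      cases σ (β b) j <;> rfl
  · left
    intro b c
    exact key Finset.univ b c (by simp) (fun t ht => (hex ⟨t, ht⟩).elim)

/-- The hypotheses on the families `Fam i` of vertex sets of `i`-cubes. -/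
structure IsFamily (adj : V → V → Prop) (Fam : ℕ → Finset (Finset V)) : Prop where
  cell : ∀ i, ∀ S ∈ Fam i, ∃ β : (Fin i → Bool) → V, Function.Injective β ∧ IsCell adj i S β ∧
    ∀ t c, ∃ S' ∈ Fam (i - 1), ∀ v, v ∈ S' ↔ ∃ b, b t = c ∧ β b = v

variable [DecidableEq V]

/-- The combinatorial core. -/
theorem core (hσ : IsLabelling adj σ) {Fam : ℕ → Finset (Finset V)} (hF : IsFamily adj Fam)
    (n : ℕ) : ∀ (U : Finset V), U.card = n → ∀ i,
      ((Fam i).filter (· ⊆ U)).card ≤ cubeSum n i := by
  induction n using Nat.strong_induction_on with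
  | _ n ih =>
    intro U hU i
    cases i with
    | zero =>
      rw [cubeSum_zero, ← hU]
      -- members are singletons
      have h1 : ∀ S ∈ Fam 0, ∃ v, S = {v} := by
        intro S hS
        obtain ⟨β, hinj, hβ, _⟩ := hF.cell 0 S hS
        refine ⟨β default, ?_⟩
        ext v
        rw [hβ.mem, Finset.mem_singleton]
        constructor
        · rintro ⟨b, rfl⟩; rw [Subsingleton.elim b default]
        · rintro rfl; exact ⟨_, rfl⟩
      have h2 : (Fam 0).filter (· ⊆ U) ⊆ U.image (fun v => ({v} : Finset V)) := by
        intro S hS
        rw [Finset.mem_filter] at hS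
        obtain ⟨v, rfl⟩ := h1 S hS.1
        exact Finset.mem_image.2 ⟨v, hS.2 (Finset.mem_singleton_self v), rfl⟩
      exact (Finset.card_le_card h2).trans Finset.card_image_le
    | succ i =>
      by_cases hne : ((Fam (i + 1)).filter (· ⊆ U)) = ∅
      · rw [hne]; simp
      obtain ⟨S0, hS0⟩ := Finset.nonempty_iff_ne_empty.2 hne
      rw [Finset.mem_filter] at hS0
      -- a crossing label
      obtain ⟨β0, hinj0, hβ0, _⟩ := hF.cell (i + 1) S0 hS0.1
      obtain ⟨j, hj⟩ := hσ.step _ _ (hβ0.adj (fun _ => false) 0)
      set x0 := β0 (fun _ => false) with hx0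
      set y0 := β0 (flip (fun _ => false) 0) with hy0
      have hx0U : x0 ∈ U := hS0.2 ((hβ0.mem _).2 ⟨_, rfl⟩)
      have hy0U : y0 ∈ U := hS0.2 ((hβ0.mem _).2 ⟨_, rfl⟩)
      have hxy : σ y0 j = !σ x0 j := by rw [hj, flip_same]
      -- the two halves of `U`
      set H : Bool → Finset V := fun c => U.filter (fun v => σ v j = c) with hH
      have hHU : ∀ c, H c ⊆ U := fun c => Finset.filter_subset _ _
      have hcard : (H true).card + (H false).card = n := by
        rw [← hU, hH]
        have h1 := Finset.card_filter_add_card_filter_not (s := U) (fun v => σ v j = true)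
        rw [← h1]
        congr 2
        ext v
        simp
      have hpos : ∀ c, 0 < (H c).card := by
        intro c
        rw [Finset.card_pos]
        by_cases hc : σ x0 j = c
        · exact ⟨x0, Finset.mem_filter.2 ⟨hx0U, hc⟩⟩
        · refine ⟨y0, Finset.mem_filter.2 ⟨hy0U, ?_⟩⟩
          rw [hxy]
          revert hc
          cases σ x0 j <;> cases c <;> simp
      -- the crossing cells
      set X := (Fam (i + 1)).filter (fun S => S ⊆ U ∧ (∃ v ∈ S, σ v j = true) ∧
        ∃ v ∈ S, σ v j = false) with hX
      have hsplit : (Fam (i + 1)).filter (· ⊆ U) ⊆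
          ((Fam (i + 1)).filter (· ⊆ H true) ∪ (Fam (i + 1)).filter (· ⊆ H false)) ∪ X := by
        intro S hS
        rw [Finset.mem_filter] at hS
        rw [Finset.mem_union, Finset.mem_union, Finset.mem_filter, Finset.mem_filter, hX,
          Finset.mem_filter]
        by_cases h1 : ∃ v ∈ S, σ v j = true
        · by_cases h2 : ∃ v ∈ S, σ v j = false
          · exact Or.inr ⟨hS.1, hS.2, h1, h2⟩
          · left; left
            refine ⟨hS.1, fun v hv => Finset.mem_filter.2 ⟨hS.2 hv, ?_⟩⟩
            by_contra h3
            exact h2 ⟨v, hv, by simpa using h3⟩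
        · left; right
          refine ⟨hS.1, fun v hv => Finset.mem_filter.2 ⟨hS.2 hv, ?_⟩⟩
          by_contra h3
          exact h1 ⟨v, hv, by simpa using h3⟩
      -- structure of a crossing cell
      have hstruct : ∀ S ∈ X, (∀ c, S.filter (fun v => σ v j = c) ∈ Fam i) ∧
          ∀ v ∈ S, ∃ w ∈ S, adj v w ∧ σ w = flip (σ v) j := by
        intro S hS
        rw [hX, Finset.mem_filter] at hS
        obtain ⟨hSF, hSU, ⟨v1, hv1, hv1'⟩, ⟨v2, hv2, hv2'⟩⟩ := hS
        obtain ⟨β, hinj, hβ, hhalf⟩ := hF.cell (i + 1) S hSF
        rcases label_values hσ hβ hinj j with hconst | ⟨t, ht, e, he⟩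
        · exfalso
          obtain ⟨b1, rfl⟩ := (hβ.mem v1).1 hv1
          obtain ⟨b2, rfl⟩ := (hβ.mem v2).1 hv2
          have := hconst b1 b2
          rw [hv1', hv2'] at this
          exact absurd this (by simp)
        · refine ⟨fun c => ?_, fun v hv => ?_⟩
          · obtain ⟨S', hS', hS'2⟩ := hhalf t (xor e c)
            have : S.filter (fun v => σ v j = c) = S' := by
              ext v
              rw [Finset.mem_filter, hβ.mem, hS'2]
              constructor
              · rintro ⟨⟨b, rfl⟩, hc⟩
                refine ⟨b, ?_, rfl⟩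
                rw [he] at hc
                rw [← hc]
                cases e <;> cases b t <;> rfl
              · rintro ⟨b, hb, rfl⟩
                refine ⟨⟨b, rfl⟩, ?_⟩
                rw [he, hb]
                cases e <;> cases c <;> rfl
            rw [this]; exact hS'
          · obtain ⟨b, rfl⟩ := (hβ.mem v).1 hv
            exact ⟨β (flip b t), (hβ.mem _).2 ⟨_, rfl⟩, hβ.adj b t, ht b⟩
      -- crossing cells are determined by one half
      have hXcard : ∀ c, X.card ≤ ((Fam i).filter (· ⊆ H c)).card := by
        intro c
        refine Finset.card_le_card_of_injOn (fun S => S.filter (fun v => σ v j = c)) ?_ ?_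
        · intro S hS
          have hS' := hS
          rw [Finset.mem_coe] at hS'
          have h1 := (hstruct S hS').1 c
          rw [hX, Finset.mem_filter] at hS'
          rw [Finset.mem_coe, Finset.mem_filter]
          refine ⟨h1, fun v hv => ?_⟩
          rw [Finset.mem_filter] at hv
          exact Finset.mem_filter.2 ⟨hS'.2.1 hv.1, hv.2⟩
        · have hsub : ∀ S ∈ X, ∀ S' ∈ X,
              S.filter (fun v => σ v j = c) = S'.filter (fun v => σ v j = c) → S ⊆ S' := by
            intro S hS S' hS' heq x hx
            by_cases hc : σ x j = c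
            · have : x ∈ S'.filter (fun v => σ v j = c) := by
                rw [← heq]; exact Finset.mem_filter.2 ⟨hx, hc⟩
              exact (Finset.mem_filter.1 this).1
            · obtain ⟨w, hw, haw, hσw⟩ := (hstruct S hS).2 x hx
              have hwc : σ w j = c := by
                rw [hσw, flip_same]
                revert hc
                cases σ x j <;> cases c <;> simp
              have hw' : w ∈ S'.filter (fun v => σ v j = c) := by
                rw [← heq]; exact Finset.mem_filter.2 ⟨hw, hwc⟩
              obtain ⟨x', hx', haw', hσx'⟩ := (hstruct S' hS').2 w (Finset.mem_filter.1 hw').1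
              have : x = x' := by
                apply hσ.inj w x x' (hσ.symm _ _ haw) haw'
                rw [hσx', hσw, flip_flip]
              rw [this]; exact hx'
          intro S hS S' hS' heq
          exact Finset.Subset.antisymm (hsub S hS S' hS' heq) (hsub S' hS' S hS heq.symm)
      -- put together
      have hT := ih (H true).card (by have := hpos false; omega) (H true) rfl
      have hFa := ih (H false).card (by have := hpos true; omega) (H false) rfl
      have h1 : ((Fam (i + 1)).filter (· ⊆ U)).card ≤
          ((Fam (i + 1)).filter (· ⊆ H true)).card + ((Fam (i + 1)).filter (· ⊆ H false)).card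
            + X.card := by
        refine (Finset.card_le_card hsplit).trans ?_
        refine (Finset.card_union_le _ _).trans ?_
        exact Nat.add_le_add_right (Finset.card_union_le _ _) _
      have h2 := hT (i + 1)
      have h3 := hFa (i + 1)
      rcases Nat.le_total (H false).card (H true).card with hle | hle
      · have h4 := hXcard false
        have h5 := hFa i
        have h6 := cubeSum_add i _ _ hle
        rw [hcard] at h6
        omega
      · have h4 := hXcard true
        have h5 := hT i
        have h6 := cubeSum_add i _ _ hle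
        rw [Nat.add_comm (H false).card, hcard] at h6
        omega

end Core

end Pool.Agent.CubF620
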