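import Pool.Agent.CubF620.Core

/-!
MP_f620bf_co (helper50).  Combinatorial core with multiplicities, self-crossing labels allowed.
-/

set_option autoImplicit false

open Finset

namespace Pool.Agent.CubF620

/-- The coefficient of `x^i` in `(2 ((1+x)^μ - 1))^l`. -/
def coefA (μ : ℕ) : ℕ → ℕ → ℕ
  | 0, i => if i = 0 then 1 else 0
  | l + 1, i => ∑ r ∈ Finset.Icc 1 i, 2 * μ.choose r * coefA μ l (i - r)

section Core3

variable {V : Type} {N : ℕ}

/-- The labels that separate two points of `S`. -/
def lset (σ : V → (Fin N → Bool)) (S : Finset V) : Finset (Fin N) :=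
  open Classical in Finset.univ.filter (fun j => ∃ v ∈ S, ∃ w ∈ S, σ v j ≠ σ w j)

theorem mem_lset (σ : V → (Fin N → Bool)) (S : Finset V) (j : Fin N) :
    j ∈ lset σ S ↔ ∃ v ∈ S, ∃ w ∈ S, σ v j ≠ σ w j := by
  classical
  simp [lset]

/-- `S` is a cube of dimension `i` with parametrisation `β` and labels `lam`. -/
structure IsCell3 (adj : V → V → Prop) (σ : V → (Fin N → Bool)) (Fam : ℕ → Finset (Finset V))
    (i : ℕ) (S : Finset V) (β : (Fin i → Bool) → V) (lam : Fin i → Fin N) : Prop where
  inj : Function.Injective β
  mem : ∀ v, v ∈ S ↔ ∃ b, β b = v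
  step : ∀ b t, adj (β b) (β (flip b t)) ∧ σ (β (flip b t)) = flip (σ (β b)) (lam t)
  sub : ∀ (R : Finset (Fin i)) (b : Fin i → Bool), ∃ T ∈ Fam (i - R.card),
    ∀ v, v ∈ T ↔ ∃ c, (∀ t ∈ R, c t = b t) ∧ β c = v
  join : ∀ (R : Finset (Fin i)) (b : Fin i → Bool), ∀ S' ∈ Fam i,
    (∀ c, (∀ t ∈ R, c t = b t) → β c ∈ S') → (∀ t ∈ R, β (flip b t) ∈ S') → S ⊆ S'

variable {adj : V → V → Prop} {σ : V → (Fin N → Bool)}

theorem label_const {i : ℕ} {β : (Fin i → Bool) → V} {lam : Fin i → Fin N}
    (hstep : ∀ b t, σ (β (flip b t)) = flip (σ (β b)) (lam t)) (j : Fin N) :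
    ∀ (T : Finset (Fin i)) (b c : Fin i → Bool), (∀ u, u ∉ T → b u = c u) →
      (∀ t, lam t = j → b t = c t) → σ (β b) j = σ (β c) j := by
  classical
  intro T
  induction T using Finset.induction_on with
  | empty =>
    intro b c h _
    have : b = c := funext fun u => h u (by simp)
    rw [this]
  | insert u T hu ih =>
    intro b c h hj
    by_cases hbc : b u = c u
    · exact ih b c (fun v hv => by
        by_cases hvu : v = u
        · subst hvu; exact hbc
        · exact h v (by simp [hvu, hv])) hj
    · have hlu : lam u ≠ j := fun hl => hbc (hj u hl)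
      have h6 := ih (flip b u) c (fun v hv => by
        by_cases hvu : v = u
        · subst hvu
          rw [flip_same]
          cases hb : b v <;> cases hc : c v <;> simp_all
        · rw [flip_ne _ hvu]; exact h v (by simp [hvu, hv])) (fun t ht => by
          have htu : t ≠ u := fun h' => hlu (h' ▸ ht)
          rw [flip_ne _ htu]; exact hj t ht)
      rw [← h6, hstep b u, flip_ne _ (Ne.symm hlu)]

variable [DecidableEq V]

theorem cell_card {Fam : ℕ → Finset (Finset V)} {i : ℕ} {S : Finset V}
    {β : (Fin i → Bool) → V} {lam : Fin i → Fin N} (h : IsCell3 adj σ Fam i S β lam) :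
    S.card = 2 ^ i := by
  have h1 : S = Finset.univ.image β := by
    ext v; rw [h.mem]; simp
  rw [h1, Finset.card_image_of_injective _ h.inj, Finset.card_univ]
  simp

omit [DecidableEq V] in
theorem cell_lset {Fam : ℕ → Finset (Finset V)} {i : ℕ} {S : Finset V}
    {β : (Fin i → Bool) → V} {lam : Fin i → Fin N} (h : IsCell3 adj σ Fam i S β lam) (j : Fin N) :
    j ∈ lset σ S ↔ ∃ t, lam t = j := by
  rw [mem_lset]
  constructor
  · rintro ⟨v, hv, w, hw, hne⟩
    obtain ⟨b, rfl⟩ := (h.mem v).1 hv
    obtain ⟨c, rfl⟩ := (h.mem w).1 hw
    by_contra hcon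
    push Not at hcon
    exact hne (label_const (fun b t => (h.step b t).2) j Finset.univ b c (by simp)
      (fun t ht => (hcon t ht).elim))
  · rintro ⟨t, rfl⟩
    refine ⟨β (fun _ => false), (h.mem _).2 ⟨_, rfl⟩, β (flip (fun _ => false) t),
      (h.mem _).2 ⟨_, rfl⟩, ?_⟩
    rw [(h.step _ t).2, flip_same]
    cases σ (β fun _ => false) (lam t) <;> simp

/-- Half of the points of a crossing cell lie on each side. -/
theorem cell_half {Fam : ℕ → Finset (Finset V)} {i : ℕ} {S : Finset V}
    {β : (Fin i → Bool) → V} {lam : Fin i → Fin N} (h : IsCell3 adj σ Fam i S β lam) {t : Fin i}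
    {j : Fin N} (ht : lam t = j) (c : Bool) :
    2 * (S.filter (fun v => σ v j = c)).card = 2 ^ i := by
  classical
  have h0 : ∀ c : Bool, (S.filter (fun v => σ v j = c)) =
      (Finset.univ.filter (fun b => σ (β b) j = c)).image β := by
    intro c
    ext v
    simp only [Finset.mem_filter, Finset.mem_image, Finset.mem_univ, true_and]
    rw [h.mem]
    constructor
    · rintro ⟨⟨b, rfl⟩, hb⟩; exact ⟨b, hb, rfl⟩
    · rintro ⟨b, hb, rfl⟩; exact ⟨⟨b, rfl⟩, hb⟩
  have h1 : ∀ c : Bool, (Finset.univ.filter (fun b => σ (β b) j = c)).card ≤
      (Finset.univ.filter (fun b => σ (β b) j = !c)).card := by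
    intro c
    refine Finset.card_le_card_of_injOn (fun b => flip b t) ?_ ?_
    · intro b hb
      rw [Finset.mem_coe, Finset.mem_filter] at hb ⊢
      refine ⟨Finset.mem_univ _, ?_⟩
      rw [(h.step b t).2, ht, flip_same, hb.2]
    · intro b _ b' _ hbb
      have h2 : flip (flip b t) t = flip (flip b' t) t := congrArg (fun x => flip x t) hbb
      rwa [flip_flip, flip_flip] at h2
  have h2 := h1 c
  have h3 := h1 (!c)
  rw [Bool.not_not] at h3
  have h4 := Finset.card_filter_add_card_filter_not (s := (Finset.univ : Finset (Fin i → Bool)))
    (fun b => σ (β b) j = c)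
  have h5 : (Finset.univ.filter (fun b => ¬ σ (β b) j = c)) =
      (Finset.univ.filter (fun b => σ (β b) j = !c)) := by
    ext b
    simp only [Finset.mem_filter, Finset.mem_univ, true_and]
    cases σ (β b) j <;> cases c <;> simp
  rw [h5, Finset.card_univ] at h4
  have h6 : Fintype.card (Fin i → Bool) = 2 ^ i := by simp
  rw [h6] at h4
  rw [h0, Finset.card_image_of_injective _ h.inj]
  omega

/-- The combinatorial core, with at most `μ` edges of each label at each vertex. -/
theorem core3 {Fam : ℕ → Finset (Finset V)}
    (hF : ∀ i, ∀ S ∈ Fam i, ∃ β lam, IsCell3 adj σ Fam i S β lam) (μ : ℕ)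
    (hμ : ∀ v j (W : Finset V), (∀ w ∈ W, adj v w ∧ σ w = flip (σ v) j) → W.card ≤ μ)
    (n : ℕ) : ∀ (U : Finset V), U.card = n → ∀ l i,
      2 ^ i * ((Fam i).filter (fun S => S ⊆ U ∧ (lset σ S).card = l)).card ≤
        coefA μ l i * cubeSum n l := by
  classical
  induction n using Nat.strong_induction_on with
  | _ n ih =>
    intro U hU l i
    cases l with
    | zero =>
      -- cells without labels are points
      rcases Nat.eq_zero_or_pos i with hi | hi
      · subst hi
        rw [cubeSum_zero, ← hU]
        simp only [coefA, if_true, pow_zero, one_mul]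
        have h2 : (Fam 0).filter (fun S => S ⊆ U ∧ (lset σ S).card = 0) ⊆
            U.image (fun v => ({v} : Finset V)) := by
          intro S hS
          rw [Finset.mem_filter] at hS
          obtain ⟨β, lam, hc⟩ := hF 0 S hS.1
          have h3 : S = {β default} := by
            ext v
            rw [hc.mem, Finset.mem_singleton]
            constructor
            · rintro ⟨b, rfl⟩; rw [Subsingleton.elim b default]
            · rintro rfl; exact ⟨_, rfl⟩
          rw [h3] at hS ⊢
          exact Finset.mem_image.2 ⟨_, hS.2.1 (Finset.mem_singleton_self _), rfl⟩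
        exact (Finset.card_le_card h2).trans Finset.card_image_le
      · have h2 : (Fam i).filter (fun S => S ⊆ U ∧ (lset σ S).card = 0) = ∅ := by
          rw [Finset.filter_eq_empty_iff]
          rintro S hS ⟨_, h3⟩
          obtain ⟨β, lam, hc⟩ := hF i S hS
          rw [Finset.card_eq_zero] at h3
          have h4 := (cell_lset hc (lam ⟨0, hi⟩)).2 ⟨_, rfl⟩
          rw [h3] at h4
          exact absurd h4 (Finset.notMem_empty _)
        rw [h2]; simp
    | succ l =>
      by_cases hne : ((Fam i).filter (fun S => S ⊆ U ∧ (lset σ S).card = l + 1)) = ∅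
      · rw [hne]; simp
      obtain ⟨S0, hS0⟩ := Finset.nonempty_iff_ne_empty.2 hne
      rw [Finset.mem_filter] at hS0
      obtain ⟨j, hj⟩ : (lset σ S0).Nonempty := by
        rw [← Finset.card_pos, hS0.2.2]; omega
      obtain ⟨x0, hx0, y0, hy0, hxy⟩ := (mem_lset σ S0 j).1 hj
      have hx0U := hS0.2.1 hx0
      have hy0U := hS0.2.1 hy0
      set H : Bool → Finset V := fun c => U.filter (fun v => σ v j = c) with hH
      have hcard : (H true).card + (H false).card = n := by
        rw [← hU, hH]
        have h1 := Finset.card_filter_add_card_filter_not (s := U) (fun v => σ v j = true)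
        rw [← h1]
        congr 2
        ext v
        simp
      have hpos : ∀ c, 0 < (H c).card := by
        intro c
        rw [Finset.card_pos]
        by_cases hc : σ x0 j = c
        · exact ⟨x0, Finset.mem_filter.2 ⟨hx0U, hc⟩⟩
        · refine ⟨y0, Finset.mem_filter.2 ⟨hy0U, ?_⟩⟩
          revert hc hxy
          cases σ x0 j <;> cases σ y0 j <;> cases c <;> simp
      set X := (Fam i).filter (fun S => (S ⊆ U ∧ (lset σ S).card = l + 1) ∧ j ∈ lset σ S) with hX
      set Y : Bool → Finset (Finset V) := fun c =>
        (Fam i).filter (fun S => S ⊆ H c ∧ (lset σ S).card = l + 1) with hY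
      have hsplit : (Fam i).filter (fun S => S ⊆ U ∧ (lset σ S).card = l + 1) ⊆
          (Y true ∪ Y false) ∪ X := by
        intro S hS
        rw [Finset.mem_filter] at hS
        by_cases h1 : j ∈ lset σ S
        · exact Finset.mem_union_right _ (Finset.mem_filter.2 ⟨hS.1, hS.2, h1⟩)
        · refine Finset.mem_union_left _ ?_
          rw [mem_lset] at h1
          push Not at h1
          have hYc : ∀ c, (∀ w ∈ S, σ w j = c) → S ∈ Y c := by
            intro c hc
            exact Finset.mem_filter.2
              ⟨hS.1, fun w hw => Finset.mem_filter.2 ⟨hS.2.1 hw, hc w hw⟩, hS.2.2⟩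
          rcases S.eq_empty_or_nonempty with hSe | ⟨v, hv⟩
          · refine Finset.mem_union_left _ (hYc true ?_)
            rw [hSe]
            intro w hw
            exact absurd hw (Finset.notMem_empty _)
          · cases hc : σ v j
            · exact Finset.mem_union_right _ (hYc false fun w hw => by
                rw [← hc]; exact h1 w hw v hv)
            · exact Finset.mem_union_left _ (hYc true fun w hw => by
                rw [← hc]; exact h1 w hw v hv)
      -- data for the cells
      have hdata : ∀ S, ∃ (β : (Fin i → Bool) → V) (lam : Fin i → Fin N)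
          (inv : V → (Fin i → Bool)), S ∈ Fam i →
            IsCell3 adj σ Fam i S β lam ∧ ∀ v ∈ S, β (inv v) = v := by
        intro S
        by_cases hS : S ∈ Fam i
        · obtain ⟨β, lam, hc⟩ := hF i S hS
          have hinv : ∀ v, ∃ b, v ∈ S → β b = v := by
            intro v
            by_cases hv : v ∈ S
            · obtain ⟨b, hb⟩ := (hc.mem v).1 hv
              exact ⟨b, fun _ => hb⟩
            · exact ⟨fun _ => false, fun h => (hv h).elim⟩
          choose inv hinv using hinv
          exact ⟨β, lam, inv, fun _ => ⟨hc, hinv⟩⟩
        · exact ⟨fun _ => x0, fun _ => j, fun _ _ => false, fun h => (hS h).elim⟩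
      choose β lam inv hcell using hdata
      let R : Finset V → Finset (Fin i) := fun S => Finset.univ.filter (fun t => lam S t = j)
      have hXF : ∀ S ∈ X, S ∈ Fam i := fun S hS => (Finset.mem_filter.1 hS).1
      have hRmem : ∀ S t, t ∈ R S ↔ lam S t = j := fun S t => by simp [R]
      have hRpos : ∀ S ∈ X, 1 ≤ (R S).card := by
        intro S hS
        have h1 := (Finset.mem_filter.1 hS).2.2
        rw [cell_lset (hcell S (hXF S hS)).1] at h1
        obtain ⟨t, ht⟩ := h1
        exact Finset.card_pos.2 ⟨t, (hRmem S t).2 ht⟩
      have hRle : ∀ S, (R S).card ≤ i := fun S => by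
        have := Finset.card_le_univ (R S)
        simpa using this
      -- the counting for a fixed multiplicity
      have hcount : ∀ c, ∀ r ∈ Finset.Icc 1 i,
          2 ^ i * (X.filter (fun S => (R S).card = r)).card ≤
            2 * μ.choose r * (2 ^ (i - r) *
              ((Fam (i - r)).filter (fun T => T ⊆ H c ∧ (lset σ T).card = l)).card) := by
        intro c r hr
        rw [Finset.mem_Icc] at hr
        set Xr := X.filter (fun S => (R S).card = r) with hXr
        set Q := (Fam (i - r)).filter (fun T => T ⊆ H c ∧ (lset σ T).card = l) with hQ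
        let A : Finset (Σ _ : Finset V, V) := Xr.sigma fun S => S.filter (fun v => σ v j = c)
        let B : Finset (Σ _ : Finset V, V) := Q.sigma fun T => T
        have hA : 2 * A.card = 2 ^ i * Xr.card := by
          have h1 : A.card = ∑ S ∈ Xr, (S.filter (fun v => σ v j = c)).card :=
            Finset.card_sigma _ _
          rw [h1, Finset.mul_sum]
          have h2 : ∀ S ∈ Xr, 2 * (S.filter (fun v => σ v j = c)).card = 2 ^ i := by
            intro S hS
            have hSX : S ∈ X := (Finset.mem_filter.1 hS).1
            obtain ⟨t, ht⟩ := Finset.card_pos.1 (hRpos S hSX)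
            exact cell_half (hcell S (hXF S hSX)).1 ((hRmem S t).1 ht) c
          rw [Finset.sum_congr rfl h2, Finset.sum_const, smul_eq_mul, mul_comm]
        have hB : B.card = 2 ^ (i - r) * Q.card := by
          have h1 : B.card = ∑ T ∈ Q, T.card := Finset.card_sigma _ _
          have h2 : ∀ T ∈ Q, T.card = 2 ^ (i - r) := by
            intro T hT
            obtain ⟨β', lam', hc'⟩ := hF (i - r) T (Finset.mem_filter.1 hT).1
            exact cell_card hc'
          rw [h1, Finset.sum_congr rfl h2, Finset.sum_const, smul_eq_mul, mul_comm]
        -- the map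
        let Tf : Finset V → V → Finset V := fun S v =>
          (Finset.univ.filter (fun c' => ∀ t ∈ R S, c' t = inv S v t)).image (β S)
        have hTf : ∀ S v w, w ∈ Tf S v ↔ ∃ c', (∀ t ∈ R S, c' t = inv S v t) ∧ β S c' = w := by
          intro S v w
          simp [Tf]
        have hmaps : ∀ q ∈ A, (⟨Tf q.1 q.2, q.2⟩ : Σ _ : Finset V, V) ∈ B := by
          rintro ⟨S, v⟩ hq
          obtain ⟨hS, hv⟩ := Finset.mem_sigma.1 hq
          simp only at hS hv
          rw [Finset.mem_filter] at hv
          have hSX : S ∈ X := (Finset.mem_filter.1 hS).1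
          have hSr : (R S).card = r := (Finset.mem_filter.1 hS).2
          have hSF := hXF S hSX
          obtain ⟨hc', hinv⟩ := hcell S hSF
          have hSX' := Finset.mem_filter.1 hSX
          have hbv := hinv v hv.1
          refine Finset.mem_sigma.2 ⟨?_, ?_⟩
          · -- the sub-cell
            show Tf S v ∈ Q
            rw [hQ, Finset.mem_filter]
            refine ⟨?_, ?_, ?_⟩
            · obtain ⟨T, hT, hTm⟩ := hc'.sub (R S) (inv S v)
              have : Tf S v = T := by
                ext w; rw [hTf, hTm]
              rw [this, ← hSr]; exact hT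
            · intro w hw
              obtain ⟨c', hc1, rfl⟩ := (hTf S v w).1 hw
              refine Finset.mem_filter.2 ⟨hSX'.2.1.1 ((hc'.mem _).2 ⟨_, rfl⟩), ?_⟩
              rw [label_const (fun b t => (hc'.step b t).2) j Finset.univ c' (inv S v) (by simp)
                (fun t ht => hc1 t ((hRmem S t).2 ht)), hbv]
              exact hv.2
            · have h1 : lset σ (Tf S v) = (lset σ S).erase j := by
                ext j'
                rw [Finset.mem_erase, cell_lset hc']
                constructor
                · intro hj'
                  obtain ⟨w, hw, w', hw', hne'⟩ := (mem_lset σ _ j').1 hj'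
                  obtain ⟨c1, hc1, rfl⟩ := (hTf S v w).1 hw
                  obtain ⟨c2, hc2, rfl⟩ := (hTf S v w').1 hw'
                  constructor
                  · rintro rfl
                    exact hne' (label_const (fun b t => (hc'.step b t).2) j' Finset.univ c1 c2
                      (by simp) (fun t ht => by
                        rw [hc1 t ((hRmem S t).2 ht), hc2 t ((hRmem S t).2 ht)]))
                  · by_contra hcon
                    push Not at hcon
                    exact hne' (label_const (fun b t => (hc'.step b t).2) j' Finset.univ c1 c2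
                      (by simp) (fun t ht => (hcon t ht).elim))
                · rintro ⟨hjj, t, rfl⟩
                  rw [mem_lset]
                  refine ⟨β S (inv S v), (hTf S v _).2 ⟨_, fun _ _ => rfl, rfl⟩,
                    β S (flip (inv S v) t), (hTf S v _).2 ⟨_, fun u hu => ?_, rfl⟩, ?_⟩
                  · refine flip_ne _ ?_
                    rintro rfl
                    exact hjj ((hRmem S _).1 hu)
                  · rw [(hc'.step _ t).2, flip_same]
                    cases σ (β S (inv S v)) (lam S t) <;> simp
              rw [h1, Finset.card_erase_of_mem hSX'.2.2, hSX'.2.1.2]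
              omega
          · exact (hTf S v v).2 ⟨inv S v, fun _ _ => rfl, hbv⟩
        have hfib : ∀ p ∈ B, (A.filter (fun q =>
            (⟨Tf q.1 q.2, q.2⟩ : Σ _ : Finset V, V) = p)).card ≤ μ.choose r := by
          rintro ⟨T, v⟩ _
          -- the possible partners
          set nb := U.filter (fun w => adj v w ∧ σ w = flip (σ v) j) with hnb
          have hnbc : nb.card ≤ μ := hμ v j nb fun w hw => (Finset.mem_filter.1 hw).2
          have hle : (A.filter (fun q =>
              (⟨Tf q.1 q.2, q.2⟩ : Σ _ : Finset V, V) = ⟨T, v⟩)).card ≤
              (nb.powersetCard r).card := by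
            refine Finset.card_le_card_of_injOn
              (fun q => (R q.1).image (fun t => β q.1 (flip (inv q.1 q.2) t))) ?_ ?_
            · rintro ⟨S, v'⟩ hq
              rw [Finset.mem_coe, Finset.mem_filter] at hq
              obtain ⟨hqA, hqe⟩ := hq
              obtain ⟨hS, hv⟩ := Finset.mem_sigma.1 hqA
              simp only at hS hv hqe
              have hvv : v' = v := congrArg Sigma.snd hqe
              subst hvv
              rw [Finset.mem_filter] at hv
              have hSX : S ∈ X := (Finset.mem_filter.1 hS).1
              have hSr : (R S).card = r := (Finset.mem_filter.1 hS).2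
              obtain ⟨hc', hinv⟩ := hcell S (hXF S hSX)
              have hSX' := Finset.mem_filter.1 hSX
              have hbv := hinv v' hv.1
              rw [Finset.mem_coe, Finset.mem_powersetCard]
              constructor
              · intro w hw
                obtain ⟨t, ht, rfl⟩ := Finset.mem_image.1 hw
                refine Finset.mem_filter.2 ⟨hSX'.2.1.1 ((hc'.mem _).2 ⟨_, rfl⟩), ?_, ?_⟩
                · have := (hc'.step (inv S v') t).1
                  rwa [hbv] at this
                · have := (hc'.step (inv S v') t).2
                  rwa [hbv, (hRmem S t).1 ht] at this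
              · show ((R S).image (fun t => β S (flip (inv S v') t))).card = r
                rw [Finset.card_image_of_injective _ ?_, hSr]
                intro t u htu
                exact flip_inj _ (hc'.inj htu)
            · rintro ⟨S, v1⟩ hq ⟨S', v2⟩ hq' hWW
              rw [Finset.mem_coe, Finset.mem_filter] at hq hq'
              obtain ⟨hqA, hqe⟩ := hq
              obtain ⟨hqA', hqe'⟩ := hq'
              obtain ⟨hS, hv⟩ := Finset.mem_sigma.1 hqA
              obtain ⟨hS', hv'⟩ := Finset.mem_sigma.1 hqA'
              simp only at hS hv hqe hS' hv' hqe' hWW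
              have hvv : v1 = v := congrArg Sigma.snd hqe
              have hvv' : v2 = v := congrArg Sigma.snd hqe'
              subst hvv'
              subst hvv
              rw [Finset.mem_filter] at hv hv'
              have hTT : Tf S v1 = T := congrArg Sigma.fst hqe
              have hTT' : Tf S' v1 = T := congrArg Sigma.fst hqe'
              have key : ∀ S S', S ∈ Xr → S' ∈ Xr → v1 ∈ S → v1 ∈ S' → Tf S v1 = Tf S' v1 →
                  (R S).image (fun t => β S (flip (inv S v1) t)) =
                    (R S').image (fun t => β S' (flip (inv S' v1) t)) → S ⊆ S' := by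
                intro S S' hS hS' hv hv' hT hW
                have hSX : S ∈ X := (Finset.mem_filter.1 hS).1
                have hSX' : S' ∈ X := (Finset.mem_filter.1 hS').1
                obtain ⟨hc, hinv⟩ := hcell S (hXF S hSX)
                obtain ⟨hc', hinv'⟩ := hcell S' (hXF S' hSX')
                refine hc.join (R S) (inv S v1) S' (hXF S' hSX') ?_ ?_
                · intro e he
                  have h1 : β S e ∈ Tf S v1 := (hTf S v1 _).2 ⟨e, he, rfl⟩
                  rw [hT] at h1
                  obtain ⟨e', _, he'⟩ := (hTf S' v1 _).1 h1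
                  rw [← he']
                  exact (hc'.mem _).2 ⟨_, rfl⟩
                · intro t ht
                  have h1 : β S (flip (inv S v1) t) ∈
                      (R S).image (fun t => β S (flip (inv S v1) t)) :=
                    Finset.mem_image.2 ⟨t, ht, rfl⟩
                  rw [hW] at h1
                  obtain ⟨t', _, ht'⟩ := Finset.mem_image.1 h1
                  rw [← ht']
                  exact (hc'.mem _).2 ⟨_, rfl⟩
              have h1 := key S S' hS hS' hv.1 hv'.1 (hTT.trans hTT'.symm) hWW
              have h2 := key S' S hS' hS hv'.1 hv.1 (hTT'.trans hTT.symm) hWW.symm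
              have h3 := Finset.Subset.antisymm h1 h2
              subst h3
              rfl
          refine hle.trans ?_
          rw [Finset.card_powersetCard]
          exact Nat.choose_le_choose r hnbc
        have hAB := Finset.card_le_mul_card_image_of_maps_to hmaps _ hfib
        rw [hB] at hAB
        calc 2 ^ i * Xr.card = 2 * A.card := hA.symm
          _ ≤ 2 * (μ.choose r * (2 ^ (i - r) * Q.card)) := Nat.mul_le_mul_left 2 hAB
          _ = 2 * μ.choose r * (2 ^ (i - r) * Q.card) := by ring
      -- sum over the multiplicities
      have hXcard : ∀ c, (∀ i', 2 ^ i' * ((Fam i').filter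
          (fun S => S ⊆ H c ∧ (lset σ S).card = l)).card ≤ coefA μ l i' * cubeSum (H c).card l) →
          2 ^ i * X.card ≤ coefA μ (l + 1) i * cubeSum (H c).card l := by
        intro c hc
        have h1 : X.card = ∑ r ∈ Finset.Icc 1 i, (X.filter (fun S => (R S).card = r)).card :=
          Finset.card_eq_sum_card_fiberwise fun S hS => by
            rw [Finset.mem_coe, Finset.mem_Icc]
            exact ⟨hRpos S hS, hRle S⟩
        rw [h1, Finset.mul_sum]
        simp only [coefA]
        rw [Finset.sum_mul]
        refine Finset.sum_le_sum fun r hr => ?_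
        refine (hcount c r hr).trans ?_
        have h2 := Nat.mul_le_mul_left (2 * μ.choose r) (hc (i - r))
        rw [mul_assoc (2 * μ.choose r) (coefA μ l (i - r))]
        exact h2
      have hT := ih (H true).card (by have := hpos false; omega) (H true) rfl
      have hFa := ih (H false).card (by have := hpos true; omega) (H false) rfl
      have h1 : ((Fam i).filter (fun S => S ⊆ U ∧ (lset σ S).card = l + 1)).card ≤
          (Y true).card + (Y false).card + X.card := by
        refine (Finset.card_le_card hsplit).trans ?_
        refine (Finset.card_union_le _ _).trans ?_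
        exact Nat.add_le_add_right (Finset.card_union_le _ _) _
      have h2 := hT (l + 1) i
      have h3 := hFa (l + 1) i
      have h1' := Nat.mul_le_mul_left (2 ^ i) h1
      rw [Nat.mul_add, Nat.mul_add] at h1'
      rcases Nat.le_total (H false).card (H true).card with hle | hle
      · have h4 := hXcard false (fun i' => hFa l i')
        have h6 := Nat.mul_le_mul_left (coefA μ (l + 1) i) (cubeSum_add l _ _ hle)
        rw [hcard, Nat.mul_add, Nat.mul_add] at h6
        have h7 : 2 ^ i * (Y true).card ≤ coefA μ (l + 1) i * cubeSum (H true).card (l + 1) := h2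
        have h8 : 2 ^ i * (Y false).card ≤ coefA μ (l + 1) i * cubeSum (H false).card (l + 1) := h3
        linarith
      · have h4 := hXcard true (fun i' => hT l i')
        have h6 := Nat.mul_le_mul_left (coefA μ (l + 1) i) (cubeSum_add l _ _ hle)
        rw [Nat.add_comm (H false).card, hcard, Nat.mul_add, Nat.mul_add] at h6
        have h7 : 2 ^ i * (Y true).card ≤ coefA μ (l + 1) i * cubeSum (H true).card (l + 1) := h2
        have h8 : 2 ^ i * (Y false).card ≤ coefA μ (l + 1) i * cubeSum (H false).card (l + 1) := h3
        linarith

end Core3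

end Pool.Agent.CubF620
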