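import Mathlib

/-!
MP_f620bf_co (helper50).  Definitions: faces, polytopes, cubical polytopes, parallel edges.
-/

set_option autoImplicit false

open Set

namespace Pool.Agent.CubF620

/-- Euclidean `d`-space. -/
abbrev Eu (d : ℕ) := EuclideanSpace ℝ (Fin d)

/-- `F` is a face of `P`: a convex extreme subset of `P`. -/
def IsFace {d : ℕ} (P F : Set (Eu d)) : Prop := Convex ℝ F ∧ IsExtreme ℝ P F

/-- `P` is a convex `d`-polytope in Euclidean `d`-space. -/
def IsPolytope {d : ℕ} (P : Set (Eu d)) : Prop :=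
  (∃ s : Finset (Eu d), P = convexHull ℝ (s : Set (Eu d))) ∧ (interior P).Nonempty

/-- Dimension of the affine span of `F`. -/
noncomputable def dimF {d : ℕ} (F : Set (Eu d)) : ℕ := Module.finrank ℝ (vectorSpan ℝ F)

/-- The cube `[0,1]^k`. -/
def stdCube (k : ℕ) : Set (Eu k) := {x | ∀ j, 0 ≤ x j ∧ x j ≤ 1}

/-- The face lattice of `F` is isomorphic to the one of the `k`-cube. -/
def IsCube {d : ℕ} (F : Set (Eu d)) (k : ℕ) : Prop :=
  Nonempty ({G : Set (Eu d) // IsFace F G} ≃o {G : Set (Eu k) // IsFace (stdCube k) G})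

/-- `P` is cubical: each nonempty proper face of dimension `k` is combinatorially a `k`-cube. -/
def Cubical {d : ℕ} (P : Set (Eu d)) : Prop :=
  ∀ F, IsFace P F → F.Nonempty → F ≠ P → IsCube F (dimF F)

/-- The number of `i`-dimensional faces. -/
noncomputable def fNum {d : ℕ} (P : Set (Eu d)) (i : ℕ) : ℕ :=
  {F | IsFace P F ∧ F.Nonempty ∧ dimF F = i}.ncard

/-- `E` and `E'` are opposite edges of a 2-face. -/
def Opposite {d : ℕ} (P E E' : Set (Eu d)) : Prop :=
  IsFace P E ∧ IsFace P E' ∧ dimF E = 1 ∧ dimF E' = 1 ∧ Disjoint E E' ∧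
    ∃ F, IsFace P F ∧ dimF F = 2 ∧ E ⊆ F ∧ E' ⊆ F

/-- Parallel edges: the equivalence relation generated by opposite edges of 2-faces. -/
def Parallel {d : ℕ} (P : Set (Eu d)) : Set (Eu d) → Set (Eu d) → Prop :=
  Relation.EqvGen (Opposite P)

/-- Each vertex lies on at most `μ` edges of each parallel class. -/
def MultAtMost {d : ℕ} (P : Set (Eu d)) (μ : ℕ) : Prop :=
  ∀ v E, IsFace P {v} → IsFace P E → dimF E = 1 → v ∈ E →
    {E' | IsFace P E' ∧ dimF E' = 1 ∧ v ∈ E' ∧ Parallel P E E'}.ncard ≤ μ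

end Pool.Agent.CubF620
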