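import Pool.Agent.CubF620.Core
import Pool.Agent.CubF620.Defs

/-!
MP_f620bf_co (helper50).  The face lattice of the cube `[0,1]^k`.
-/

set_option autoImplicit false

open Set

namespace Pool.Agent.CubF620

/-- The vertex sets of the faces of the `k`-cube: the empty set and the products of subsets
of `{0,1}`. -/
def subcubes (k : ℕ) : Set (Set (Fin k → Bool)) :=
  {S | S = ∅ ∨ ∃ A : Fin k → Set Bool, S = Set.univ.pi A}

/-- The real number of a bit. -/
def bit (b : Bool) : ℝ := if b then 1 else 0

/-- The vertex of the cube with given bits. -/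
noncomputable def pt {k : ℕ} (b : Fin k → Bool) : Eu k := WithLp.toLp 2 (fun j => bit (b j))

theorem pt_apply {k : ℕ} (b : Fin k → Bool) (j : Fin k) : pt b j = bit (b j) := rfl

theorem bit_nonneg (b : Bool) : 0 ≤ bit b := by cases b <;> simp [bit]

theorem bit_le_one (b : Bool) : bit b ≤ 1 := by cases b <;> simp [bit]

/-- `b` is a vertex of the smallest face of the cube containing `x`. -/
def Compat {k : ℕ} (x : Eu k) (b : Fin k → Bool) : Prop :=
  ∀ j, (x j = 0 → b j = false) ∧ (x j = 1 → b j = true)

theorem in_face {k : ℕ} {G : Set (Eu k)} (hG : IsFace (stdCube k) G) {x : Eu k} (hx : x ∈ G)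
    {b : Fin k → Bool} (hb : Compat x b) : pt b ∈ G := by
  classical
  have hxc : x ∈ stdCube k := hG.2.subset hx
  have key : ∀ T : Finset (Fin k),
      (WithLp.toLp 2 (fun j => if j ∈ T then bit (b j) else x j) : Eu k) ∈ G := by
    intro T
    induction T using Finset.induction_on with
    | empty =>
      have : (WithLp.toLp 2 (fun j => if j ∈ (∅ : Finset (Fin k)) then bit (b j) else x j) : Eu k)
          = x := by
        ext j; simp
      rw [this]; exact hx
    | insert u T hu ih =>
      set y : Eu k := WithLp.toLp 2 (fun j => if j ∈ T then bit (b j) else x j) with hy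
      by_cases h0 : x u = 0
      · have : (WithLp.toLp 2 (fun j => if j ∈ insert u T then bit (b j) else x j) : Eu k) = y := by
          ext j
          by_cases hj : j = u
          · subst hj
            simp [hy, hu, h0, (hb j).1 h0, bit]
          · simp [hy, hj]
        rw [this]; exact ih
      by_cases h1 : x u = 1
      · have : (WithLp.toLp 2 (fun j => if j ∈ insert u T then bit (b j) else x j) : Eu k) = y := by
          ext j
          by_cases hj : j = u
          · subst hj
            simp [hy, hu, h1, (hb j).2 h1, bit]
          · simp [hy, hj]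
        rw [this]; exact ih
      -- the two end points
      have hx0 : 0 < x u := lt_of_le_of_ne (hxc u).1 (Ne.symm h0)
      have hx1 : x u < 1 := lt_of_le_of_ne (hxc u).2 h1
      let e : Bool → Eu k := fun c =>
        WithLp.toLp 2 (fun j => if j = u then bit c else if j ∈ T then bit (b j) else x j)
      have hec : ∀ c, e c ∈ stdCube k := by
        intro c j
        by_cases hj : j = u
        · simp [e, hj, bit_nonneg, bit_le_one]
        · by_cases hjT : j ∈ T
          · simp [e, hj, hjT, bit_nonneg, bit_le_one]
          · simp [e, hj, hjT, hxc j]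
      have hseg : y ∈ openSegment ℝ (e false) (e true) := by
        refine ⟨1 - x u, x u, by linarith, hx0, by ring, ?_⟩
        ext j
        by_cases hj : j = u
        · subst hj
          simp [e, hy, hu, bit]
        · by_cases hjT : j ∈ T
          · simp [e, hy, hj, hjT]; ring
          · simp [e, hy, hj, hjT]; ring
      have h2 : e false ∈ G := hG.2.left_mem_of_mem_openSegment (hec _) (hec _) ih hseg
      have h3 : e true ∈ G := hG.2.right_mem_of_mem_openSegment (hec _) (hec _) ih hseg
      have h4 : (WithLp.toLp 2 (fun j => if j ∈ insert u T then bit (b j) else x j) : Eu k)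
          = e (b u) := by
        ext j
        by_cases hj : j = u
        · subst hj; simp [e]
        · simp [e, hj]
      rw [h4]
      cases b u
      · exact h2
      · exact h3
  have h := key Finset.univ
  simpa [pt] using h

theorem in_hull {k : ℕ} {G : Set (Eu k)} (hG : Convex ℝ G) {x : Eu k} (hx : x ∈ stdCube k)
    (h : ∀ b, Compat x b → pt b ∈ G) : x ∈ G := by
  classical
  have key : ∀ T : Finset (Fin k), ∀ b : Fin k → Bool, Compat x b →
      (WithLp.toLp 2 (fun j => if j ∈ T then x j else bit (b j)) : Eu k) ∈ G := by
    intro T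
    induction T using Finset.induction_on with
    | empty =>
      intro b hb
      have : (WithLp.toLp 2 (fun j => if j ∈ (∅ : Finset (Fin k)) then x j else bit (b j)) : Eu k)
          = pt b := by
        ext j; simp [pt]
      rw [this]; exact h b hb
    | insert u T hu ih =>
      intro b hb
      by_cases h01 : x u = 0 ∨ x u = 1
      · have : (WithLp.toLp 2 (fun j => if j ∈ insert u T then x j else bit (b j)) : Eu k)
            = WithLp.toLp 2 (fun j => if j ∈ T then x j else bit (b j)) := by
          ext j
          by_cases hj : j = u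
          · subst hj
            rcases h01 with h0 | h1
            · simp [hu, h0, (hb j).1 h0, bit]
            · simp [hu, h1, (hb j).2 h1, bit]
          · simp [hj]
        rw [this]; exact ih b hb
      · have h0 : x u ≠ 0 := fun h' => h01 (Or.inl h')
        have h1 : x u ≠ 1 := fun h' => h01 (Or.inr h')
        have hcomp : ∀ c : Bool, Compat x (Function.update b u c) := by
          intro c j
          by_cases hj : j = u
          · subst hj
            exact ⟨fun h' => (h0 h').elim, fun h' => (h1 h').elim⟩
          · simp only [Function.update_of_ne hj]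
            exact hb j
        have e0 := ih _ (hcomp false)
        have e1 := ih _ (hcomp true)
        have e2 := hG e0 e1 (show 0 ≤ 1 - x u by linarith [(hx u).2]) (hx u).1 (by ring)
        have : (WithLp.toLp 2 (fun j => if j ∈ insert u T then x j else bit (b j)) : Eu k)
            = (1 - x u) • (WithLp.toLp 2 (fun j => if j ∈ T then x j else
                bit (Function.update b u false j)) : Eu k)
              + x u • (WithLp.toLp 2 (fun j => if j ∈ T then x j else
                bit (Function.update b u true j)) : Eu k) := by
          ext j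
          by_cases hj : j = u
          · subst hj
            simp [hu, bit]
          · by_cases hjT : j ∈ T
            · simp [hj, hjT]; ring
            · simp [hj, hjT]; ring
        rw [this]; exact e2
  by_contra hne
  -- a compatible vertex exists
  let b : Fin k → Bool := fun j => decide (x j = 1)
  have hb : Compat x b := by
    intro j
    refine ⟨fun h0 => ?_, fun h1 => ?_⟩
    · simp [b, h0]
    · simp [b, h1]
  apply hne
  have h2 := key Finset.univ b hb
  have : (WithLp.toLp 2 (fun j => if j ∈ (Finset.univ : Finset (Fin k)) then x j else bit (b j)) :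
      Eu k) = x := by
    ext j; simp
  rwa [this] at h2

/-- The vertices of a face of the cube, as `{0,1}`-vectors. -/
def toS {k : ℕ} (G : Set (Eu k)) : Set (Fin k → Bool) := {b | pt b ∈ G}

theorem toS_mem {k : ℕ} {G : Set (Eu k)} (hG : IsFace (stdCube k) G) : toS G ∈ subcubes k := by
  classical
  by_cases hne : toS G = ∅
  · exact Or.inl hne
  right
  obtain ⟨b0, hb0⟩ := Set.nonempty_iff_ne_empty.2 hne
  -- closed under mixing
  have hmix : ∀ b ∈ toS G, ∀ c ∈ toS G, ∀ a : Fin k → Bool, (∀ j, a j = b j ∨ a j = c j) →
      a ∈ toS G := by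
    intro b hb c hc a ha
    have hm := hG.1 hb hc (show (0 : ℝ) ≤ 1 / 2 by norm_num) (show (0 : ℝ) ≤ 1 / 2 by norm_num)
      (by norm_num)
    refine in_face hG hm fun j => ?_
    have e : ((1 / 2 : ℝ) • pt b + (1 / 2 : ℝ) • pt c) j = 1 / 2 * bit (b j) + 1 / 2 * bit (c j) := by
      simp [pt]
    rw [e]
    rcases ha j with h | h <;> rw [h] <;> cases b j <;> cases c j <;> norm_num [bit]
  refine ⟨fun j => {c | ∃ b ∈ toS G, b j = c}, ?_⟩
  ext a
  rw [Set.mem_univ_pi]
  constructor
  · intro ha j
    exact ⟨a, ha, rfl⟩
  · intro ha
    have key : ∀ T : Finset (Fin k), ∃ b ∈ toS G, ∀ j ∈ T, b j = a j := by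
      intro T
      induction T using Finset.induction_on with
      | empty => exact ⟨b0, hb0, by simp⟩
      | insert u T hu ih =>
        obtain ⟨b, hb, hbT⟩ := ih
        obtain ⟨c, hc, hcu⟩ := ha u
        refine ⟨Function.update b u (a u), hmix b hb c hc _ fun j => ?_, fun j hj => ?_⟩
        · by_cases hj : j = u
          · subst hj; right; rw [Function.update_self, hcu]
          · left; rw [Function.update_of_ne hj]
        · by_cases hju : j = u
          · subst hju; rw [Function.update_self]
          · rw [Function.update_of_ne hju]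
            exact hbT j (Finset.mem_of_mem_insert_of_ne hj hju)
    obtain ⟨b, hb, hbu⟩ := key Finset.univ
    have : a = b := funext fun j => (hbu j (Finset.mem_univ j)).symm
    rw [this]; exact hb

theorem toS_le {k : ℕ} {G H : Set (Eu k)} (hG : IsFace (stdCube k) G) (hH : IsFace (stdCube k) H) :
    toS G ⊆ toS H ↔ G ⊆ H := by
  constructor
  · intro h x hx
    exact in_hull hH.1 (hG.2.subset hx) fun b hb => h (in_face hG hx hb)
  · intro h b hb
    exact h hb

theorem toS_surj {k : ℕ} (S : Set (Fin k → Bool)) (hS : S ∈ subcubes k) :
    ∃ G, IsFace (stdCube k) G ∧ toS G = S := by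
  rcases hS with rfl | ⟨A, rfl⟩
  · exact ⟨∅, ⟨convex_empty, ⟨empty_subset _, fun _ _ _ _ _ h => h.elim⟩⟩, rfl⟩
  refine ⟨{x | x ∈ stdCube k ∧ ∀ j, (x j ≠ 1 → false ∈ A j) ∧ (x j ≠ 0 → true ∈ A j)},
    ⟨?_, ?_, ?_⟩, ?_⟩
  · -- convex
    intro x hx y hy a b ha hb hab
    have e : ∀ j, (a • x + b • y) j = a * x j + b * y j := fun j => by simp
    refine ⟨fun j => ?_, fun j => ⟨fun h => ?_, fun h => ?_⟩⟩
    · rw [e]
      have h1 := hx.1 j
      have h2 := hy.1 j
      constructor
      · have := mul_nonneg ha h1.1
        have := mul_nonneg hb h2.1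
        linarith
      · have := mul_le_mul_of_nonneg_left h1.2 ha
        have := mul_le_mul_of_nonneg_left h2.2 hb
        linarith
    · rw [e] at h
      by_cases h1 : x j = 1
      · by_cases h2 : y j = 1
        · exact absurd (by rw [h1, h2]; linarith) h
        · exact (hy.2 j).1 h2
      · exact (hx.2 j).1 h1
    · rw [e] at h
      by_cases h1 : x j = 0
      · by_cases h2 : y j = 0
        · exact absurd (by rw [h1, h2]; ring) h
        · exact (hy.2 j).2 h2
      · exact (hx.2 j).2 h1
  · -- subset
    exact fun x hx => hx.1
  · -- extreme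
    rintro x hx y hy z hz ⟨a, b, ha, hb, hab, rfl⟩
    have e : ∀ j, (a • x + b • y) j = a * x j + b * y j := fun j => by simp
    refine ⟨hx, fun j => ⟨fun h => ?_, fun h => ?_⟩⟩
    · apply (hz.2 j).1
      rw [e]
      have h1 : x j < 1 := lt_of_le_of_ne (hx j).2 h
      have h2 := mul_lt_mul_of_pos_left h1 ha
      have h3 := mul_le_mul_of_nonneg_left (hy j).2 hb.le
      exact ne_of_lt (by linarith)
    · apply (hz.2 j).2
      rw [e]
      have h1 : 0 < x j := lt_of_le_of_ne (hx j).1 (Ne.symm h)
      have h2 := mul_pos ha h1
      have h3 := mul_nonneg hb.le (hy j).1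
      exact ne_of_gt (by linarith)
  · -- vertices
    ext b
    rw [Set.mem_univ_pi]
    constructor
    · intro hb j
      have h := hb.2 j
      rw [pt_apply] at h
      cases hbj : b j
      · rw [hbj] at h; exact h.1 (by simp [bit])
      · rw [hbj] at h; exact h.2 (by simp [bit])
    · intro hb
      refine ⟨fun j => ?_, fun j => ?_⟩
      · rw [pt_apply]; exact ⟨bit_nonneg _, bit_le_one _⟩
      · rw [pt_apply]
        have h := hb j
        cases hbj : b j
        · rw [hbj] at h
          exact ⟨fun _ => h, fun h' => absurd (by simp [bit]) h'⟩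
        · rw [hbj] at h
          exact ⟨fun h' => absurd (by simp [bit]) h', fun _ => h⟩

/-- The face lattice of the cube is the poset of subcubes. -/
noncomputable def cubeIso (k : ℕ) :
    {G : Set (Eu k) // IsFace (stdCube k) G} ≃o {S : Set (Fin k → Bool) // S ∈ subcubes k} :=
  RelIso.ofSurjective
    (OrderEmbedding.ofMapLEIff (fun G => ⟨toS G.1, toS_mem G.2⟩)
      (fun G H => toS_le G.2 H.2))
    (fun S => by
      obtain ⟨G, hG, hGS⟩ := toS_surj S.1 S.2
      exact ⟨⟨G, hG⟩, Subtype.ext hGS⟩)

end Pool.Agent.CubF620
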