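import Pool.Agent.CubF620.Main

/-!
MP_f620bf_co (helper50).  Parallel classes of edges and potentials on proper faces.
-/

set_option autoImplicit false

open Set

namespace Pool.Agent.CubF620

variable {d : ℕ} {P F G : Set (Eu d)}

theorem Opposite.symm {E E' : Set (Eu d)} (h : Opposite P E E') : Opposite P E' E := by
  obtain ⟨h1, h2, h3, h4, h5, F, h6, h7, h8, h9⟩ := h
  exact ⟨h2, h1, h4, h3, h5.symm, F, h6, h7, h9, h8⟩

theorem nonempty_of_dimF {i : ℕ} (h : dimF F = i) (hi : 0 < i) : F.Nonempty := by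
  rw [Set.nonempty_iff_ne_empty]
  rintro rfl
  unfold dimF at h
  rw [vectorSpan_empty] at h
  simp at h
  omega

/-- Proper nonempty faces. -/
def Proper (P F : Set (Eu d)) : Prop := IsFace P F ∧ F.Nonempty ∧ F ≠ P

theorem Proper.sub (h : Proper P F) (hG : IsFace P G) (hne : G.Nonempty) (hGF : G ⊆ F) :
    Proper P G := by
  refine ⟨hG, hne, ?_⟩
  intro h'
  exact h.2.2 (Set.Subset.antisymm h.1.2.subset (h' ▸ hGF))

section

variable {k : ℕ}

/-- The edge of `F` at `b` in direction `t`. -/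
def edge (Φ : {G : Set (Eu d) // IsFace F G} ≃o {S : Set (Fin k → Bool) // S ∈ subcubes k})
    (b : Fin k → Bool) (t : Fin k) : Set (Eu d) :=
  (Φ.symm ⟨{b, flip b t}, subcubes_edge b t⟩).1

variable {Φ : {G : Set (Eu d) // IsFace F G} ≃o {S : Set (Fin k → Bool) // S ∈ subcubes k}}
  {β : (Fin k → Bool) → Eu d}

theorem edge_face (b : Fin k → Bool) (t : Fin k) : IsFace F (edge Φ b t) :=
  (Φ.symm ⟨{b, flip b t}, subcubes_edge b t⟩).2

theorem iso_edge (b : Fin k → Bool) (t : Fin k) :
    (Φ ⟨edge Φ b t, edge_face b t⟩).1 = {b, flip b t} := by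
  have : Φ ⟨edge Φ b t, edge_face b t⟩ = ⟨{b, flip b t}, subcubes_edge b t⟩ :=
    Φ.apply_symm_apply _
  rw [this]

theorem mem_edge (hβ : Param P F k β Φ) (b c : Fin k → Bool) (t : Fin k) :
    β c ∈ edge Φ b t ↔ c = b ∨ c = flip b t := by
  rw [hβ.face _ (edge_face b t), iso_edge]
  simp

theorem edge_nonempty (hβ : Param P F k β Φ) (b : Fin k → Bool) (t : Fin k) :
    (edge Φ b t).Nonempty := ⟨β b, (mem_edge hβ b b t).2 (Or.inl rfl)⟩

theorem dim_edge (hC : Cubical P) (hF : IsFace P F) (hFP : F ≠ P) (hβ : Param P F k β Φ)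
    (b : Fin k → Bool) (t : Fin k) : dimF (edge Φ b t) = 1 := by
  have h3 := ncard_iso hC hF hFP hβ _ (edge_face b t) (edge_nonempty hβ b t)
  rw [iso_edge, Set.ncard_pair (flip_ne_self b t).symm] at h3
  have h4 : 2 ^ 1 = 2 ^ dimF (edge Φ b t) := by simpa using h3
  exact (Nat.pow_right_injective (le_refl 2) h4).symm

theorem edge_flip (b : Fin k → Bool) (t : Fin k) : edge Φ (flip b t) t = edge Φ b t := by
  have h : ({flip b t, flip (flip b t) t} : Set (Fin k → Bool)) = {b, flip b t} := by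
    rw [flip_flip, Set.pair_comm]
  unfold edge
  congr 2
  exact Subtype.ext h

theorem subcubes_square {k : ℕ} (b : Fin k → Bool) (t u : Fin k) :
    ({c | ∀ j, j ≠ t → j ≠ u → c j = b j} : Set (Fin k → Bool)) ∈ subcubes k := by
  right
  refine ⟨fun j => if j = t ∨ j = u then Set.univ else {b j}, ?_⟩
  ext c
  rw [Set.mem_univ_pi]
  constructor
  · intro h j
    by_cases h1 : j = t ∨ j = u
    · simp [h1]
    · have h2 : j ≠ t := fun h' => h1 (Or.inl h')
      have h3 : j ≠ u := fun h' => h1 (Or.inr h')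
      simp only [h2, h3, or_self, if_false]
      exact h j h2 h3
  · intro h j h2 h3
    have := h j
    simpa [h2, h3] using this

theorem square_eq {k : ℕ} (b : Fin k → Bool) {t u : Fin k} (htu : t ≠ u) :
    ({c | ∀ j, j ≠ t → j ≠ u → c j = b j} : Set (Fin k → Bool)) =
      {b, flip b t} ∪ {flip b u, flip (flip b u) t} := by
  ext c
  simp only [Set.mem_ofPred_eq, Set.mem_union, Set.mem_insert_iff, Set.mem_singleton_iff]
  constructor
  · intro h
    have key : ∀ e : Fin k → Bool, (∀ j, j ≠ t → j ≠ u → e j = b j) → c t = e t → c u = e u →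
        c = e := by
      intro e he h1 h2
      funext j
      by_cases hjt : j = t
      · subst hjt; exact h1
      by_cases hju : j = u
      · subst hju; exact h2
      rw [h j hjt hju, he j hjt hju]
    by_cases h1 : c t = b t
    · by_cases h2 : c u = b u
      · left; left; exact key b (fun _ _ _ => rfl) h1 h2
      · right; left
        refine key _ (fun j _ hju => flip_ne _ hju) ?_ ?_
        · rw [flip_ne _ htu]; exact h1
        · rw [flip_same]; revert h2; cases c u <;> cases b u <;> simp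
    · by_cases h2 : c u = b u
      · left; right
        refine key _ (fun j hjt _ => flip_ne _ hjt) ?_ ?_
        · rw [flip_same]; revert h1; cases c t <;> cases b t <;> simp
        · rw [flip_ne _ htu.symm]; exact h2
      · right; right
        refine key _ (fun j hjt hju => by rw [flip_ne _ hjt, flip_ne _ hju]) ?_ ?_
        · rw [flip_same, flip_ne _ htu]; revert h1; cases c t <;> cases b t <;> simp
        · rw [flip_ne _ htu.symm, flip_same]; revert h2; cases c u <;> cases b u <;> simp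
  · rintro ((rfl | rfl) | (rfl | rfl)) j h1 h2
    · rfl
    · exact flip_ne _ h1
    · exact flip_ne _ h2
    · rw [flip_ne _ h1, flip_ne _ h2]

theorem square_disjoint {k : ℕ} (b : Fin k → Bool) {t u : Fin k} (htu : t ≠ u) :
    Disjoint ({b, flip b t} : Set (Fin k → Bool)) {flip b u, flip (flip b u) t} := by
  rw [Set.disjoint_left]
  intro c hc hc'
  simp only [Set.mem_insert_iff, Set.mem_singleton_iff] at hc hc'
  have h1 : c u = b u := by
    rcases hc with rfl | rfl
    · rfl
    · exact flip_ne _ htu.symm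
  have h2 : c u = !b u := by
    rcases hc' with rfl | rfl
    · exact flip_same _ _
    · rw [flip_ne _ htu.symm, flip_same]
  rw [h1] at h2
  cases hb : b u <;> simp [hb] at h2

/-- The 2-face of `F` at `b` in the directions `t`, `u`. -/
theorem exists_square (hC : Cubical P) (hF : IsFace P F) (hFP : F ≠ P) (hβ : Param P F k β Φ)
    (b : Fin k → Bool) {t u : Fin k} (htu : t ≠ u) :
    ∃ Q, IsFace P Q ∧ dimF Q = 2 ∧ Q ⊆ F ∧
      ∀ c s, (∀ j, j ≠ t → j ≠ u → c j = b j) → (s = t ∨ s = u) → edge Φ c s ⊆ Q := by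
  set S : Set (Fin k → Bool) := {c | ∀ j, j ≠ t → j ≠ u → c j = b j} with hS
  have hSs : S ∈ subcubes k := subcubes_square b t u
  set Q := Φ.symm ⟨S, hSs⟩ with hQ
  have hQF : IsFace F Q.1 := Q.2
  have hΦ : Φ ⟨Q.1, hQF⟩ = ⟨S, hSs⟩ := Φ.apply_symm_apply _
  have hΦQ : (Φ ⟨Q.1, hQF⟩).1 = S := by rw [hΦ]
  have hne : Q.1.Nonempty := ⟨β b, (hβ.face _ hQF b).2 (by rw [hΦQ]; exact fun _ _ _ => rfl)⟩
  refine ⟨Q.1, hF.trans hQF, ?_, hQF.2.subset, ?_⟩
  · have h3 := ncard_iso hC hF hFP hβ _ hQF hne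
    rw [hΦQ, hS, square_eq b htu, Set.ncard_union_eq (square_disjoint b htu) (Set.toFinite _)
      (Set.toFinite _), Set.ncard_pair (flip_ne_self b t).symm,
      Set.ncard_pair (flip_ne_self _ t).symm] at h3
    have h4 : 2 ^ 2 = 2 ^ dimF Q.1 := by simpa using h3
    exact (Nat.pow_right_injective (le_refl 2) h4).symm
  · intro c s hc hs
    have h1 : Φ ⟨edge Φ c s, edge_face c s⟩ ≤ Φ ⟨Q.1, hQF⟩ := by
      show (Φ ⟨edge Φ c s, edge_face c s⟩).1 ⊆ (Φ ⟨Q.1, hQF⟩).1
      rw [iso_edge, hΦQ]
      rintro e (rfl | rfl)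
      · exact hc
      · intro j h1 h2
        have h3 : j ≠ s := by rcases hs with rfl | rfl <;> assumption
        rw [flip_ne _ h3]; exact hc j h1 h2
    exact Φ.le_iff_le.1 h1

theorem edge_opposite (hC : Cubical P) (hF : IsFace P F) (hFP : F ≠ P) (hβ : Param P F k β Φ)
    (b : Fin k → Bool) {t u : Fin k} (htu : t ≠ u) :
    Opposite P (edge Φ b t) (edge Φ (flip b u) t) := by
  obtain ⟨Q, hQ, hQ2, hQF, hQe⟩ := exists_square hC hF hFP hβ b htu
  refine ⟨hF.trans (edge_face b t), hF.trans (edge_face _ t), dim_edge hC hF hFP hβ _ _,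
    dim_edge hC hF hFP hβ _ _, ?_, Q, hQ, hQ2, hQe b t (fun _ _ _ => rfl) (Or.inl rfl),
    hQe _ t (fun j _ hj => flip_ne _ hj) (Or.inl rfl)⟩
  -- disjointness
  rw [Set.disjoint_iff_inter_eq_empty]
  have hI : IsFace F (edge Φ b t ∩ edge Φ (flip b u) t) := (edge_face b t).inter (edge_face _ t)
  rw [← iso_empty Φ _ hI]
  rw [Set.eq_empty_iff_forall_notMem]
  intro c hc
  have h1 := (hβ.face _ hI c).2 hc
  have h2 := (hβ.face _ (edge_face b t) c).1 h1.1
  have h3 := (hβ.face _ (edge_face _ t) c).1 h1.2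
  rw [iso_edge] at h2 h3
  exact Set.disjoint_left.1 (square_disjoint b htu) h2 h3

theorem edge_parallel (hC : Cubical P) (hF : IsFace P F) (hFP : F ≠ P) (hβ : Param P F k β Φ)
    (t : Fin k) : ∀ (T : Finset (Fin k)) (b c : Fin k → Bool), (∀ u, u ∉ T → b u = c u) →
      Parallel P (edge Φ b t) (edge Φ c t) := by
  classical
  intro T
  induction T using Finset.induction_on with
  | empty =>
    intro b c h
    have : b = c := funext fun u => h u (by simp)
    rw [this]; exact Relation.EqvGen.refl _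
  | insert u T hu ih =>
    intro b c h
    by_cases hbc : b u = c u
    · exact ih b c (fun v hv => by
        by_cases hvu : v = u
        · subst hvu; exact hbc
        · exact h v (by simp [hvu, hv]))
    · have h6 := ih (flip b u) c (fun v hv => by
        by_cases hvu : v = u
        · subst hvu
          rw [flip_same]
          cases hb : b v <;> cases hc : c v <;> simp_all
        · rw [flip_ne _ hvu]; exact h v (by simp [hvu, hv]))
      by_cases htu : t = u
      · subst htu
        rw [edge_flip] at h6; exact h6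
      · exact Relation.EqvGen.trans _ _ _
          (Relation.EqvGen.rel _ _ (edge_opposite hC hF hFP hβ b htu)) h6

/-- Every edge of `P` in `F` with two of its vertices is of the form `edge Φ b t`. -/
theorem edge_of (hC : Cubical P) (hF : IsFace P F) (hFP : F ≠ P) (hβ : Param P F k β Φ)
    {E : Set (Eu d)} (hE : IsFace P E) (hE1 : dimF E = 1) (hEF : E ⊆ F) {b c : Fin k → Bool}
    (hb : β b ∈ E) (hc : β c ∈ E) (hbc : b ≠ c) : ∃ t, c = flip b t ∧ E = edge Φ b t := by
  have hEF' : IsFace F E := hF.mono hE hEF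
  have h1 := ncard_iso hC hF hFP hβ E hEF' ⟨_, hb⟩
  rw [hE1, pow_one] at h1
  have hb' := (hβ.face _ hEF' b).1 hb
  have hc' := (hβ.face _ hEF' c).1 hc
  have hex : ∃ t, b t ≠ c t := by
    by_contra h
    exact hbc (funext fun t => by
      by_contra h'
      exact h ⟨t, h'⟩)
  obtain ⟨t, ht⟩ := hex
  have hft : flip b t ∈ (Φ ⟨E, hEF'⟩).1 := by
    rcases (Φ ⟨E, hEF'⟩).2 with h | ⟨A, hA⟩
    · rw [h] at hb'; exact hb'.elim
    · rw [hA, Set.mem_univ_pi] at hb' hc' ⊢
      intro j
      by_cases hj : j = t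
      · subst hj
        have : flip b j j = c j := by
          rw [flip_same]
          revert ht
          cases b j <;> cases c j <;> simp
        rw [this]; exact hc' j
      · rw [flip_ne _ hj]; exact hb' j
  have hsub : ({b, flip b t} : Set (Fin k → Bool)) ⊆ (Φ ⟨E, hEF'⟩).1 := by
    rintro e (rfl | rfl)
    · exact hb'
    · exact hft
  have heq : ({b, flip b t} : Set (Fin k → Bool)) = (Φ ⟨E, hEF'⟩).1 := by
    refine Set.eq_of_subset_of_ncard_le hsub ?_ (Set.toFinite _)
    rw [h1, Set.ncard_pair (flip_ne_self b t).symm]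
  refine ⟨t, ?_, ?_⟩
  · rw [← heq] at hc'
    rcases hc' with h | h
    · exact (hbc h.symm).elim
    · exact h
  · have h2 : Φ ⟨E, hEF'⟩ = ⟨{b, flip b t}, subcubes_edge b t⟩ := Subtype.ext heq.symm
    have h3 : Φ.symm (Φ ⟨E, hEF'⟩) = Φ.symm ⟨{b, flip b t}, subcubes_edge b t⟩ := by rw [h2]
    rw [Φ.symm_apply_apply] at h3
    exact congrArg Subtype.val h3

end

/-- The indicator of a set of edges. -/
noncomputable def zeta (Z : Set (Set (Eu d))) (E : Set (Eu d)) : ZMod 2 :=
  open Classical in if E ∈ Z then 1 else 0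

/-- `h` is a potential on `F` for the indicator of `Z`. -/
def Pot (P : Set (Eu d)) (Z : Set (Set (Eu d))) (F : Set (Eu d)) (h : Eu d → ZMod 2) : Prop :=
  ∀ E v w, IsFace P E → dimF E = 1 → E ⊆ F → IsFace P {v} → IsFace P {w} → v ∈ E → w ∈ E →
    v ≠ w → h w - h v = zeta Z E

theorem Pot.mono {Z : Set (Set (Eu d))} {h : Eu d → ZMod 2} (hp : Pot P Z F h) (hGF : G ⊆ F) :
    Pot P Z G h := fun E v w h1 h2 h3 => hp E v w h1 h2 (h3.trans hGF)

theorem zeta_parallel {Z : Set (Set (Eu d))} (hZ : ∀ E E', Opposite P E E' → E ∈ Z → E' ∈ Z)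
    {E E' : Set (Eu d)} (h : Parallel P E E') : zeta Z E = zeta Z E' := by
  induction h with
  | rel x y hxy =>
    have : x ∈ Z ↔ y ∈ Z := ⟨hZ x y hxy, hZ y x hxy.symm⟩
    unfold zeta
    by_cases hx : x ∈ Z
    · rw [if_pos hx, if_pos (this.1 hx)]
    · rw [if_neg hx, if_neg (fun h => hx (this.2 h))]
  | refl x => rfl
  | symm x y _ ih => exact ih.symm
  | trans x y z _ _ ih1 ih2 => exact ih1.trans ih2

theorem exists_pot (hC : Cubical P) {Z : Set (Set (Eu d))}
    (hZ : ∀ E E', Opposite P E E' → E ∈ Z → E' ∈ Z) (hF : Proper P F) : ∃ h, Pot P Z F h := by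
  classical
  obtain ⟨hF1, hne, hFP⟩ := hF
  obtain ⟨Φ⟩ := (hC F hF1 hne hFP).iso
  obtain ⟨β, hβ⟩ := exists_param hC hF1 hFP Φ
  let ζ : Fin (dimF F) → ZMod 2 := fun t => zeta Z (edge Φ (fun _ => false) t)
  let f : (Fin (dimF F) → Bool) → ZMod 2 := fun b => ∑ t, if b t then ζ t else 0
  refine ⟨Function.extend β f 0, ?_⟩
  intro E v w hE hE1 hEF hv hw hvE hwE hvw
  obtain ⟨b, rfl⟩ := hβ.surj v (hEF hvE) hv
  obtain ⟨c, rfl⟩ := hβ.surj w (hEF hwE) hw
  obtain ⟨t, rfl, rfl⟩ := edge_of hC hF1 hFP hβ hE hE1 hEF hvE hwE (fun h => hvw (by rw [h]))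
  rw [hβ.inj.extend_apply, hβ.inj.extend_apply]
  have h1 : zeta Z (edge Φ b t) = ζ t :=
    zeta_parallel hZ (edge_parallel hC hF1 hFP hβ t Finset.univ b (fun _ => false) (by simp))
  rw [h1]
  show (∑ s, if flip b t s then ζ s else 0) - (∑ s, if b s then ζ s else 0) = ζ t
  rw [← Finset.sum_sub_distrib, Finset.sum_eq_single t]
  · rw [flip_same]
    cases b t
    · simp
    · simp
  · intro s _ hs
    rw [flip_ne _ hs]; simp
  · intro h; exact (h (Finset.mem_univ t)).elim

theorem pot_unique (hC : Cubical P) {Z : Set (Set (Eu d))} (hF : Proper P F)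
    {h h' : Eu d → ZMod 2} (hp : Pot P Z F h) (hp' : Pot P Z F h') {v w : Eu d}
    (hv : IsFace P {v}) (hw : IsFace P {w}) (hvF : v ∈ F) (hwF : w ∈ F) :
    h w - h v = h' w - h' v := by
  classical
  obtain ⟨hF1, hne, hFP⟩ := hF
  obtain ⟨Φ⟩ := (hC F hF1 hne hFP).iso
  obtain ⟨β, hβ⟩ := exists_param hC hF1 hFP Φ
  have key : ∀ (T : Finset (Fin (dimF F))) (b c : Fin (dimF F) → Bool),
      (∀ u, u ∉ T → b u = c u) → h (β b) - h (β c) = h' (β b) - h' (β c) := by
    intro T
    induction T using Finset.induction_on with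
    | empty =>
      intro b c hbc
      have : b = c := funext fun u => hbc u (by simp)
      rw [this]; simp
    | insert u T hu ih =>
      intro b c hh
      by_cases hbc : b u = c u
      · exact ih b c (fun v hv => by
          by_cases hvu : v = u
          · subst hvu; exact hbc
          · exact hh v (by simp [hvu, hv]))
      · have h6 := ih (flip b u) c (fun v hv => by
          by_cases hvu : v = u
          · subst hvu
            rw [flip_same]
            cases hb : b v <;> cases hc : c v <;> simp_all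
          · rw [flip_ne _ hvu]; exact hh v (by simp [hvu, hv]))
        have hE := hF1.trans (edge_face (Φ := Φ) b u)
        have hne' : β b ≠ β (flip b u) := fun h' => flip_ne_self b u (hβ.inj h').symm
        have e1 := hp _ (β b) (β (flip b u)) hE (dim_edge hC hF1 hFP hβ b u)
          (edge_face (Φ := Φ) b u).2.subset
          (hβ.vert _) (hβ.vert _) ((mem_edge hβ b b u).2 (Or.inl rfl))
          ((mem_edge hβ b _ u).2 (Or.inr rfl)) hne'
        have e2 := hp' _ (β b) (β (flip b u)) hE (dim_edge hC hF1 hFP hβ b u)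
          (edge_face (Φ := Φ) b u).2.subset
          (hβ.vert _) (hβ.vert _) ((mem_edge hβ b b u).2 (Or.inl rfl))
          ((mem_edge hβ b _ u).2 (Or.inr rfl)) hne'
        linear_combination h6 - e1 + e2
  obtain ⟨b, rfl⟩ := hβ.surj v hvF hv
  obtain ⟨c, rfl⟩ := hβ.surj w hwF hw
  exact key Finset.univ c b (by simp)

end Pool.Agent.CubF620
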