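import Pool.Agent.CubF620.Cube

/-!
MP_f620bf_co (helper50).  Cubical polytopes: definitions and the structure of proper faces.
-/

set_option autoImplicit false

open Set

namespace Pool.Agent.CubF620

theorem IsCube.iso {d : ℕ} {F : Set (Eu d)} {k : ℕ} (h : IsCube F k) :
    Nonempty ({G : Set (Eu d) // IsFace F G} ≃o {S : Set (Fin k → Bool) // S ∈ subcubes k}) := by
  obtain ⟨Ψ⟩ := h
  exact ⟨Ψ.trans (cubeIso k)⟩

/-- Adjacent vertices: the two ends of a 1-dimensional face. -/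
def Adj {d : ℕ} (P : Set (Eu d)) (v w : Eu d) : Prop :=
  v ≠ w ∧ IsFace P {v} ∧ IsFace P {w} ∧ ∃ E, IsFace P E ∧ dimF E = 1 ∧ v ∈ E ∧ w ∈ E

variable {d : ℕ} {P F G : Set (Eu d)}

theorem IsFace.trans (h1 : IsFace P F) (h2 : IsFace F G) : IsFace P G :=
  ⟨h2.1, h1.2.trans h2.2⟩

theorem IsFace.mono (h1 : IsFace P F) (h2 : IsFace P G) (h : G ⊆ F) : IsFace F G :=
  ⟨h2.1, h2.2.mono h1.2.subset h⟩

theorem IsFace.inter (h1 : IsFace P F) (h2 : IsFace P G) : IsFace P (F ∩ G) :=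
  ⟨h1.1.inter h2.1, h1.2.inter h2.2⟩

theorem isFace_self (h : Convex ℝ F) : IsFace F F := ⟨h, IsExtreme.refl ℝ F⟩

theorem isFace_empty (F : Set (Eu d)) : IsFace F ∅ :=
  ⟨convex_empty, ⟨empty_subset F, fun _ _ _ _ _ h => h.elim⟩⟩

/-- The vertices of `P` in `F`. -/
def vset (P F : Set (Eu d)) : Set (Eu d) := {x | x ∈ F ∧ IsFace P {x}}

theorem vertices_finite (hP : IsPolytope P) : {x | IsFace P {x}}.Finite := by
  obtain ⟨⟨s, rfl⟩, _⟩ := hP
  refine s.finite_toSet.subset fun x hx => ?_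
  exact extremePoints_convexHull_subset (isExtreme_singleton.1 hx.2)

theorem dimF_polytope (hP : IsPolytope P) : dimF P = d := by
  obtain ⟨⟨s, hs⟩, hi⟩ := hP
  have hc : Convex ℝ P := by rw [hs]; exact convex_convexHull ℝ _
  have h1 : affineSpan ℝ P = ⊤ :=
    affineSpan_eq_top_of_nonempty_interior (by rwa [hc.convexHull_eq])
  unfold dimF
  rw [AffineSubspace.vectorSpan_eq_top_of_affineSpan_eq_top ℝ _ _ h1, finrank_top,
    finrank_euclideanSpace_fin]

theorem subsingleton_of_dimF (h : dimF F = 0) : F.Subsingleton := by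
  unfold dimF at h
  rw [Submodule.finrank_eq_zero] at h
  exact (vectorSpan_eq_bot_iff_subsingleton ℝ).1 h

theorem dimF_singleton (x : Eu d) : dimF ({x} : Set (Eu d)) = 0 := by
  unfold dimF
  rw [vectorSpan_singleton]
  simp

theorem subcubes_empty (k : ℕ) : (∅ : Set (Fin k → Bool)) ∈ subcubes k := Or.inl rfl

theorem subcubes_univ (k : ℕ) : (Set.univ : Set (Fin k → Bool)) ∈ subcubes k :=
  Or.inr ⟨fun _ => Set.univ, (Set.pi_univ _).symm⟩

theorem subcubes_singleton {k : ℕ} (b : Fin k → Bool) : ({b} : Set (Fin k → Bool)) ∈ subcubes k :=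
  Or.inr ⟨fun j => {b j}, by rw [Set.univ_pi_singleton]⟩

theorem subcubes_edge {k : ℕ} (b : Fin k → Bool) (t : Fin k) :
    ({b, flip b t} : Set (Fin k → Bool)) ∈ subcubes k := by
  right
  refine ⟨fun j => if j = t then Set.univ else {b j}, ?_⟩
  ext c
  simp only [Set.mem_insert_iff, Set.mem_singleton_iff, Set.mem_pi, Set.mem_univ, true_implies]
  constructor
  · rintro (rfl | rfl) j
    · by_cases h : j = t <;> simp [h]
    · by_cases h : j = t
      · simp [h]
      · simp [h, flip_ne _ h]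
  · intro h
    have h1 : ∀ j, j ≠ t → c j = b j := fun j hj => by
      have := h j
      simpa [hj] using this
    by_cases hc : c t = b t
    · left
      funext j
      by_cases hj : j = t
      · rw [hj, hc]
      · exact h1 j hj
    · right
      funext j
      by_cases hj : j = t
      · subst hj
        rw [flip_same]
        cases hb : b j <;> cases hc' : c j <;> simp_all
      · rw [flip_ne _ hj]; exact h1 j hj

theorem subcubes_half {k : ℕ} (t : Fin k) (c : Bool) :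
    ({b | b t = c} : Set (Fin k → Bool)) ∈ subcubes k := by
  right
  refine ⟨fun j => if j = t then {c} else Set.univ, ?_⟩
  ext b
  simp only [Set.mem_ofPred_eq, Set.mem_pi, Set.mem_univ, true_implies]
  constructor
  · intro h j
    by_cases hj : j = t
    · subst hj; simp [h]
    · simp [hj]
  · intro h
    have := h t
    simpa using this

/-- A parametrisation of the vertices of a proper face by `{0,1}`-vectors. -/
structure Param (P F : Set (Eu d)) (k : ℕ) (β : (Fin k → Bool) → Eu d)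
    (Φ : {G : Set (Eu d) // IsFace F G} ≃o {S : Set (Fin k → Bool) // S ∈ subcubes k}) :
    Prop where
  inj : Function.Injective β
  vert : ∀ b, IsFace P {β b}
  mem : ∀ b, β b ∈ F
  surj : ∀ x, x ∈ F → IsFace P {x} → ∃ b, β b = x
  face : ∀ (G : Set (Eu d)) (hG : IsFace F G) (b : Fin k → Bool), β b ∈ G ↔ b ∈ (Φ ⟨G, hG⟩).1

section

variable {k : ℕ}

theorem iso_empty (Φ : {G : Set (Eu d) // IsFace F G} ≃o {S : Set (Fin k → Bool) // S ∈ subcubes k})
    (G : Set (Eu d)) (hG : IsFace F G) : (Φ ⟨G, hG⟩).1 = ∅ ↔ G = ∅ := by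
  constructor
  · intro h
    have h1 : Φ ⟨G, hG⟩ ≤ Φ ⟨∅, isFace_empty F⟩ := by
      show (Φ ⟨G, hG⟩).1 ⊆ _
      rw [h]; exact empty_subset _
    have h2 : (⟨G, hG⟩ : {G : Set (Eu d) // IsFace F G}) ≤ ⟨∅, isFace_empty F⟩ :=
      Φ.le_iff_le.1 h1
    exact subset_empty_iff.1 h2
  · intro h
    subst h
    have h1 : (⟨∅, hG⟩ : {G : Set (Eu d) // IsFace F G}) ≤ Φ.symm ⟨∅, subcubes_empty k⟩ :=
      empty_subset (Φ.symm ⟨∅, subcubes_empty k⟩).1
    have h2 : Φ ⟨∅, hG⟩ ≤ ⟨∅, subcubes_empty k⟩ := by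
      have := Φ.le_iff_le.2 h1
      rwa [Φ.apply_symm_apply] at this
    exact subset_empty_iff.1 h2

theorem iso_symm_nonempty
    (Φ : {G : Set (Eu d) // IsFace F G} ≃o {S : Set (Fin k → Bool) // S ∈ subcubes k})
    (S : Set (Fin k → Bool)) (hS : S ∈ subcubes k) (hne : S.Nonempty) :
    (Φ.symm ⟨S, hS⟩).1.Nonempty := by
  rw [Set.nonempty_iff_ne_empty]
  intro h
  have h1 := (iso_empty Φ _ (Φ.symm ⟨S, hS⟩).2).2 h
  have h2 : Φ ⟨(Φ.symm ⟨S, hS⟩).1, (Φ.symm ⟨S, hS⟩).2⟩ = ⟨S, hS⟩ := Φ.apply_symm_apply _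
  rw [h2] at h1
  exact hne.ne_empty h1

/-- The face over a `{0,1}`-vector is minimal. -/
theorem iso_atom
    (Φ : {G : Set (Eu d) // IsFace F G} ≃o {S : Set (Fin k → Bool) // S ∈ subcubes k})
    (b : Fin k → Bool) (G : Set (Eu d)) (hG : IsFace F G) (hne : G.Nonempty)
    (hsub : G ⊆ (Φ.symm ⟨{b}, subcubes_singleton b⟩).1) :
    G = (Φ.symm ⟨{b}, subcubes_singleton b⟩).1 := by
  have h1 : (⟨G, hG⟩ : {G : Set (Eu d) // IsFace F G}) ≤ Φ.symm ⟨{b}, subcubes_singleton b⟩ := hsub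
  have h2 : Φ ⟨G, hG⟩ ≤ ⟨{b}, subcubes_singleton b⟩ := by
    have := Φ.le_iff_le.2 h1
    rwa [Φ.apply_symm_apply] at this
  have h3 : (Φ ⟨G, hG⟩).1 ≠ ∅ := fun h => hne.ne_empty ((iso_empty Φ G hG).1 h)
  have h4 : (Φ ⟨G, hG⟩).1 = {b} := by
    rcases Set.subset_singleton_iff_eq.1 (show (Φ ⟨G, hG⟩).1 ⊆ {b} from h2) with h | h
    · exact (h3 h).elim
    · exact h
  have h5 : Φ ⟨G, hG⟩ = ⟨{b}, subcubes_singleton b⟩ := Subtype.ext h4
  rw [← h5, Φ.symm_apply_apply]

theorem point_face (hC : Cubical P) (hF : IsFace P F) (hFP : F ≠ P)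
    (Φ : {G : Set (Eu d) // IsFace F G} ≃o {S : Set (Fin k → Bool) // S ∈ subcubes k})
    (b : Fin k → Bool) : ∃ x, (Φ.symm ⟨{b}, subcubes_singleton b⟩).1 = {x} := by
  set A := (Φ.symm ⟨{b}, subcubes_singleton b⟩).1 with hA
  have hAF : IsFace F A := (Φ.symm ⟨{b}, subcubes_singleton b⟩).2
  have hAne : A.Nonempty := iso_symm_nonempty Φ _ _ (Set.singleton_nonempty b)
  have hAP : IsFace P A := hF.trans hAF
  have hAneP : A ≠ P := by
    intro h
    apply hFP
    exact Set.Subset.antisymm hF.2.subset (h ▸ hAF.2.subset)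
  obtain ⟨Ψ⟩ := (hC A hAP hAne hAneP).iso
  have hdim : dimF A = 0 := by
    by_contra hne
    -- two different minimal faces
    have hpos : 0 < dimF A := Nat.pos_of_ne_zero hne
    let b1 : Fin (dimF A) → Bool := fun _ => false
    let b2 : Fin (dimF A) → Bool := fun _ => true
    have e : ∀ c : Fin (dimF A) → Bool, (Ψ.symm ⟨{c}, subcubes_singleton c⟩).1 = A := by
      intro c
      have h1 : IsFace A (Ψ.symm ⟨{c}, subcubes_singleton c⟩).1 :=
        (Ψ.symm ⟨{c}, subcubes_singleton c⟩).2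
      exact iso_atom Φ b _ (hAF.trans h1)
        (iso_symm_nonempty Ψ _ _ (Set.singleton_nonempty c)) h1.2.subset
    have h2 : Ψ.symm ⟨{b1}, subcubes_singleton b1⟩ = Ψ.symm ⟨{b2}, subcubes_singleton b2⟩ :=
      Subtype.ext ((e b1).trans (e b2).symm)
    have h3 := Ψ.symm.injective h2
    have h4 : ({b1} : Set (Fin (dimF A) → Bool)) = {b2} := congrArg Subtype.val h3
    have h5 := Set.singleton_injective h4
    have h6 := congrFun h5 ⟨0, hpos⟩
    simp [b1, b2] at h6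
  obtain ⟨x, hx⟩ := hAne
  exact ⟨x, (subsingleton_of_dimF hdim).eq_singleton_of_mem hx⟩

theorem exists_param (hC : Cubical P) (hF : IsFace P F) (hFP : F ≠ P)
    (Φ : {G : Set (Eu d) // IsFace F G} ≃o {S : Set (Fin k → Bool) // S ∈ subcubes k}) :
    ∃ β : (Fin k → Bool) → Eu d, Param P F k β Φ := by
  choose β hβ using fun b => point_face hC hF hFP Φ b
  have hface : ∀ (G : Set (Eu d)) (hG : IsFace F G) (b : Fin k → Bool),
      β b ∈ G ↔ b ∈ (Φ ⟨G, hG⟩).1 := by
    intro G hG b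
    have h1 : β b ∈ G ↔ Φ.symm ⟨{b}, subcubes_singleton b⟩ ≤ ⟨G, hG⟩ := by
      rw [← Set.singleton_subset_iff, ← hβ b]; exact Iff.rfl
    have h2 : Φ.symm ⟨{b}, subcubes_singleton b⟩ ≤ ⟨G, hG⟩ ↔
        (⟨{b}, subcubes_singleton b⟩ : {S : Set (Fin k → Bool) // S ∈ subcubes k}) ≤
          Φ ⟨G, hG⟩ := Φ.symm_apply_le
    rw [h1, h2, ← Set.singleton_subset_iff]
    exact Iff.rfl
  refine ⟨β, ⟨?_, ?_, ?_, ?_, hface⟩⟩
  · intro b c h
    have h1 : Φ.symm ⟨{b}, subcubes_singleton b⟩ = Φ.symm ⟨{c}, subcubes_singleton c⟩ :=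
      Subtype.ext (by rw [hβ b, hβ c, h])
    have h2 := congrArg Subtype.val (Φ.symm.injective h1)
    exact Set.singleton_injective h2
  · intro b
    rw [← hβ b]
    exact hF.trans (Φ.symm ⟨{b}, subcubes_singleton b⟩).2
  · intro b
    have h1 : IsFace F (Φ.symm ⟨{b}, subcubes_singleton b⟩).1 :=
      (Φ.symm ⟨{b}, subcubes_singleton b⟩).2
    apply h1.2.subset
    rw [hβ b]; rfl
  · intro x hx hxP
    have hxF : IsFace F {x} := hF.mono hxP (Set.singleton_subset_iff.2 hx)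
    have hne : (Φ ⟨{x}, hxF⟩).1.Nonempty := by
      rw [Set.nonempty_iff_ne_empty]
      intro h
      exact (Set.singleton_nonempty x).ne_empty ((iso_empty Φ _ hxF).1 h)
    obtain ⟨b, hb⟩ := hne
    exact ⟨b, (hface _ hxF b).2 hb⟩

/-- The number of vertices of a proper face. -/
theorem ncard_vset (hC : Cubical P) (hF : IsFace P F) (hne : F.Nonempty) (hFP : F ≠ P) :
    (vset P F).ncard = 2 ^ dimF F := by
  obtain ⟨Φ⟩ := (hC F hF hne hFP).iso
  obtain ⟨β, hβ⟩ := exists_param hC hF hFP Φ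
  have h1 : vset P F = Set.range β := by
    ext x
    constructor
    · rintro ⟨hx, hxP⟩
      exact hβ.surj x hx hxP
    · rintro ⟨b, rfl⟩
      exact ⟨hβ.mem b, hβ.vert b⟩
  rw [h1, ← Set.image_univ, Set.ncard_image_of_injective _ hβ.inj, Set.ncard_univ]
  simp

/-- The dimension of a face of a proper face can be read off its set of `{0,1}`-vectors. -/
theorem ncard_iso (hC : Cubical P) (hF : IsFace P F) (hFP : F ≠ P)
    {Φ : {G : Set (Eu d) // IsFace F G} ≃o {S : Set (Fin k → Bool) // S ∈ subcubes k}}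
    {β : (Fin k → Bool) → Eu d} (hβ : Param P F k β Φ) (G : Set (Eu d)) (hG : IsFace F G)
    (hne : G.Nonempty) : (Φ ⟨G, hG⟩).1.ncard = 2 ^ dimF G := by
  have hGP : G ≠ P := by
    intro h
    exact hFP (Set.Subset.antisymm hF.2.subset (h ▸ hG.2.subset))
  rw [← ncard_vset hC (hF.trans hG) hne hGP, ← Set.ncard_image_of_injective _ hβ.inj]
  congr 1
  ext x
  constructor
  · rintro ⟨b, hb, rfl⟩
    exact ⟨(hβ.face G hG b).2 hb, hβ.vert b⟩
  · rintro ⟨hx, hxP⟩
    obtain ⟨b, rfl⟩ := hβ.surj x (hG.2.subset hx) hxP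
    exact ⟨b, (hβ.face G hG b).1 hx, rfl⟩

/-- Neighbours in the cube are adjacent vertices. -/
theorem param_adj (hC : Cubical P) (hF : IsFace P F) (hFP : F ≠ P)
    {Φ : {G : Set (Eu d) // IsFace F G} ≃o {S : Set (Fin k → Bool) // S ∈ subcubes k}}
    {β : (Fin k → Bool) → Eu d} (hβ : Param P F k β Φ) (b : Fin k → Bool) (t : Fin k) :
    Adj P (β b) (β (flip b t)) := by
  set E := Φ.symm ⟨{b, flip b t}, subcubes_edge b t⟩ with hE
  have hEF : IsFace F E.1 := E.2
  have hΦE : (Φ ⟨E.1, hEF⟩).1 = {b, flip b t} := by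
    have : Φ ⟨E.1, hEF⟩ = ⟨{b, flip b t}, subcubes_edge b t⟩ := Φ.apply_symm_apply _
    rw [this]
  have h1 : β b ∈ E.1 := (hβ.face _ hEF b).2 (by rw [hΦE]; simp)
  have h2 : β (flip b t) ∈ E.1 := (hβ.face _ hEF _).2 (by rw [hΦE]; simp)
  refine ⟨fun h => flip_ne_self b t (hβ.inj h).symm, hβ.vert _, hβ.vert _, E.1, hF.trans hEF, ?_,
    h1, h2⟩
  have h3 := ncard_iso hC hF hFP hβ E.1 hEF ⟨_, h1⟩
  rw [hΦE, Set.ncard_pair (flip_ne_self b t).symm] at h3
  have h4 : 2 ^ 1 = 2 ^ dimF E.1 := by simpa using h3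
  exact (Nat.pow_right_injective (le_refl 2) h4).symm

theorem two_mul_ncard_half (t : Fin k) (c : Bool) :
    2 * ({b | b t = c} : Set (Fin k → Bool)).ncard = 2 ^ k := by
  have h1 : ∀ c : Bool, ({b | b t = c} : Set (Fin k → Bool)).ncard ≤
      ({b | b t = !c} : Set (Fin k → Bool)).ncard := by
    intro c
    refine Set.ncard_le_ncard_of_injOn (fun b => flip b t) ?_ ?_ (Set.toFinite _)
    · intro b hb
      have hb' : b t = c := hb
      show flip b t t = !c
      rw [flip_same, hb']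
    · intro b _ b' _ h
      have h2 : flip (flip b t) t = flip (flip b' t) t := congrArg (fun x => flip x t) h
      rwa [flip_flip, flip_flip] at h2
  have h2 := h1 c
  have h3 := h1 (!c)
  rw [Bool.not_not] at h3
  have h4 : ({b | b t = c} : Set (Fin k → Bool)) ∪ {b | b t = !c} = Set.univ := by
    ext b
    simp only [Set.mem_union, Set.mem_ofPred_eq, Set.mem_univ, iff_true]
    cases b t <;> cases c <;> simp
  have h5 : Disjoint ({b | b t = c} : Set (Fin k → Bool)) {b | b t = !c} := by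
    rw [Set.disjoint_left]
    intro b hb hb'
    have e1 : b t = c := hb
    have e2 : b t = !c := hb'
    rw [e1] at e2
    cases c <;> simp at e2
  have h6 := Set.ncard_union_eq h5 (Set.toFinite _) (Set.toFinite _)
  rw [h4, Set.ncard_univ] at h6
  simp only [Nat.card_eq_fintype_card, Fintype.card_pi, Fintype.card_bool, Finset.prod_const,
    Finset.card_univ, Fintype.card_fin] at h6
  omega

/-- The halves of a proper face. -/
theorem param_half (hC : Cubical P) (hF : IsFace P F) (hFP : F ≠ P)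
    {Φ : {G : Set (Eu d) // IsFace F G} ≃o {S : Set (Fin k → Bool) // S ∈ subcubes k}}
    {β : (Fin k → Bool) → Eu d} (hβ : Param P F k β Φ) (t : Fin k) (c : Bool) :
    ∃ G, IsFace P G ∧ G.Nonempty ∧ G ≠ P ∧ dimF G = k - 1 ∧
      ∀ v, v ∈ vset P G ↔ ∃ b, b t = c ∧ β b = v := by
  set H := Φ.symm ⟨{b | b t = c}, subcubes_half t c⟩ with hH
  have hHF : IsFace F H.1 := H.2
  have hΦH : (Φ ⟨H.1, hHF⟩).1 = {b | b t = c} := by
    have : Φ ⟨H.1, hHF⟩ = ⟨{b | b t = c}, subcubes_half t c⟩ := Φ.apply_symm_apply _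
    rw [this]
  have hne : H.1.Nonempty := by
    refine ⟨β (fun _ => c), (hβ.face _ hHF _).2 ?_⟩
    rw [hΦH]; rfl
  have hHP : H.1 ≠ P := by
    intro h
    exact hFP (Set.Subset.antisymm hF.2.subset (h ▸ hHF.2.subset))
  refine ⟨H.1, hF.trans hHF, hne, hHP, ?_, fun v => ?_⟩
  · have h3 := ncard_iso hC hF hFP hβ H.1 hHF hne
    have h4 := two_mul_ncard_half t c
    rw [hΦH] at h3
    rw [h3] at h4
    have h5 : 2 ^ (dimF H.1 + 1) = 2 ^ k := by rw [pow_succ]; omega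
    have h6 := Nat.pow_right_injective (le_refl 2) h5
    omega
  · constructor
    · rintro ⟨hv, hvP⟩
      obtain ⟨b, rfl⟩ := hβ.surj v (hHF.2.subset hv) hvP
      refine ⟨b, ?_, rfl⟩
      have := (hβ.face _ hHF b).1 hv
      rw [hΦH] at this
      exact this
    · rintro ⟨b, hb, rfl⟩
      refine ⟨(hβ.face _ hHF b).2 ?_, hβ.vert b⟩
      rw [hΦH]; exact hb

/-- If a face `G` contains two antipodal vertices of the proper face `F` then it contains `F`. -/
theorem subset_of_antipodal (hF : IsFace P F)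
    {Φ : {G : Set (Eu d) // IsFace F G} ≃o {S : Set (Fin k → Bool) // S ∈ subcubes k}}
    {β : (Fin k → Bool) → Eu d} (hβ : Param P F k β Φ) (hG : IsFace P G) (b : Fin k → Bool)
    (h1 : β b ∈ G) (h2 : β (fun j => !b j) ∈ G) : F ⊆ G := by
  have hFG : IsFace F (F ∩ G) := hF.mono (hF.inter hG) Set.inter_subset_left
  have e1 : b ∈ (Φ ⟨F ∩ G, hFG⟩).1 := (hβ.face _ hFG b).1 ⟨hβ.mem b, h1⟩
  have e2 : (fun j => !b j) ∈ (Φ ⟨F ∩ G, hFG⟩).1 := (hβ.face _ hFG _).1 ⟨hβ.mem _, h2⟩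
  have e3 : (Φ ⟨F ∩ G, hFG⟩).1 = Set.univ := by
    rcases (Φ ⟨F ∩ G, hFG⟩).2 with h | ⟨A, hA⟩
    · rw [h] at e1; exact e1.elim
    · rw [hA] at e1 e2 ⊢
      rw [Set.mem_univ_pi] at e1 e2
      rw [Set.eq_univ_iff_forall]
      intro c
      rw [Set.mem_univ_pi]
      intro j
      have h3 := e1 j
      have h4 := e2 j
      by_cases hc : c j = b j
      · rw [hc]; exact h3
      · have : c j = !b j := by revert hc; cases c j <;> cases b j <;> simp
        rw [this]; exact h4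
  have e4 : Φ ⟨F, isFace_self hF.1⟩ ≤ Φ ⟨F ∩ G, hFG⟩ := by
    show (Φ ⟨F, isFace_self hF.1⟩).1 ⊆ (Φ ⟨F ∩ G, hFG⟩).1
    rw [e3]; exact Set.subset_univ _
  have e5 : (⟨F, isFace_self hF.1⟩ : {G : Set (Eu d) // IsFace F G}) ≤ ⟨F ∩ G, hFG⟩ :=
    Φ.le_iff_le.1 e4
  exact fun x hx => (show F ⊆ F ∩ G from e5) hx |>.2

end

end Pool.Agent.CubF620
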