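import Pool.Agent.CubF620.Topo

/-!
MP_f620bf_co (helper50).  A potential on all of the boundary of a cubical polytope (`H^1 = 0`).
-/

set_option autoImplicit false

open Set Topology

namespace Pool.Agent.CubF620

variable {d : ℕ} {P F G : Set (Eu d)}

/-- A point of the interior which lies on no triangle with vertex `v0` spanned by vertices. -/
theorem exists_centre (hd : 3 ≤ d) (hP : IsPolytope P) (v0 : Eu d) :
    ∃ o ∈ interior P, ∀ v w, IsFace P {v} → IsFace P {w} →
      o ∉ convexHull ℝ ({v0, v, w} : Set (Eu d)) := by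
  classical
  have hfin := vertices_finite hP
  by_contra hcon
  push Not at hcon
  have hsub : interior P ⊆ ⋃ v ∈ {x | IsFace P {x}}, ⋃ w ∈ {x | IsFace P {x}},
      (affineSpan ℝ ({v0, v, w} : Set (Eu d)) : Set (Eu d)) := by
    intro o ho
    obtain ⟨v, w, hv, hw, how⟩ := hcon o ho
    rw [Set.mem_iUnion₂]
    refine ⟨v, hv, ?_⟩
    rw [Set.mem_iUnion₂]
    exact ⟨w, hw, convexHull_subset_affineSpan _ how⟩
  have hzero : MeasureTheory.volume (⋃ v ∈ {x : Eu d | IsFace P {x}},
      ⋃ w ∈ {x : Eu d | IsFace P {x}},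
      (affineSpan ℝ ({v0, v, w} : Set (Eu d)) : Set (Eu d))) = 0 := by
    rw [MeasureTheory.measure_biUnion_null_iff hfin.countable]
    intro v _
    rw [MeasureTheory.measure_biUnion_null_iff hfin.countable]
    intro w _
    refine MeasureTheory.Measure.addHaar_affineSubspace _ _ ?_
    intro htop
    have h1 : vectorSpan ℝ ({v0, v, w} : Set (Eu d)) = ⊤ :=
      AffineSubspace.vectorSpan_eq_top_of_affineSpan_eq_top ℝ _ _ htop
    have h2 : Module.finrank ℝ (vectorSpan ℝ ({v0, v, w} : Set (Eu d))) ≤ 2 := by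
      have h3 : (({v0, v, w} : Finset (Eu d)) : Set (Eu d)) = {v0, v, w} := by simp
      have hne : ({v0, v, w} : Finset (Eu d)).Nonempty := ⟨v0, by simp⟩
      have h4 : ({v0, v, w} : Finset (Eu d)).card ≤ 3 := Finset.card_le_three
      have hpos : 0 < ({v0, v, w} : Finset (Eu d)).card := Finset.card_pos.2 hne
      have h5 : (({v0, v, w} : Finset (Eu d))).card =
          (({v0, v, w} : Finset (Eu d)).card - 1) + 1 := by omega
      have h6 := finrank_vectorSpan_image_finset_le ℝ (id : Eu d → Eu d)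
        ({v0, v, w} : Finset (Eu d)) h5
      rw [Finset.image_id, h3] at h6
      omega
    rw [h1, finrank_top, finrank_euclideanSpace_fin] at h2
    omega
  have h1 : MeasureTheory.volume (interior P) = 0 :=
    MeasureTheory.measure_mono_null hsub hzero
  exact (isOpen_interior.measure_pos MeasureTheory.volume hP.2).ne' h1

/-- The point dividing the segment from `a` to `x` in the ratio `k : n - k`. -/
noncomputable def div (n : ℕ) (a x : Eu d) (k : ℕ) : Eu d := a + ((k : ℝ) / n) • (x - a)

theorem div_zero (n : ℕ) (a x : Eu d) : div n a x 0 = a := by simp [div]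

theorem div_last {n : ℕ} (hn : 0 < n) (a x : Eu d) : div n a x n = x := by
  have : (n : ℝ) ≠ 0 := by positivity
  simp [div, div_self this]

theorem div_mem {C : Set (Eu d)} (hC : Convex ℝ C) {n k : ℕ} (hn : 0 < n) (hk : k ≤ n)
    {a x : Eu d} (ha : a ∈ C) (hx : x ∈ C) : div n a x k ∈ C := by
  refine hC.add_smul_sub_mem ha hx ⟨by positivity, ?_⟩
  rw [div_le_one (by positivity)]
  exact_mod_cast hk

theorem dist_div_div {n k : ℕ} (hn : 0 < n) (hk : k ≤ n) (a x y : Eu d) :
    dist (div n a x k) (div n a y k) ≤ dist x y := by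
  have h1 : div n a x k - div n a y k = ((k : ℝ) / n) • (x - y) := by
    unfold div
    rw [smul_sub, smul_sub, smul_sub]
    abel
  rw [dist_eq_norm, h1, norm_smul, dist_eq_norm]
  have h2 : ‖(k : ℝ) / n‖ ≤ 1 := by
    rw [Real.norm_eq_abs, abs_of_nonneg (by positivity), div_le_one (by positivity)]
    exact_mod_cast hk
  calc ‖(k : ℝ) / n‖ * ‖x - y‖ ≤ 1 * ‖x - y‖ := mul_le_mul_of_nonneg_right h2 (norm_nonneg _)
    _ = ‖x - y‖ := one_mul _

theorem dist_div_succ {n : ℕ} (k : ℕ) (a x : Eu d) :
    dist (div n a x k) (div n a x (k + 1)) = dist a x / n := by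
  have h1 : div n a x (k + 1) - div n a x k = ((1 : ℝ) / n) • (x - a) := by
    unfold div
    push_cast
    have e : (((k : ℝ) + 1) / n) • (x - a) = ((k : ℝ) / n) • (x - a) + ((1 : ℝ) / n) • (x - a) := by
      rw [← add_smul]; congr 1; ring
    rw [e]; abel
  rw [dist_comm, dist_eq_norm, h1, norm_smul, dist_comm a x, dist_eq_norm, Real.norm_eq_abs,
    abs_of_nonneg (by positivity)]
  ring

/-- The discrete part: a cocycle on common proper faces has a potential. -/
theorem discrete {A : Type} [AddCommGroup A] (hd : 3 ≤ d) (hP : IsPolytope P) (hC : Cubical P)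
    (D : Eu d → Eu d → A)
    (hD : ∀ F, Proper P F → ∀ a b c, IsFace P {a} → IsFace P {b} → IsFace P {c} → a ∈ F →
      b ∈ F → c ∈ F → D a b + D b c = D a c) :
    ∃ H : Eu d → A, ∀ E v w, Proper P E → IsFace P {v} → IsFace P {w} → v ∈ E → w ∈ E →
      H w - H v = D v w := by
  classical
  -- a base vertex
  by_cases hv0 : ∃ v0, IsFace P ({v0} : Set (Eu d))
  swap
  · exact ⟨fun _ => 0, fun E v w _ hv => (hv0 ⟨v, hv⟩).elim⟩
  obtain ⟨v0, hv0⟩ := hv0
  obtain ⟨o, ho, hotri⟩ := exists_centre hd hP v0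
  have hfin := vertices_finite hP
  -- the compact set
  set K : Set (Eu d) := ⋃ v ∈ {x : Eu d | IsFace P {x}}, ⋃ w ∈ {x : Eu d | IsFace P {x}},
    convexHull ℝ ({v0, v, w} : Set (Eu d)) with hK
  have hKc : IsCompact K := by
    refine hfin.isCompact_biUnion fun v _ => hfin.isCompact_biUnion fun w _ => ?_
    exact (Set.toFinite _).isCompact_convexHull ℝ
  have hKo : ∀ x ∈ K, x ≠ o := by
    intro x hx hxo
    rw [hK, Set.mem_iUnion₂] at hx
    obtain ⟨v, hv, hx⟩ := hx
    rw [Set.mem_iUnion₂] at hx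
    obtain ⟨w, hw, hx⟩ := hx
    rw [hxo] at hx
    exact hotri v w hv hw hx
  have hKtri : ∀ v w, IsFace P {v} → IsFace P {w} →
      convexHull ℝ ({v0, v, w} : Set (Eu d)) ⊆ K := by
    intro v w hv hw x hx
    rw [hK, Set.mem_iUnion₂]
    refine ⟨v, hv, ?_⟩
    rw [Set.mem_iUnion₂]
    exact ⟨w, hw, hx⟩
  -- Lebesgue number
  obtain ⟨δ, hδ, hδK⟩ := lebesgue_number_lemma_of_metric hKc
    (c := fun u : {x : Eu d // IsFace P {x}} => star P o u.1)
    (fun u => star_open hP hC ho u.1) (fun x hx => by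
      obtain ⟨u, hu, hxu⟩ := exists_star hP hC ho (hKo x hx)
      exact Set.mem_iUnion.2 ⟨⟨u, hu⟩, hxu⟩)
  -- `D` vanishes on the diagonal and is antisymmetric
  have hDself : ∀ F, Proper P F → ∀ a, IsFace P {a} → a ∈ F → D a a = 0 := by
    intro F hF a ha haF
    have := hD F hF a a a ha ha ha haF haF haF
    simpa using this
  -- the vertex assigned to a point
  have hm : ∀ x, ∃ u, x ≠ o → IsFace P {u} ∧ x ∈ star P o u := by
    intro x
    by_cases hx : x = o
    · exact ⟨o, fun h => (h hx).elim⟩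
    · obtain ⟨u, hu⟩ := exists_star hP hC ho hx
      exact ⟨u, fun _ => hu⟩
  choose m hm using hm
  have hstarne : ∀ x u, x ∈ star P o u → x ≠ o := fun x u h => h.1
  -- the cocycle on pairs of points in one star
  let Dt : Eu d → Eu d → A := fun x y =>
    if h : ∃ u, IsFace P {u} ∧ x ∈ star P o u ∧ y ∈ star P o u then
      D (m x) h.choose + D h.choose (m y) else 0
  have hDt : ∀ x y u, IsFace P {u} → x ∈ star P o u → y ∈ star P o u →
      Dt x y = D (m x) u + D u (m y) := by
    intro x y u hu hxu hyu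
    have hex : ∃ u, IsFace P {u} ∧ x ∈ star P o u ∧ y ∈ star P o u := ⟨u, hu, hxu, hyu⟩
    have e : Dt x y = D (m x) hex.choose + D hex.choose (m y) := by
      simp only [Dt]; rw [dif_pos hex]
    obtain ⟨hu', hxu', hyu'⟩ := hex.choose_spec
    set u' := hex.choose
    rw [e]
    have hxo := hstarne x u hxu
    have hyo := hstarne y u hyu
    obtain ⟨Fx, hFx, hFxu⟩ := star_common hP ho hxo
    obtain ⟨Fy, hFy, hFyu⟩ := star_common hP ho hyo
    have hmx := hm x hxo
    have hmy := hm y hyo
    have e1 := hD Fx hFx (m x) u u' hmx.1 hu hu' (hFxu _ hmx.2) (hFxu _ hxu) (hFxu _ hxu')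
    have e2 := hD Fy hFy u' u (m y) hu' hu hmy.1 (hFyu _ hyu') (hFyu _ hyu) (hFyu _ hmy.2)
    have e3 := hD Fx hFx u u' u hu hu' hu (hFxu _ hxu) (hFxu _ hxu') (hFxu _ hxu)
    rw [hDself Fx hFx u hu (hFxu _ hxu)] at e3
    rw [← e1, ← e2]
    have : D (m x) u + D u u' + (D u' u + D u (m y)) =
        D (m x) u + (D u u' + D u' u) + D u (m y) := by abel
    rw [this, e3, add_zero]
  have hDtrans : ∀ x y z u, IsFace P {u} → x ∈ star P o u → y ∈ star P o u →
      z ∈ star P o u → Dt x y + Dt y z = Dt x z := by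
    intro x y z u hu hx hy hz
    rw [hDt x y u hu hx hy, hDt y z u hu hy hz, hDt x z u hu hx hz]
    have hyo := hstarne y u hy
    obtain ⟨Fy, hFy, hFyu⟩ := star_common hP ho hyo
    have hmy := hm y hyo
    have e3 := hD Fy hFy u (m y) u hu hmy.1 hu (hFyu _ hy) (hFyu _ hmy.2) (hFyu _ hy)
    rw [hDself Fy hFy u hu (hFyu _ hy)] at e3
    have : D (m x) u + D u (m y) + (D (m y) u + D u (m z)) =
        D (m x) u + (D u (m y) + D (m y) u) + D u (m z) := by abel
    rw [this, e3, add_zero]
  -- number of subdivisions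
  obtain ⟨R, hR⟩ := Metric.isBounded_iff.1 hP.isCompact.isBounded
  obtain ⟨n, hn⟩ := exists_nat_gt (2 * R / δ)
  have hRnn : 0 ≤ R := by
    have h1 := hR (hv0.2.subset (Set.mem_singleton v0)) (hv0.2.subset (Set.mem_singleton v0))
    rwa [dist_self] at h1
  have hnpos : 0 < n := by
    have h1 : (0 : ℝ) ≤ 2 * R / δ := by positivity
    exact_mod_cast lt_of_le_of_lt h1 hn
  have hnR : ∀ x ∈ P, ∀ y ∈ P, dist x y / n < δ / 2 := by
    intro x hx y hy
    have h1 := hR hx hy
    have h2 : (0 : ℝ) < n := by exact_mod_cast hnpos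
    rw [div_lt_iff₀ h2]
    rw [div_lt_iff₀ hδ] at hn
    nlinarith
  -- the ladder
  let H : Eu d → A := fun x => ∑ k ∈ Finset.range n, Dt (div n v0 x k) (div n v0 x (k + 1))
  have hladder : ∀ v w, IsFace P {v} → IsFace P {w} → ∀ x y,
      x ∈ convexHull ℝ ({v0, v, w} : Set (Eu d)) → y ∈ convexHull ℝ ({v0, v, w} : Set (Eu d)) →
      dist x y < δ / 2 → H x + Dt x y = H y := by
    intro v w hv hw x y hx hy hxy
    have htri : convexHull ℝ ({v0, v, w} : Set (Eu d)) ⊆ P := by
      refine convexHull_min ?_ hP.convex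
      rintro z (rfl | rfl | rfl)
      · exact hv0.2.subset (Set.mem_singleton _)
      · exact hv.2.subset (Set.mem_singleton _)
      · exact hw.2.subset (Set.mem_singleton _)
    have hcv := convex_convexHull ℝ ({v0, v, w} : Set (Eu d))
    have hv0t : v0 ∈ convexHull ℝ ({v0, v, w} : Set (Eu d)) :=
      subset_convexHull ℝ _ (by simp)
    have key : ∀ k, k ≤ n → (∑ j ∈ Finset.range k, Dt (div n v0 x j) (div n v0 x (j + 1)))
        + Dt (div n v0 x k) (div n v0 y k) =
        ∑ j ∈ Finset.range k, Dt (div n v0 y j) (div n v0 y (j + 1)) := by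
      intro k
      induction k with
      | zero =>
        intro _
        rw [div_zero, div_zero]
        simp only [Finset.range_zero, Finset.sum_empty, zero_add]
        -- `Dt v0 v0 = 0`
        have hvK : v0 ∈ K := hKtri v w hv hw hv0t
        have hvo := hKo v0 hvK
        have hmv := hm v0 hvo
        rw [hDt v0 v0 (m v0) hmv.1 hmv.2 hmv.2]
        obtain ⟨Fx, hFx, hFxu⟩ := star_common hP ho hvo
        rw [hDself Fx hFx _ hmv.1 (hFxu _ hmv.2), add_zero]
      | succ k ih =>
        intro hk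
        have ih' := ih (by omega)
        rw [Finset.sum_range_succ, Finset.sum_range_succ, ← ih']
        -- the four points are in one star
        have hxk : div n v0 x k ∈ convexHull ℝ ({v0, v, w} : Set (Eu d)) :=
          div_mem hcv hnpos (by omega) hv0t hx
        obtain ⟨u, hu⟩ := hδK _ (hKtri v w hv hw hxk)
        have m1 : div n v0 x k ∈ star P o u.1 := hu (Metric.mem_ball_self hδ)
        have hd1 : dist (div n v0 x k) (div n v0 x (k + 1)) < δ / 2 := by
          rw [dist_div_succ]; exact hnR _ (htri hv0t) _ (htri hx)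
        have hd2 : dist (div n v0 y k) (div n v0 y (k + 1)) < δ / 2 := by
          rw [dist_div_succ]; exact hnR _ (htri hv0t) _ (htri hy)
        have hd3 : dist (div n v0 x k) (div n v0 y k) < δ / 2 :=
          lt_of_le_of_lt (dist_div_div hnpos (by omega) _ _ _) hxy
        have m2 : div n v0 x (k + 1) ∈ star P o u.1 := hu (by
          rw [Metric.mem_ball, dist_comm]; linarith)
        have m3 : div n v0 y k ∈ star P o u.1 := hu (by
          rw [Metric.mem_ball, dist_comm]; linarith)
        have m4 : div n v0 y (k + 1) ∈ star P o u.1 := hu (by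
          rw [Metric.mem_ball, dist_comm]
          have := dist_triangle (div n v0 x k) (div n v0 y k) (div n v0 y (k + 1))
          linarith)
        have t1 := hDtrans _ _ _ u.1 u.2 m1 m2 m4
        have t2 := hDtrans _ _ _ u.1 u.2 m1 m3 m4
        rw [add_assoc, t1, add_assoc, t2]
    have h1 := key n le_rfl
    rw [div_last hnpos, div_last hnpos] at h1
    exact h1
  refine ⟨H, fun E v w hE hv hw hvE hwE => ?_⟩
  -- along the edge
  have hcvE := hE.1.1
  have hpE : ∀ k, k ≤ n → div n v w k ∈ E := fun k hk => div_mem hcvE hnpos hk hvE hwE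
  have hcv := convex_convexHull ℝ ({v0, v, w} : Set (Eu d))
  have hvt : v ∈ convexHull ℝ ({v0, v, w} : Set (Eu d)) := subset_convexHull ℝ _ (by simp)
  have hwt : w ∈ convexHull ℝ ({v0, v, w} : Set (Eu d)) := subset_convexHull ℝ _ (by simp)
  have hpt : ∀ k, k ≤ n → div n v w k ∈ convexHull ℝ ({v0, v, w} : Set (Eu d)) :=
    fun k hk => div_mem hcv hnpos hk hvt hwt
  have hpo : ∀ k, k ≤ n → div n v w k ≠ o := fun k hk =>
    hKo _ (hKtri v w hv hw (hpt k hk))
  have hvertex : ∀ a, IsFace P {a} → a ≠ o → m a = a := by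
    intro a ha hao
    have haP : Proper P ({a} : Set (Eu d)) := by
      refine ⟨ha, Set.singleton_nonempty a, ?_⟩
      intro h
      obtain ⟨z, hz⟩ := hP.2
      have h1 := dimF_polytope hP
      rw [← h, dimF_singleton] at h1
      omega
    exact star_face hP ho haP (Set.mem_singleton a) (hm a hao).2
  have hstep : ∀ k, k ≤ n → H v + D v (m (div n v w k)) = H (div n v w k) := by
    intro k
    induction k with
    | zero =>
      intro _
      rw [div_zero]
      have hvo : v ≠ o := hKo v (hKtri v w hv hw hvt)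
      rw [hvertex v hv hvo, hDself E hE v hv hvE, add_zero]
    | succ k ih =>
      intro hk
      have ih' := ih (by omega)
      have hdk : dist (div n v w k) (div n v w (k + 1)) < δ / 2 := by
        rw [dist_div_succ]
        exact hnR _ (hv.2.subset (Set.mem_singleton v)) _ (hw.2.subset (Set.mem_singleton w))
      have h1 := hladder v w hv hw _ _ (hpt k (by omega)) (hpt (k + 1) hk) hdk
      rw [← h1, ← ih']
      obtain ⟨u, hu⟩ := hδK _ (hKtri v w hv hw (hpt k (by omega)))
      have m1 : div n v w k ∈ star P o u.1 := hu (Metric.mem_ball_self hδ)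
      have m2 : div n v w (k + 1) ∈ star P o u.1 := hu (by
        rw [Metric.mem_ball, dist_comm]; linarith)
      rw [hDt _ _ u.1 u.2 m1 m2]
      have hmk := hm _ (hpo k (by omega))
      have hmk' := hm _ (hpo (k + 1) hk)
      have i1 : u.1 ∈ E := star_face hP ho hE (hpE k (by omega)) m1
      have i2 : m (div n v w k) ∈ E := star_face hP ho hE (hpE k (by omega)) hmk.2
      have i3 : m (div n v w (k + 1)) ∈ E := star_face hP ho hE (hpE (k + 1) hk) hmk'.2
      have e1 := hD E hE (m (div n v w k)) u.1 (m (div n v w (k + 1))) hmk.1 u.2 hmk'.1 i2 i1 i3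
      have e2 := hD E hE v (m (div n v w k)) (m (div n v w (k + 1))) hv hmk.1 hmk'.1 hvE i2 i3
      rw [e1, add_assoc, e2]
  have h1 := hstep n le_rfl
  rw [div_last hnpos] at h1
  have hwo : w ≠ o := hKo w (hKtri v w hv hw hwt)
  rw [hvertex w hw hwo] at h1
  rw [← h1]; abel

/-- Every set of edges closed under parallelism is the coboundary of a function on the vertices. -/
theorem global_pot (hd : 3 ≤ d) (hP : IsPolytope P) (hC : Cubical P) {Z : Set (Set (Eu d))}
    (hZ : ∀ E E', Opposite P E E' → E ∈ Z → E' ∈ Z) :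
    ∃ h : Eu d → ZMod 2, ∀ E v w, IsFace P E → dimF E = 1 → IsFace P {v} → IsFace P {w} →
      v ∈ E → w ∈ E → v ≠ w → h w - h v = zeta Z E := by
  classical
  choose! p hp using fun F (hF : Proper P F) => exists_pot hC hZ hF
  let D : Eu d → Eu d → ZMod 2 := fun a b =>
    if h : ∃ F, Proper P F ∧ a ∈ F ∧ b ∈ F then p h.choose b - p h.choose a else 0
  have hDF : ∀ F, Proper P F → ∀ h, Pot P Z F h → ∀ a b, IsFace P {a} → IsFace P {b} →
      a ∈ F → b ∈ F → D a b = h b - h a := by
    intro F hF h hh a b ha hb haF hbF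
    have hex : ∃ F, Proper P F ∧ a ∈ F ∧ b ∈ F := ⟨F, hF, haF, hbF⟩
    have e : D a b = p hex.choose b - p hex.choose a := by
      simp only [D]; rw [dif_pos hex]
    obtain ⟨hF', haF', hbF'⟩ := hex.choose_spec
    rw [e]
    have hI : Proper P (hex.choose ∩ F) :=
      hF.sub (hF'.1.inter hF.1) ⟨a, haF', haF⟩ Set.inter_subset_right
    exact pot_unique hC hI ((hp _ hF').mono Set.inter_subset_left)
      (hh.mono Set.inter_subset_right) ha hb ⟨haF', haF⟩ ⟨hbF', hbF⟩
  obtain ⟨H, hH⟩ := discrete hd hP hC D (by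
    intro F hF a b c ha hb hc haF hbF hcF
    rw [hDF F hF _ (hp F hF) a b ha hb haF hbF, hDF F hF _ (hp F hF) b c hb hc hbF hcF,
      hDF F hF _ (hp F hF) a c ha hc haF hcF]
    ring)
  refine ⟨H, fun E v w hE hE1 hv hw hvE hwE hvw => ?_⟩
  have hEP : Proper P E := by
    refine ⟨hE, ⟨v, hvE⟩, ?_⟩
    rintro rfl
    rw [dimF_polytope hP] at hE1
    omega
  rw [hH E v w hEP hv hw hvE hwE, hDF E hEP _ (hp E hEP) v w hv hw hvE hwE]
  exact hp E hEP E v w hE hE1 (le_refl _) hv hw hvE hwE hvw

end Pool.Agent.CubF620
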