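import Pool.Agent.CubF620.Geom

/-!
MP_f620bf_co (helper50).  The two counting theorems.
-/

set_option autoImplicit false

open Set

namespace Pool.Agent.CubF620

variable {d : ℕ} {P : Set (Eu d)}

/-- Faces with the same vertices are equal. -/
theorem face_subset_of_vset (hC : Cubical P) {F G : Set (Eu d)} (hF : IsFace P F)
    (hne : F.Nonempty) (hFP : F ≠ P) (hG : IsFace P G) (h : vset P F ⊆ vset P G) : F ⊆ G := by
  obtain ⟨Φ⟩ := (hC F hF hne hFP).iso
  obtain ⟨β, hβ⟩ := exists_param hC hF hFP Φ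
  exact subset_of_antipodal hF hβ hG (fun _ => false) (h ⟨hβ.mem _, hβ.vert _⟩).1
    (h ⟨hβ.mem _, hβ.vert _⟩).1

/-- The number of vertices is `fNum P 0`. -/
theorem fNum_zero (P : Set (Eu d)) : fNum P 0 = {x | IsFace P {x}}.ncard := by
  unfold fNum
  rw [← Set.ncard_image_of_injective {x | IsFace P {x}} (Set.singleton_injective (α := Eu d))]
  congr 1
  ext F
  constructor
  · rintro ⟨h1, ⟨x, hx⟩, h3⟩
    have h4 : F = {x} := (subsingleton_of_dimF h3).eq_singleton_of_mem hx
    exact ⟨x, by rw [h4] at h1; exact h1, h4.symm⟩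
  · rintro ⟨x, hx, rfl⟩
    exact ⟨hx, Set.singleton_nonempty x, dimF_singleton x⟩

/-- The set of vertices as a finite set. -/
noncomputable def verts (hP : IsPolytope P) : Finset (Eu d) := (vertices_finite hP).toFinset

theorem mem_verts (hP : IsPolytope P) (x : Eu d) : x ∈ verts hP ↔ IsFace P {x} := by
  simp [verts]

theorem card_verts (hP : IsPolytope P) : (verts hP).card = fNum P 0 := by
  rw [fNum_zero, Set.ncard_eq_toFinset_card _ (vertices_finite hP)]
  rfl

open Classical in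
/-- Vertex sets of the proper `i`-faces. -/
noncomputable def fam (hP : IsPolytope P) (i : ℕ) : Finset (Finset (Eu d)) :=
  (verts hP).powerset.filter (fun S => ∃ F, IsFace P F ∧ F.Nonempty ∧ F ≠ P ∧ dimF F = i ∧
    ∀ v, v ∈ S ↔ v ∈ vset P F)

theorem mem_fam (hP : IsPolytope P) (i : ℕ) (S : Finset (Eu d)) :
    S ∈ fam hP i ↔ ∃ F, IsFace P F ∧ F.Nonempty ∧ F ≠ P ∧ dimF F = i ∧
      ∀ v, v ∈ S ↔ v ∈ vset P F := by
  classical
  unfold fam
  rw [Finset.mem_filter, Finset.mem_powerset]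
  constructor
  · exact fun h => h.2
  · intro h
    refine ⟨fun v hv => ?_, h⟩
    obtain ⟨F, _, _, _, _, hF⟩ := h
    exact (mem_verts hP v).2 ((hF v).1 hv).2

theorem exists_finset (hP : IsPolytope P) (F : Set (Eu d)) :
    ∃ S : Finset (Eu d), ∀ v, v ∈ S ↔ v ∈ vset P F := by
  have h : (vset P F).Finite := (vertices_finite hP).subset fun x hx => hx.2
  exact ⟨h.toFinset, fun v => by simp⟩

/-- Below the top dimension each `i`-face is proper and is counted once. -/
theorem fNum_le (hP : IsPolytope P) (hC : Cubical P) {i : ℕ} (hi : i < d) :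
    fNum P i ≤ (fam hP i).card := by
  classical
  choose f hf using exists_finset hP
  have h1 : fNum P i = {F | IsFace P F ∧ F.Nonempty ∧ dimF F = i}.ncard := rfl
  rw [h1, ← Set.ncard_coe_finset]
  have hprop : ∀ F : Set (Eu d), dimF F = i → F ≠ P := by
    rintro F h rfl
    rw [dimF_polytope hP] at h
    omega
  refine Set.ncard_le_ncard_of_injOn f ?_ ?_ (Finset.finite_toSet _)
  · rintro F ⟨hF, hne, hdim⟩
    rw [Finset.mem_coe, mem_fam]
    exact ⟨F, hF, hne, hprop F hdim, hdim, hf F⟩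
  · rintro F ⟨hF, hne, hdim⟩ G ⟨hG, hneG, hdimG⟩ h
    have h2 : vset P F = vset P G := by
      ext v
      rw [← hf F v, ← hf G v, h]
    exact Set.Subset.antisymm
      (face_subset_of_vset hC hF hne (hprop F hdim) hG h2.subset)
      (face_subset_of_vset hC hG hneG (hprop G hdimG) hF h2.symm.subset)

theorem Adj.symm' {v w : Eu d} (h : Adj P v w) : Adj P w v := by
  obtain ⟨h1, h2, h3, E, h4, h5, h6, h7⟩ := h
  exact ⟨h1.symm, h3, h2, E, h4, h5, h7, h6⟩

theorem isFamily (hP : IsPolytope P) (hC : Cubical P) : IsFamily (Adj P) (fam hP) := by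
  refine ⟨fun i S hS => ?_⟩
  obtain ⟨F, hF, hne, hFP, hdim, hSF⟩ := (mem_fam hP i S).1 hS
  subst hdim
  obtain ⟨Φ⟩ := (hC F hF hne hFP).iso
  obtain ⟨β, hβ⟩ := exists_param hC hF hFP Φ
  refine ⟨β, hβ.inj, ⟨fun v => ?_, fun b t => param_adj hC hF hFP hβ b t⟩, fun t c => ?_⟩
  · rw [hSF]
    constructor
    · rintro ⟨h1, h2⟩; exact hβ.surj v h1 h2
    · rintro ⟨b, rfl⟩; exact ⟨hβ.mem b, hβ.vert b⟩
  · obtain ⟨G, hG, hGne, hGP, hGdim, hGv⟩ := param_half hC hF hFP hβ t c
    obtain ⟨S', hS'⟩ := exists_finset hP G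
    refine ⟨S', (mem_fam hP _ S').2 ⟨G, hG, hGne, hGP, hGdim, hS'⟩, fun v => ?_⟩
    rw [hS', hGv]

/-- The labelling theorem. -/
theorem labelled (hP : IsPolytope P) (hC : Cubical P) {N : ℕ} (σ : Eu d → Fin N → Bool)
    (h1 : ∀ v w, Adj P v w → ∃! j, σ v j ≠ σ w j)
    (h2 : ∀ v w w', Adj P v w → Adj P v w' → σ w = σ w' → w = w') {i : ℕ} (hi : i < d) :
    fNum P i ≤ cubeSum (fNum P 0) i := by
  classical
  have hσ : IsLabelling (Adj P) σ := by
    refine ⟨fun v w h => h.symm', fun v w h => ?_, h2⟩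
    obtain ⟨j, hj, huniq⟩ := h1 v w h
    refine ⟨j, ?_⟩
    funext k
    by_cases hk : k = j
    · subst hk
      rw [flip_same]
      revert hj
      cases σ v k <;> cases σ w k <;> simp
    · rw [flip_ne _ hk]
      by_contra hne
      exact hk (huniq k (Ne.symm hne))
  have h3 := core hσ (isFamily hP hC) (fNum P 0) (verts hP) (card_verts hP) i
  refine (fNum_le hP hC hi).trans ?_
  have h4 : (fam hP i).filter (· ⊆ verts hP) = fam hP i := by
    rw [Finset.filter_eq_self]
    intro S hS v hv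
    obtain ⟨F, _, _, _, _, hF⟩ := (mem_fam hP i S).1 hS
    exact (mem_verts hP v).2 ((hF v).1 hv).2
  rw [h4] at h3
  exact h3

/-- The quadratic bound. -/
theorem quadratic (hP : IsPolytope P) (hC : Cubical P) :
    ∑ i ∈ Finset.range d, 2 ^ i * fNum P i ≤ fNum P 0 ^ 2 := by
  classical
  -- pairs (vertex, proper face)
  have hpar : ∀ F : Set (Eu d), IsFace P F ∧ F.Nonempty ∧ F ≠ P →
      ∃ a : Eu d → Eu d, ∀ v ∈ vset P F, a v ∈ vset P F ∧
        ∀ G, IsFace P G → v ∈ G → a v ∈ G → F ⊆ G := by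
    rintro F ⟨hF, hne, hFP⟩
    obtain ⟨Φ⟩ := (hC F hF hne hFP).iso
    obtain ⟨β, hβ⟩ := exists_param hC hF hFP Φ
    have h1 : ∀ v, ∃ w, v ∈ vset P F → w ∈ vset P F ∧
        ∀ G, IsFace P G → v ∈ G → w ∈ G → F ⊆ G := by
      intro v
      by_cases hv : v ∈ vset P F
      · obtain ⟨b, rfl⟩ := hβ.surj v hv.1 hv.2
        exact ⟨β (fun j => !b j), fun _ => ⟨⟨hβ.mem _, hβ.vert _⟩,
          fun G hG e1 e2 => subset_of_antipodal hF hβ hG b e1 e2⟩⟩
      · exact ⟨v, fun h => (hv h).elim⟩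
    choose a ha using h1
    exact ⟨a, ha⟩
  choose! a ha using hpar
  choose f hf using exists_finset hP
  -- finite sets of faces
  have hfin : ∀ i < d, {F | IsFace P F ∧ F.Nonempty ∧ dimF F = i}.Finite := by
    intro i hi
    have hprop : ∀ F : Set (Eu d), dimF F = i → F ≠ P := by
      rintro F h rfl
      rw [dimF_polytope hP] at h
      omega
    refine Set.Finite.of_finite_image (f := f)
      (((verts hP).powerset.finite_toSet).subset ?_) ?_
    · rintro _ ⟨F, _, rfl⟩
      rw [Finset.mem_coe, Finset.mem_powerset]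
      intro v hv
      exact (mem_verts hP v).2 ((hf F v).1 hv).2
    · rintro F ⟨hF, hne, hdim⟩ G ⟨hG, hneG, hdimG⟩ h
      have h2 : vset P F = vset P G := by
        ext v
        rw [← hf F v, ← hf G v, h]
      exact Set.Subset.antisymm
        (face_subset_of_vset hC hF hne (hprop F hdim) hG h2.subset)
        (face_subset_of_vset hC hG hneG (hprop G hdimG) hF h2.symm.subset)
  let Faces : ℕ → Finset (Set (Eu d)) := fun i =>
    if hi : i < d then (hfin i hi).toFinset else ∅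
  have hFaces : ∀ i < d, ∀ F, F ∈ Faces i ↔ IsFace P F ∧ F.Nonempty ∧ dimF F = i := by
    intro i hi F
    simp only [Faces, hi, dite_true, Set.Finite.mem_toFinset]
    exact Iff.rfl
  have hcardFaces : ∀ i < d, (Faces i).card = fNum P i := by
    intro i hi
    simp only [Faces, hi, dite_true]
    exact (Set.ncard_eq_toFinset_card _ (hfin i hi)).symm
  have hprop : ∀ i < d, ∀ F ∈ Faces i, F ≠ P := by
    intro i hi F hF h
    rw [hFaces i hi] at hF
    have := hF.2.2
    rw [h, dimF_polytope hP] at this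
    omega
  have hcardf : ∀ i < d, ∀ F ∈ Faces i, (f F).card = 2 ^ i := by
    intro i hi F hF
    have h1 := hprop i hi F hF
    rw [hFaces i hi] at hF
    have h2 := ncard_vset hC hF.1 hF.2.1 h1
    have h3 : (vset P F) = ((f F : Finset (Eu d)) : Set (Eu d)) := by
      ext v; rw [Finset.mem_coe, hf F v]
    rw [h3, Set.ncard_coe_finset, hF.2.2] at h2
    exact h2
  -- the set of pairs
  let Q : Finset (Σ _ : ℕ, Σ _ : Set (Eu d), Eu d) :=
    (Finset.range d).sigma fun i => (Faces i).sigma fun F => f F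
  have hQ : Q.card = ∑ i ∈ Finset.range d, 2 ^ i * fNum P i := by
    rw [Finset.card_sigma]
    refine Finset.sum_congr rfl fun i hi => ?_
    rw [Finset.mem_range] at hi
    rw [Finset.card_sigma, Finset.sum_congr rfl (hcardf i hi), Finset.sum_const,
      hcardFaces i hi, smul_eq_mul, mul_comm]
  rw [← hQ, sq, ← card_verts hP, ← Finset.card_product]
  refine Finset.card_le_card_of_injOn (fun q => (q.2.2, a q.2.1 q.2.2)) ?_ ?_
  · rintro ⟨i, F, v⟩ hq
    rw [Finset.mem_coe, Finset.mem_sigma, Finset.mem_sigma, Finset.mem_range] at hq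
    obtain ⟨hi, hF, hv⟩ := hq
    have h1 := hprop i hi F hF
    have h2 := (hFaces i hi F).1 hF
    have h3 := (ha F ⟨h2.1, h2.2.1, h1⟩ v ((hf F v).1 hv)).1
    rw [Finset.mem_coe, Finset.mem_product]
    exact ⟨(mem_verts hP v).2 ((hf F v).1 hv).2, (mem_verts hP _).2 h3.2⟩
  · rintro ⟨i, F, v⟩ hq ⟨j, G, w⟩ hq' h
    rw [Finset.mem_coe, Finset.mem_sigma, Finset.mem_sigma, Finset.mem_range] at hq hq'
    obtain ⟨hi, hF, hv⟩ := hq
    obtain ⟨hj, hG, hw⟩ := hq'
    have h1 := hprop i hi F hF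
    have h2 := (hFaces i hi F).1 hF
    have h1' := hprop j hj G hG
    have h2' := (hFaces j hj G).1 hG
    have hvv : v = w := congrArg Prod.fst h
    have haa : a F v = a G w := congrArg Prod.snd h
    simp only at hF hv hG hw h2 h2'
    subst hvv
    have h3 := ha F ⟨h2.1, h2.2.1, h1⟩ v ((hf F v).1 hv)
    have h4 := ha G ⟨h2'.1, h2'.2.1, h1'⟩ v ((hf G v).1 hw)
    have h5 : F ⊆ G := h3.2 G h2'.1 ((hf G v).1 hw).1 (by rw [haa]; exact h4.1.1)
    have h6 : G ⊆ F := h4.2 F h2.1 ((hf F v).1 hv).1 (by rw [← haa]; exact h3.1.1)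
    have h7 : F = G := Set.Subset.antisymm h5 h6
    subst h7
    have h8 : i = j := h2.2.2.symm.trans h2'.2.2
    subst h8
    rfl

end Pool.Agent.CubF620
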