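import Pool.Agent.CubF620.Core3

/-!
MP_f620bf_co (helper50).  The numbers `coefA` as coefficients of polynomials.
-/

set_option autoImplicit false

open Finset Polynomial

namespace Pool.Agent.CubF620

/-- The polynomial `2 ((1+X)^μ - 1)`. -/
noncomputable def Yp (μ : ℕ) : ℤ[X] := 2 * ((1 + X) ^ μ - 1)

theorem coeff_Yp_zero (μ : ℕ) : (Yp μ).coeff 0 = 0 := by
  unfold Yp
  rw [show (2 : ℤ[X]) = C 2 from rfl, coeff_C_mul, coeff_sub, coeff_one_add_X_pow]
  simp

theorem coeff_Yp_succ (μ r : ℕ) : (Yp μ).coeff (r + 1) = 2 * (μ.choose (r + 1) : ℤ) := by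
  unfold Yp
  rw [show (2 : ℤ[X]) = C 2 from rfl, coeff_C_mul, coeff_sub, coeff_one_add_X_pow]
  simp [coeff_one]

theorem coeff_Yp_pow (μ l : ℕ) : ∀ i, ((Yp μ) ^ l).coeff i = (coefA μ l i : ℤ) := by
  induction l with
  | zero =>
    intro i
    rw [pow_zero, coeff_one]
    by_cases hi : i = 0
    · simp [coefA, hi]
    · simp [coefA, hi]
  | succ l ih =>
    intro i
    rw [pow_succ', coeff_mul,
      Finset.Nat.sum_antidiagonal_eq_sum_range_succ (fun a b => (Yp μ).coeff a * (Yp μ ^ l).coeff b),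
      Finset.sum_range_succ', coeff_Yp_zero, zero_mul, add_zero]
    have h1 : Finset.Icc 1 i = (Finset.range i).image (fun r => r + 1) := by
      ext r
      simp only [Finset.mem_Icc, Finset.mem_image, Finset.mem_range]
      constructor
      · rintro ⟨h1, h2⟩; exact ⟨r - 1, by omega, by omega⟩
      · rintro ⟨s, hs, rfl⟩; omega
    simp only [coefA]
    rw [h1, Finset.sum_image (fun a _ b _ h => by simpa using h)]
    push_cast
    refine Finset.sum_congr rfl fun r _ => ?_
    rw [coeff_Yp_succ, ih]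

theorem coefA_eq_zero (μ : ℕ) : ∀ l i : ℕ, i < l → coefA μ l i = 0 := by
  intro l
  induction l with
  | zero => intro i hi; omega
  | succ l ih =>
    intro i hi
    simp only [coefA]
    refine Finset.sum_eq_zero fun r hr => ?_
    rw [Finset.mem_Icc] at hr
    rw [ih (i - r) (by omega), mul_zero]

/-- The generating polynomial. -/
theorem coeff_gen (μ n i : ℕ) :
    ((∑ k ∈ Finset.range n, (2 * (1 + X) ^ μ - 1) ^ (Nat.digits 2 k).sum : ℤ[X]).coeff i) =
      ((∑ l ∈ Finset.range (i + 1), coefA μ l i * cubeSum n l : ℕ) : ℤ) := by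
  have h1 : ∀ s : ℕ, (((2 * (1 + X) ^ μ - 1) ^ s : ℤ[X]).coeff i) =
      ∑ l ∈ Finset.range (i + 1), ((coefA μ l i : ℤ) * (s.choose l : ℤ)) := by
    intro s
    have e : (2 * (1 + X) ^ μ - 1 : ℤ[X]) = Yp μ + 1 := by unfold Yp; ring
    rw [e, add_pow, finsetSum_coeff]
    have h2 : ∀ l ∈ Finset.range (s + 1), (Yp μ ^ l * 1 ^ (s - l) * (s.choose l : ℤ[X])).coeff i =
        (coefA μ l i : ℤ) * (s.choose l : ℤ) := by
      intro l _
      rw [one_pow, mul_one, ← C_eq_natCast, coeff_mul_C, coeff_Yp_pow]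
    rw [Finset.sum_congr rfl h2]
    -- both sums agree with the sum over a large range
    have h3 : ∀ a b : ℕ, a ≤ b → (∀ l, a < l → (coefA μ l i : ℤ) * (s.choose l : ℤ) = 0) →
        ∑ l ∈ Finset.range (a + 1), ((coefA μ l i : ℤ) * (s.choose l : ℤ)) =
          ∑ l ∈ Finset.range (b + 1), ((coefA μ l i : ℤ) * (s.choose l : ℤ)) := by
      intro a b hab hz
      refine Finset.sum_subset (Finset.range_mono (by omega)) fun l _ hl => hz l ?_
      rw [Finset.mem_range] at hl
      omega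
    rcases Nat.le_total s i with hsi | hsi
    · exact h3 s i hsi fun l hl => by rw [Nat.choose_eq_zero_of_lt hl]; simp
    · exact (h3 i s hsi fun l hl => by rw [coefA_eq_zero μ l i hl]; simp).symm
  rw [finsetSum_coeff, Finset.sum_congr rfl fun k _ => h1 _, Finset.sum_comm]
  push_cast
  refine Finset.sum_congr rfl fun l _ => ?_
  rw [← Finset.mul_sum]
  unfold cubeSum ones
  push_cast
  rfl

theorem sum_pow_ones {A : Type} [CommRing A] (p : A) (m : ℕ) :
    ∑ k ∈ Finset.range (2 ^ m), p ^ ones k = (1 + p) ^ m := by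
  induction m with
  | zero => simp [ones]
  | succ m ih =>
    have h : ∀ n : ℕ, ∑ k ∈ Finset.range (2 * n), p ^ ones k =
        (1 + p) * ∑ k ∈ Finset.range n, p ^ ones k := by
      intro n
      induction n with
      | zero => simp
      | succ n ihn =>
        have e : 2 * (n + 1) = 2 * n + 1 + 1 := by ring
        rw [e, Finset.sum_range_succ, Finset.sum_range_succ, ihn, Finset.sum_range_succ,
          ones_two_mul, ones_two_mul_add_one]
        ring
    rw [pow_succ' 2 m, h, ih]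
    ring

theorem gen_two_pow (μ m i : ℕ) :
    ∑ l ∈ Finset.range (i + 1), coefA μ l i * cubeSum (2 ^ m) l = 2 ^ m * (μ * m).choose i := by
  have h1 := coeff_gen μ (2 ^ m) i
  have h2 : (∑ k ∈ Finset.range (2 ^ m), (2 * (1 + X) ^ μ - 1) ^ (Nat.digits 2 k).sum : ℤ[X]) =
      C (2 ^ m : ℤ) * (1 + X) ^ (μ * m) := by
    have h3 := sum_pow_ones (2 * (1 + X) ^ μ - 1 : ℤ[X]) m
    unfold ones at h3
    rw [h3, pow_mul]
    have e : (1 + (2 * (1 + X) ^ μ - 1) : ℤ[X]) = 2 * (1 + X) ^ μ := by ring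
    rw [e, mul_pow]
    congr 1
    rw [C_pow]
    rfl
  rw [h2, coeff_C_mul, coeff_one_add_X_pow] at h1
  have h3 : ((2 ^ m * (μ * m).choose i : ℕ) : ℤ) =
      ((∑ l ∈ Finset.range (i + 1), coefA μ l i * cubeSum (2 ^ m) l : ℕ) : ℤ) := by
    rw [← h1]; push_cast; rfl
  exact_mod_cast h3.symm

theorem cubeSum_mono (l : ℕ) {a b : ℕ} (h : a ≤ b) : cubeSum a l ≤ cubeSum b l :=
  g_mono (l + 1) h

end Pool.Agent.CubF620
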