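import Pool.Agent.CubF620.Edges

/-!
MP_f620bf_co (helper50).  Radial projection onto the boundary of a cubical polytope.
-/

set_option autoImplicit false

open Set Topology

namespace Pool.Agent.CubF620

variable {d : ℕ} {P F G : Set (Eu d)}

theorem IsPolytope.convex (hP : IsPolytope P) : Convex ℝ P := by
  obtain ⟨⟨s, hs⟩, _⟩ := hP
  rw [hs]; exact convex_convexHull ℝ _

theorem IsPolytope.isCompact (hP : IsPolytope P) : IsCompact P := by
  obtain ⟨⟨s, hs⟩, _⟩ := hP
  rw [hs]; exact s.finite_toSet.isCompact_convexHull ℝ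

/-- A proper face contains no interior point. -/
theorem not_interior (hF : IsFace P F) (hFP : F ≠ P) {x : Eu d} (hx : x ∈ F) :
    x ∉ interior P := by
  intro hxi
  apply hFP
  refine Set.Subset.antisymm hF.2.subset fun y hy => ?_
  have h1 : ∀ᶠ ε in 𝓝 (0 : ℝ), x + ε • (x - y) ∈ P := by
    have hc : ContinuousAt (fun ε : ℝ => x + ε • (x - y)) 0 := by fun_prop
    have h2 : P ∈ 𝓝 (x + (0 : ℝ) • (x - y)) := by
      rw [zero_smul, add_zero]; exact mem_interior_iff_mem_nhds.1 hxi
    exact hc h2
  have h2 : ∀ᶠ ε in 𝓝[>] (0 : ℝ), x + ε • (x - y) ∈ P := h1.filter_mono nhdsWithin_le_nhds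
  obtain ⟨ε, hε, hε0⟩ := (h2.and self_mem_nhdsWithin).exists
  have hε0' : 0 < ε := hε0
  refine hF.2.left_mem_of_mem_openSegment hy hε hx ⟨ε / (1 + ε), 1 / (1 + ε), by positivity,
    by positivity, by field_simp; ring, ?_⟩
  have h3 : (1 + ε) ≠ 0 := by positivity
  rw [smul_add, smul_smul, smul_sub]
  have e1 : 1 / (1 + ε) * ε = ε / (1 + ε) := by field_simp
  rw [e1]
  have e2 : (ε / (1 + ε)) • y + ((1 / (1 + ε)) • x + ((ε / (1 + ε)) • x - (ε / (1 + ε)) • y)) =
      (1 / (1 + ε)) • x + (ε / (1 + ε)) • x := by abel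
  rw [e2, ← add_smul]
  have e3 : 1 / (1 + ε) + ε / (1 + ε) = 1 := by field_simp
  rw [e3, one_smul]

/-- Every boundary point lies in a proper face. -/
theorem exists_proper (hP : IsPolytope P) {x : Eu d} (hx : x ∈ P) (hxi : x ∉ interior P) :
    ∃ F, Proper P F ∧ x ∈ F := by
  have hc := hP.convex
  obtain ⟨f, hf⟩ := geometric_hahn_banach_open_point hc.interior isOpen_interior hxi
  have hle : ∀ y ∈ P, f y ≤ f x := by
    intro y hy
    have h1 : y ∈ closure (interior P) := by
      rw [hc.closure_interior_eq_closure_of_nonempty_interior hP.2]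
      exact subset_closure hy
    have h2 : closure (interior P) ⊆ {z | f z ≤ f x} :=
      closure_minimal (fun z hz => (hf z hz).le) (isClosed_le f.continuous continuous_const)
    exact h2 h1
  refine ⟨{y | y ∈ P ∧ f y = f x}, ⟨⟨?_, ?_, ?_⟩, ⟨x, hx, rfl⟩, ?_⟩, hx, rfl⟩
  · intro y hy z hz a b ha hb hab
    refine ⟨hc hy.1 hz.1 ha hb hab, ?_⟩
    rw [map_add, map_smul, map_smul, hy.2, hz.2, ← add_smul, hab, one_smul]
  · exact fun y hy => hy.1
  · rintro y hy z hz w hw ⟨a, b, ha, hb, hab, rfl⟩
    refine ⟨hy, ?_⟩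
    have h1 := hw.2
    rw [map_add, map_smul, map_smul, smul_eq_mul, smul_eq_mul] at h1
    have h2 := hle y hy
    have h3 := mul_le_mul_of_nonneg_left (hle z hz) hb.le
    by_contra hne
    have h4 := mul_lt_mul_of_pos_left (lt_of_le_of_ne h2 hne) ha
    have h5 : a * f x + b * f x = f x := by rw [← add_mul, hab, one_mul]
    linarith
  · intro h
    obtain ⟨o, ho⟩ := hP.2
    have h1 : o ∈ P := interior_subset ho
    rw [← h] at h1
    exact absurd h1.2 (hf o ho).ne

theorem proper_finite (hP : IsPolytope P) (hC : Cubical P) : {F | Proper P F}.Finite := by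
  choose f hf using exists_finset hP
  refine Set.Finite.of_finite_image (f := f)
    (((verts hP).powerset.finite_toSet).subset ?_) ?_
  · rintro _ ⟨F, _, rfl⟩
    rw [Finset.mem_coe, Finset.mem_powerset]
    intro v hv
    exact (mem_verts hP v).2 ((hf F v).1 hv).2
  · rintro F ⟨hF, hne, hFP⟩ G ⟨hG, hneG, hGP⟩ h
    have h2 : vset P F = vset P G := by
      ext v
      rw [← hf F v, ← hf G v, h]
    exact Set.Subset.antisymm
      (face_subset_of_vset hC hF hne hFP hG h2.subset)
      (face_subset_of_vset hC hG hneG hGP hF h2.symm.subset)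

/-- Faces of polytopes are closed. -/
theorem face_closed (hP : IsPolytope P) (hF : IsFace P F) : IsClosed F := by
  classical
  obtain ⟨⟨s, hs⟩, _⟩ := hP
  have h1 : F = convexHull ℝ ((s.filter (· ∈ F) : Finset (Eu d)) : Set (Eu d)) := by
    refine Set.Subset.antisymm ?_ ?_
    · intro x hx
      have hxP : x ∈ convexHull ℝ (s : Set (Eu d)) := hs ▸ hF.2.subset hx
      rw [Finset.mem_convexHull'] at hxP
      obtain ⟨w, hw0, hw1, hwx⟩ := hxP
      -- points with positive weight are in `F`
      have h2 : ∀ y ∈ s, w y ≠ 0 → y ∈ F := by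
        intro y hy hwy
        have hpos : 0 < w y := lt_of_le_of_ne (hw0 y hy) (Ne.symm hwy)
        have hsum : w y + ∑ z ∈ s.erase y, w z = 1 := by rw [Finset.add_sum_erase s w hy, hw1]
        have hsum2 : w y • y + ∑ z ∈ s.erase y, w z • z = x := by
          rw [Finset.add_sum_erase s (fun z => w z • z) hy, hwx]
        have hnn : 0 ≤ ∑ z ∈ s.erase y, w z :=
          Finset.sum_nonneg fun z hz => hw0 z (Finset.mem_of_mem_erase hz)
        rcases hnn.eq_or_lt with h0 | hlt
        · -- all the weight is at `y`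
          have h3 : ∀ z ∈ s.erase y, w z = 0 := by
            rw [← Finset.sum_eq_zero_iff_of_nonneg
              (fun z hz => hw0 z (Finset.mem_of_mem_erase hz))]
            exact h0.symm
          have h4 : ∑ z ∈ s.erase y, w z • z = 0 :=
            Finset.sum_eq_zero fun z hz => by rw [h3 z hz, zero_smul]
          rw [← h0, add_zero] at hsum
          rw [h4, add_zero, hsum, one_smul] at hsum2
          rw [hsum2]; exact hx
        · have h3 : (s.erase y).centerMass w id ∈ convexHull ℝ (s : Set (Eu d)) :=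
            Finset.centerMass_mem_convexHull _ (fun z hz => hw0 z (Finset.mem_of_mem_erase hz))
              hlt (fun z hz => Finset.mem_of_mem_erase hz)
          have hyP : y ∈ P := hs ▸ subset_convexHull ℝ _ hy
          refine hF.2.left_mem_of_mem_openSegment hyP (hs ▸ h3) hx
            ⟨w y, ∑ z ∈ s.erase y, w z, hpos, hlt, hsum, ?_⟩
          rw [Finset.centerMass, smul_smul, mul_inv_cancel₀ hlt.ne', one_smul]
          exact hsum2
      rw [← hwx, ← Finset.sum_filter_add_sum_filter_not s (fun y => w y ≠ 0)]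
      have h3 : ∑ y ∈ s.filter (fun y => ¬ w y ≠ 0), w y • y = 0 := by
        refine Finset.sum_eq_zero fun y hy => ?_
        have h4 := (Finset.mem_filter.1 hy).2
        rw [not_not.1 h4, zero_smul]
      rw [h3, add_zero]
      have h5 : ∑ y ∈ s.filter (fun y => w y ≠ 0), w y = 1 := by
        rw [Finset.sum_filter_ne_zero, hw1]
      refine (convex_convexHull ℝ _).sum_mem (fun y hy => hw0 y (Finset.mem_filter.1 hy).1) h5
        (fun y hy => subset_convexHull ℝ _ ?_)
      have h6 := Finset.mem_filter.1 hy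
      rw [Finset.mem_coe, Finset.mem_filter]
      exact ⟨h6.1, h2 y h6.1 h6.2⟩
    · refine convexHull_min ?_ hF.1
      intro y hy
      rw [Finset.mem_coe, Finset.mem_filter] at hy
      exact hy.2
  rw [h1]
  exact (Finset.finite_toSet _).isClosed_convexHull ℝ

/-- The polytope translated so that `o` becomes the origin. -/
def shift (P : Set (Eu d)) (o : Eu d) : Set (Eu d) := (fun y => o + y) ⁻¹' P

/-- Radial projection from `o` to the boundary. -/
noncomputable def rad (P : Set (Eu d)) (o x : Eu d) : Eu d :=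
  o + (gauge (shift P o) (x - o))⁻¹ • (x - o)

theorem shift_convex (hP : IsPolytope P) (o : Eu d) : Convex ℝ (shift P o) := by
  intro x hx y hy a b ha hb hab
  have h1 := hP.convex hx hy ha hb hab
  show o + (a • x + b • y) ∈ P
  have e : o + (a • x + b • y) = a • (o + x) + b • (o + y) := by
    rw [smul_add, smul_add]
    have : o = a • o + b • o := by rw [← add_smul, hab, one_smul]
    nth_rewrite 1 [this]
    abel
  rw [e]; exact h1

theorem shift_nhds {o : Eu d} (ho : o ∈ interior P) : shift P o ∈ 𝓝 (0 : Eu d) := by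
  have hc : ContinuousAt (fun y : Eu d => o + y) 0 := by fun_prop
  apply hc
  show P ∈ 𝓝 (o + 0)
  rw [add_zero]
  exact mem_interior_iff_mem_nhds.1 ho

theorem shift_closed (hP : IsPolytope P) (o : Eu d) : IsClosed (shift P o) :=
  hP.isCompact.isClosed.preimage (by fun_prop)

theorem shift_gauge_pos (hP : IsPolytope P) {o : Eu d} (ho : o ∈ interior P) {x : Eu d}
    (hx : x ≠ o) : 0 < gauge (shift P o) (x - o) := by
  rw [gauge_pos (absorbent_nhds_zero (shift_nhds ho)) ?_]
  · exact sub_ne_zero.2 hx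
  · rw [NormedSpace.isVonNBounded_iff]
    have h1 : shift P o = (fun y => y - o) '' P := by
      ext y
      constructor
      · intro hy; exact ⟨o + y, hy, by simp⟩
      · rintro ⟨z, hz, rfl⟩
        show o + (z - o) ∈ P
        simpa using hz
    rw [h1]
    exact (hP.isCompact.image (by fun_prop)).isBounded

theorem interior_shift (o x : Eu d) : x - o ∈ interior (shift P o) ↔ x ∈ interior P := by
  have h : interior (shift P o) = (fun y => o + y) ⁻¹' interior P :=
    ((Homeomorph.addLeft o).preimage_interior P).symm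
  rw [h]
  show o + (x - o) ∈ interior P ↔ _
  simp

theorem rad_mem (hP : IsPolytope P) {o : Eu d} (ho : o ∈ interior P) {x : Eu d} (hx : x ≠ o) :
    rad P o x ∈ P ∧ rad P o x ∉ interior P := by
  have hpos := shift_gauge_pos hP ho hx
  have h1 : gauge (shift P o) ((gauge (shift P o) (x - o))⁻¹ • (x - o)) = 1 := by
    rw [gauge_smul_of_nonneg (inv_nonneg.2 hpos.le), smul_eq_mul, inv_mul_cancel₀ hpos.ne']
  constructor
  · have h2 := (gauge_le_one_iff_mem_closure (shift_convex hP o) (shift_nhds ho)).1 h1.le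
    rw [(shift_closed hP o).closure_eq] at h2
    exact h2
  · intro h3
    have h4 := (interior_shift (P := P) o (rad P o x)).2 h3
    have e : rad P o x - o = (gauge (shift P o) (x - o))⁻¹ • (x - o) := by simp [rad]
    rw [e, ← gauge_lt_one_iff_mem_interior (shift_convex hP o) (shift_nhds ho), h1] at h4
    exact lt_irrefl _ h4

theorem rad_self (hP : IsPolytope P) {o : Eu d} (ho : o ∈ interior P) {x : Eu d} (hx : x ∈ P)
    (hxi : x ∉ interior P) : rad P o x = x := by
  have h1 : gauge (shift P o) (x - o) = 1 := by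
    refine le_antisymm ?_ ?_
    · rw [gauge_le_one_iff_mem_closure (shift_convex hP o) (shift_nhds ho),
        (shift_closed hP o).closure_eq]
      show o + (x - o) ∈ P
      simpa using hx
    · by_contra h
      push Not at h
      rw [gauge_lt_one_iff_mem_interior (shift_convex hP o) (shift_nhds ho),
        interior_shift] at h
      exact hxi h
  unfold rad
  rw [h1]; simp

theorem rad_continuousOn (hP : IsPolytope P) {o : Eu d} (ho : o ∈ interior P) :
    ContinuousOn (rad P o) {o}ᶜ := by
  have hg : Continuous fun x : Eu d => gauge (shift P o) (x - o) :=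
    (continuous_gauge (shift_convex hP o) (shift_nhds ho)).comp (by fun_prop)
  unfold rad
  refine continuousOn_const.add (ContinuousOn.smul (hg.continuousOn.inv₀ fun x hx => ?_)
    (by fun_prop))
  exact (shift_gauge_pos hP ho hx).ne'

/-- The open star of `u` as seen from `o`. -/
def star (P : Set (Eu d)) (o u : Eu d) : Set (Eu d) :=
  {x | x ≠ o ∧ ∀ F, Proper P F → rad P o x ∈ F → u ∈ F}

theorem star_open (hP : IsPolytope P) (hC : Cubical P) {o : Eu d} (ho : o ∈ interior P)
    (u : Eu d) : IsOpen (star P o u) := by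
  have h1 : star P o u = {o}ᶜ ∩ (rad P o) ⁻¹' (⋃ F ∈ {F | Proper P F ∧ u ∉ F}, F)ᶜ := by
    ext x
    constructor
    · rintro ⟨hx, h⟩
      refine ⟨hx, ?_⟩
      intro h2
      rw [Set.mem_iUnion₂] at h2
      obtain ⟨F, hF, hxF⟩ := h2
      exact hF.2 (h F hF.1 hxF)
    · rintro ⟨hx, h⟩
      refine ⟨hx, fun F hF hxF => ?_⟩
      by_contra hu
      exact h (Set.mem_iUnion₂.2 ⟨F, ⟨hF, hu⟩, hxF⟩)
  rw [h1]
  refine (rad_continuousOn hP ho).isOpen_inter_preimage isOpen_compl_singleton ?_
  refine IsClosed.isOpen_compl (self := ?_)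
  refine Set.Finite.isClosed_biUnion ((proper_finite hP hC).subset fun F hF => hF.1) ?_
  exact fun F hF => face_closed hP hF.1.1

/-- Every point different from `o` lies in the star of some vertex. -/
theorem exists_star (hP : IsPolytope P) (hC : Cubical P) {o : Eu d} (ho : o ∈ interior P)
    {x : Eu d} (hx : x ≠ o) : ∃ u, IsFace P {u} ∧ x ∈ star P o u := by
  obtain ⟨hr1, hr2⟩ := rad_mem hP ho hx
  obtain ⟨F0, hF0, hxF0⟩ := exists_proper hP hr1 hr2
  -- a proper face through the projection with the least number of vertices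
  have hfin : {F | Proper P F ∧ rad P o x ∈ F}.Finite :=
    (proper_finite hP hC).subset fun F hF => hF.1
  obtain ⟨F, hF, hmin⟩ := hfin.exists_minimalFor (fun F => (vset P F).ncard) _ ⟨F0, hF0, hxF0⟩
  have hleast : ∀ G, Proper P G → rad P o x ∈ G → F ⊆ G := by
    intro G hG hxG
    have hI : IsFace P (F ∩ G) := hF.1.1.inter hG.1
    have hIP : Proper P (F ∩ G) := hF.1.sub hI ⟨_, hF.2, hxG⟩ Set.inter_subset_left
    have hsub : vset P (F ∩ G) ⊆ vset P F := fun v hv => ⟨hv.1.1, hv.2⟩
    have hfinv : (vset P F).Finite := (vertices_finite hP).subset fun v hv => hv.2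
    have h2 := hmin (show F ∩ G ∈ {F | Proper P F ∧ rad P o x ∈ F} from ⟨hIP, hF.2, hxG⟩)
      (Set.ncard_le_ncard hsub hfinv)
    have h3 : vset P (F ∩ G) = vset P F := Set.eq_of_subset_of_ncard_le hsub h2 hfinv
    have h4 := face_subset_of_vset hC hF.1.1 hF.1.2.1 hF.1.2.2 hI h3.symm.subset
    exact h4.trans Set.inter_subset_right
  -- a vertex of `F`
  obtain ⟨hF1, hne, hFP⟩ := hF.1
  obtain ⟨Φ⟩ := (hC F hF1 hne hFP).iso
  obtain ⟨β, hβ⟩ := exists_param hC hF1 hFP Φ
  exact ⟨β fun _ => false, hβ.vert _, hx, fun G hG hxG => hleast G hG hxG (hβ.mem _)⟩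

theorem star_common (hP : IsPolytope P) {o : Eu d} (ho : o ∈ interior P) {x : Eu d}
    (hx : x ≠ o) : ∃ F, Proper P F ∧ ∀ u, x ∈ star P o u → u ∈ F := by
  obtain ⟨hr1, hr2⟩ := rad_mem hP ho hx
  obtain ⟨F0, hF0, hxF0⟩ := exists_proper hP hr1 hr2
  exact ⟨F0, hF0, fun u hu => hu.2 F0 hF0 hxF0⟩

theorem star_face (hP : IsPolytope P) {o : Eu d} (ho : o ∈ interior P) {E : Set (Eu d)}
    (hE : Proper P E) {p u : Eu d} (hp : p ∈ E) (hu : p ∈ star P o u) : u ∈ E := by
  refine hu.2 E hE ?_
  rw [rad_self hP ho (hE.1.2.subset hp) (not_interior hE.1 hE.2.2 hp)]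
  exact hp

end Pool.Agent.CubF620
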