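import Pool.Agent.CubF620.Global
import Pool.Agent.CubF620.Poly

/-!
MP_f620bf_co (helper50).  The bound by the multiplicity of the parallel classes.
-/

set_option autoImplicit false

open Set

namespace Pool.Agent.CubF620

variable {d : ℕ} {P : Set (Eu d)}

theorem proper_of_dim (hP : IsPolytope P) {F : Set (Eu d)} {i : ℕ} (hi : i < d)
    (hF : IsFace P F) (hne : F.Nonempty) (hdim : dimF F = i) : Proper P F := by
  refine ⟨hF, hne, ?_⟩
  rintro rfl
  rw [dimF_polytope hP] at hdim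
  omega

theorem edge_proper (hd : 3 ≤ d) (hP : IsPolytope P) {E : Set (Eu d)} (hE : IsFace P E)
    (h1 : dimF E = 1) : Proper P E :=
  proper_of_dim hP (by omega) hE (nonempty_of_dimF h1 (by norm_num)) h1

/-- An edge has only two vertices. -/
theorem edge_two (hd : 3 ≤ d) (hP : IsPolytope P) (hC : Cubical P) {E : Set (Eu d)}
    (hE : IsFace P E) (h1 : dimF E = 1) {v w w' : Eu d} (hv : IsFace P {v}) (hw : IsFace P {w})
    (hw' : IsFace P {w'}) (hvE : v ∈ E) (hwE : w ∈ E) (hw'E : w' ∈ E) (hvw : v ≠ w)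
    (hvw' : v ≠ w') : w = w' := by
  have hEP := edge_proper hd hP hE h1
  by_contra hne
  have h2 := ncard_vset hC hEP.1 hEP.2.1 hEP.2.2
  rw [h1, pow_one] at h2
  have h3 : ({v, w, w'} : Set (Eu d)) ⊆ vset P E := by
    rintro x (rfl | rfl | rfl)
    · exact ⟨hvE, hv⟩
    · exact ⟨hwE, hw⟩
    · exact ⟨hw'E, hw'⟩
  have h4 := Set.ncard_le_ncard h3 ((vertices_finite hP).subset fun x hx => hx.2)
  have h5 : ({v, w, w'} : Set (Eu d)).ncard = 3 := by
    rw [Set.ncard_eq_three]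
    exact ⟨v, w, w', hvw, hvw', hne, rfl⟩
  omega

/-- A finite labelling of the parallel classes. -/
theorem exists_lab (hd : 3 ≤ d) (hP : IsPolytope P) (hC : Cubical P) :
    ∃ (N : ℕ) (lab : Set (Eu d) → Fin (N + 1)), ∀ E E', IsFace P E → dimF E = 1 →
      IsFace P E' → dimF E' = 1 → (lab E = lab E' ↔ Parallel P E E') := by
  classical
  let 𝓔 : Set (Set (Eu d)) := {E | IsFace P E ∧ dimF E = 1}
  have hfin : 𝓔.Finite := (proper_finite hP hC).subset fun F hF => edge_proper hd hP hF.1 hF.2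
  let cls : Set (Eu d) → Set (Set (Eu d)) := fun E => {E' | Parallel P E E'}
  let 𝓒 : Set (Set (Set (Eu d))) := cls '' 𝓔
  have hCfin : Finite 𝓒 := (hfin.image cls).to_subtype
  let e : 𝓒 ≃ Fin (Nat.card 𝓒) := Finite.equivFin 𝓒
  have hmem : ∀ E ∈ 𝓔, cls E ∈ 𝓒 := fun E hE => Set.mem_image_of_mem cls hE
  let lab : Set (Eu d) → Fin (Nat.card 𝓒 + 1) := fun E =>
    if h : E ∈ 𝓔 then (e ⟨cls E, hmem E h⟩).castSucc else 0
  refine ⟨Nat.card 𝓒, lab, fun E E' h1 h2 h3 h4 => ?_⟩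
  have hE : E ∈ 𝓔 := ⟨h1, h2⟩
  have hE' : E' ∈ 𝓔 := ⟨h3, h4⟩
  simp only [lab]
  rw [dif_pos hE, dif_pos hE', Fin.castSucc_inj, e.injective.eq_iff]
  constructor
  · intro h
    have h5 : cls E = cls E' := congrArg Subtype.val h
    have : E' ∈ cls E := by rw [h5]; exact Relation.EqvGen.refl _
    exact this
  · intro h
    apply Subtype.ext
    show cls E = cls E'
    ext X
    constructor
    · intro hX
      exact Relation.EqvGen.trans _ _ _ (Relation.EqvGen.symm _ _ h) hX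
    · intro hX
      exact Relation.EqvGen.trans _ _ _ h hX

/-- The labelling of the vertices by `{0,1}`-vectors. -/
theorem exists_sigma (hd : 3 ≤ d) (hP : IsPolytope P) (hC : Cubical P) :
    ∃ (N : ℕ) (lab : Set (Eu d) → Fin (N + 1)) (σ : Eu d → Fin (N + 1) → Bool),
      (∀ E E', IsFace P E → dimF E = 1 → IsFace P E' → dimF E' = 1 →
        (lab E = lab E' ↔ Parallel P E E')) ∧
      ∀ E v w, IsFace P E → dimF E = 1 → IsFace P {v} → IsFace P {w} → v ∈ E → w ∈ E →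
        v ≠ w → σ w = flip (σ v) (lab E) := by
  classical
  obtain ⟨N, lab, hlab⟩ := exists_lab hd hP hC
  have hpot : ∀ j : Fin (N + 1), ∃ h : Eu d → ZMod 2, ∀ E v w, IsFace P E → dimF E = 1 →
      IsFace P {v} → IsFace P {w} → v ∈ E → w ∈ E → v ≠ w →
      h w - h v = zeta {E | IsFace P E ∧ dimF E = 1 ∧ lab E = j} E := by
    intro j
    refine global_pot hd hP hC ?_
    rintro E E' hop ⟨h1, h2, h3⟩
    have h4 := (hlab E E' h1 h2 hop.2.1 hop.2.2.2.1).2 (Relation.EqvGen.rel _ _ hop)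
    exact ⟨hop.2.1, hop.2.2.2.1, h4 ▸ h3⟩
  choose H hH using hpot
  refine ⟨N, lab, fun v j => decide (H j v = 1), hlab, ?_⟩
  intro E v w hE hE1 hv hw hvE hwE hvw
  have hz : ∀ x y : ZMod 2, y - x = 1 → decide (y = 1) = !decide (x = 1) := by decide
  have hz0 : ∀ x y : ZMod 2, y - x = 0 → decide (y = 1) = decide (x = 1) := by decide
  funext j
  have h1 := hH j E v w hE hE1 hv hw hvE hwE hvw
  unfold zeta at h1
  by_cases hj : j = lab E
  · subst hj
    rw [flip_same]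
    rw [if_pos (show E ∈ {E' | IsFace P E' ∧ dimF E' = 1 ∧ lab E' = lab E} from
      ⟨hE, hE1, rfl⟩)] at h1
    exact hz _ _ h1
  · rw [flip_ne _ hj]
    rw [if_neg (show E ∉ {E' | IsFace P E' ∧ dimF E' = 1 ∧ lab E' = j} from
      fun h => hj h.2.2.symm)] at h1
    exact hz0 _ _ h1

theorem subcubes_fix {k : ℕ} (R : Finset (Fin k)) (b : Fin k → Bool) :
    ({c | ∀ t ∈ R, c t = b t} : Set (Fin k → Bool)) ∈ subcubes k := by
  classical
  right
  refine ⟨fun j => if j ∈ R then {b j} else Set.univ, ?_⟩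
  ext c
  rw [Set.mem_univ_pi]
  constructor
  · intro h j
    by_cases hj : j ∈ R
    · simp only [hj, if_true]; exact h j hj
    · simp [hj]
  · intro h j hj
    have := h j
    simpa [hj] using this

theorem ncard_fix {k : ℕ} (R : Finset (Fin k)) (b : Fin k → Bool) :
    ({c | ∀ t ∈ R, c t = b t} : Set (Fin k → Bool)).ncard = 2 ^ (k - R.card) := by
  classical
  have h1 : ({c | ∀ t ∈ R, c t = b t} : Set (Fin k → Bool)) =
      (Fintype.piFinset (fun j => if j ∈ R then ({b j} : Finset Bool) else Finset.univ) :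
        Finset (Fin k → Bool)) := by
    ext c
    rw [Finset.mem_coe, Fintype.mem_piFinset]
    constructor
    · intro h j
      by_cases hj : j ∈ R
      · simp only [hj, if_true]; exact Finset.mem_singleton.2 (h j hj)
      · simp [hj]
    · intro h j hj
      have := h j
      simpa [hj] using this
  rw [h1, Set.ncard_coe_finset, Fintype.card_piFinset]
  have h2 : ∀ j : Fin k, (if j ∈ R then ({b j} : Finset Bool) else Finset.univ).card =
      if j ∈ R then 1 else 2 := by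
    intro j
    by_cases hj : j ∈ R <;> simp [hj]
  rw [Finset.prod_congr rfl fun j _ => h2 j, Finset.prod_ite]
  simp only [Finset.prod_const_one, one_mul, Finset.prod_const]
  congr 1
  have h3 : (Finset.univ.filter (fun j => j ∉ R)) = Rᶜ := by ext j; simp
  rw [h3, Finset.card_compl, Fintype.card_fin]

section

variable {F : Set (Eu d)} {k : ℕ}
  {Φ : {G : Set (Eu d) // IsFace F G} ≃o {S : Set (Fin k → Bool) // S ∈ subcubes k}}
  {β : (Fin k → Bool) → Eu d}

theorem param_fix (hC : Cubical P) (hF : IsFace P F) (hFP : F ≠ P) (hβ : Param P F k β Φ)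
    (R : Finset (Fin k)) (b : Fin k → Bool) :
    ∃ G, IsFace P G ∧ G.Nonempty ∧ G ≠ P ∧ dimF G = k - R.card ∧
      ∀ v, v ∈ vset P G ↔ ∃ c, (∀ t ∈ R, c t = b t) ∧ β c = v := by
  set H := Φ.symm ⟨_, subcubes_fix R b⟩ with hH
  have hHF : IsFace F H.1 := H.2
  have hΦH : (Φ ⟨H.1, hHF⟩).1 = {c | ∀ t ∈ R, c t = b t} := by
    have : Φ ⟨H.1, hHF⟩ = ⟨_, subcubes_fix R b⟩ := Φ.apply_symm_apply _
    rw [this]
  have hne : H.1.Nonempty := by
    refine ⟨β b, (hβ.face _ hHF _).2 ?_⟩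
    rw [hΦH]; exact fun _ _ => rfl
  have hHP : H.1 ≠ P := by
    intro h
    exact hFP (Set.Subset.antisymm hF.2.subset (h ▸ hHF.2.subset))
  refine ⟨H.1, hF.trans hHF, hne, hHP, ?_, fun v => ?_⟩
  · have h3 := ncard_iso hC hF hFP hβ H.1 hHF hne
    rw [hΦH, ncard_fix] at h3
    exact (Nat.pow_right_injective (le_refl 2) h3).symm
  · constructor
    · rintro ⟨hv, hvP⟩
      obtain ⟨c, rfl⟩ := hβ.surj v (hHF.2.subset hv) hvP
      refine ⟨c, ?_, rfl⟩
      have := (hβ.face _ hHF c).1 hv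
      rw [hΦH] at this
      exact this
    · rintro ⟨c, hc, rfl⟩
      refine ⟨(hβ.face _ hHF c).2 ?_, hβ.vert c⟩
      rw [hΦH]; exact hc

theorem param_join (hF : IsFace P F) (hβ : Param P F k β Φ) (R : Finset (Fin k))
    (b : Fin k → Bool) {G : Set (Eu d)} (hG : IsFace P G)
    (h1 : ∀ c, (∀ t ∈ R, c t = b t) → β c ∈ G) (h2 : ∀ t ∈ R, β (flip b t) ∈ G) : F ⊆ G := by
  classical
  have hFG : IsFace F (F ∩ G) := hF.mono (hF.inter hG) Set.inter_subset_left
  have e1 : ∀ c, (∀ t ∈ R, c t = b t) → c ∈ (Φ ⟨F ∩ G, hFG⟩).1 := fun c hc =>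
    (hβ.face _ hFG c).1 ⟨hβ.mem c, h1 c hc⟩
  have e2 : ∀ t ∈ R, flip b t ∈ (Φ ⟨F ∩ G, hFG⟩).1 := fun t ht =>
    (hβ.face _ hFG _).1 ⟨hβ.mem _, h2 t ht⟩
  have e3 : (Φ ⟨F ∩ G, hFG⟩).1 = Set.univ := by
    have hb := e1 b (fun _ _ => rfl)
    rcases (Φ ⟨F ∩ G, hFG⟩).2 with h | ⟨A, hA⟩
    · rw [h] at hb; exact hb.elim
    · rw [hA] at e1 e2 hb ⊢
      rw [Set.mem_univ_pi] at hb
      rw [Set.eq_univ_iff_forall]
      intro c
      rw [Set.mem_univ_pi]
      intro j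
      by_cases hc : c j = b j
      · rw [hc]; exact hb j
      · have hcf : c j = flip b j j := by
          rw [flip_same]
          revert hc; cases c j <;> cases b j <;> simp
        by_cases hj : j ∈ R
        · have h3 := e2 j hj
          rw [Set.mem_univ_pi] at h3
          rw [hcf]; exact h3 j
        · have h3 := e1 (flip b j) (fun t ht => flip_ne _ (fun h' => hj (h' ▸ ht)))
          rw [Set.mem_univ_pi] at h3
          rw [hcf]; exact h3 j
  have e4 : Φ ⟨F, isFace_self hF.1⟩ ≤ Φ ⟨F ∩ G, hFG⟩ := by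
    show (Φ ⟨F, isFace_self hF.1⟩).1 ⊆ (Φ ⟨F ∩ G, hFG⟩).1
    rw [e3]; exact Set.subset_univ _
  have e5 : (⟨F, isFace_self hF.1⟩ : {G : Set (Eu d) // IsFace F G}) ≤ ⟨F ∩ G, hFG⟩ :=
    Φ.le_iff_le.1 e4
  exact fun x hx => (show F ⊆ F ∩ G from e5) hx |>.2

end

/-- The main theorem, in terms of the numbers `coefA`. -/
theorem zone_bound (hd : 3 ≤ d) (hP : IsPolytope P) (hC : Cubical P) {μ : ℕ}
    (hμ : MultAtMost P μ) {i : ℕ} (hi : i < d) :
    2 ^ i * fNum P i ≤ ∑ l ∈ Finset.range (i + 1), coefA μ l i * cubeSum (fNum P 0) l := by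
  classical
  obtain ⟨N, lab, σ, hlab, hσ⟩ := exists_sigma hd hP hC
  have hcells : ∀ k, ∀ S ∈ fam hP k, ∃ (β : (Fin k → Bool) → Eu d) (lam : Fin k → Fin (N + 1)),
      IsCell3 (Adj P) σ (fam hP) k S β lam := by
    intro k S hS
    obtain ⟨F, hF, hne, hFP, hdim, hSF⟩ := (mem_fam hP k S).1 hS
    subst hdim
    obtain ⟨Φ⟩ := (hC F hF hne hFP).iso
    obtain ⟨β, hβ⟩ := exists_param hC hF hFP Φ
    have hedge : ∀ b t, IsFace P (edge Φ b t) := fun b t => hF.trans (edge_face b t)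
    have hlabpar : ∀ b t, lab (edge Φ b t) = lab (edge Φ (fun _ => false) t) := fun b t =>
      (hlab _ _ (hedge b t) (dim_edge hC hF hFP hβ b t) (hedge _ t)
        (dim_edge hC hF hFP hβ _ t)).2
        (edge_parallel hC hF hFP hβ t Finset.univ b (fun _ => false) (by simp))
    refine ⟨β, fun t => lab (edge Φ (fun _ => false) t), hβ.inj, fun v => ?_,
      fun b t => ⟨param_adj hC hF hFP hβ b t, ?_⟩, fun R b => ?_, fun R b S' hS' h1 h2 => ?_⟩
    · rw [hSF]
      constructor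
      · rintro ⟨h1, h2⟩; exact hβ.surj v h1 h2
      · rintro ⟨b, rfl⟩; exact ⟨hβ.mem b, hβ.vert b⟩
    · have h1 := hσ (edge Φ b t) (β b) (β (flip b t)) (hedge b t)
        (dim_edge hC hF hFP hβ b t) (hβ.vert _) (hβ.vert _) ((mem_edge hβ b b t).2 (Or.inl rfl))
        ((mem_edge hβ b _ t).2 (Or.inr rfl))
        (fun h => flip_ne_self b t (hβ.inj h).symm)
      rw [h1, hlabpar]
    · obtain ⟨G, hG, hGne, hGP, hGdim, hGv⟩ := param_fix hC hF hFP hβ R b
      obtain ⟨S', hS'⟩ := exists_finset hP G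
      exact ⟨S', (mem_fam hP _ S').2 ⟨G, hG, hGne, hGP, hGdim, hS'⟩,
        fun v => by rw [hS', hGv]⟩
    · obtain ⟨F', hF', _, _, _, hSF'⟩ := (mem_fam hP _ S').1 hS'
      have h3 : F ⊆ F' := param_join hF hβ R b hF' (fun c hc => ((hSF' _).1 (h1 c hc)).1)
        (fun t ht => ((hSF' _).1 (h2 t ht)).1)
      intro v hv
      have hv' := (hSF v).1 hv
      exact (hSF' v).2 ⟨h3 hv'.1, hv'.2⟩
  -- multiplicities
  have hmult : ∀ v j (W : Finset (Eu d)), (∀ w ∈ W, Adj P v w ∧ σ w = flip (σ v) j) →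
      W.card ≤ μ := by
    intro v j W hW
    rcases W.eq_empty_or_nonempty with rfl | ⟨w0, hw0⟩
    · simp
    have hEx : ∀ w, ∃ E, w ∈ W → IsFace P E ∧ dimF E = 1 ∧ v ∈ E ∧ w ∈ E := by
      intro w
      by_cases hw : w ∈ W
      · obtain ⟨_, _, _, E, h1, h2, h3, h4⟩ := (hW w hw).1
        exact ⟨E, fun _ => ⟨h1, h2, h3, h4⟩⟩
      · exact ⟨∅, fun h => (hw h).elim⟩
    choose E hE using hEx
    have hlabE : ∀ w ∈ W, lab (E w) = j := by
      intro w hw
      obtain ⟨h1, h2, h3, h4⟩ := hE w hw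
      obtain ⟨hadj, hs⟩ := hW w hw
      have h5 := hσ (E w) v w h1 h2 hadj.2.1 hadj.2.2.1 h3 h4 hadj.1
      rw [hs] at h5
      exact (flip_inj _ h5).symm
    obtain ⟨a1, a2, a3, a4⟩ := hE w0 hw0
    have hv : IsFace P {v} := (hW w0 hw0).1.2.1
    refine le_trans ?_ (hμ v (E w0) hv a1 a2 a3)
    rw [← Set.ncard_coe_finset]
    have hfin : {E' | IsFace P E' ∧ dimF E' = 1 ∧ v ∈ E' ∧ Parallel P (E w0) E'}.Finite :=
      (proper_finite hP hC).subset fun F hF => edge_proper hd hP hF.1 hF.2.1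
    refine Set.ncard_le_ncard_of_injOn E ?_ ?_ hfin
    · intro w hw
      obtain ⟨b1, b2, b3, b4⟩ := hE w hw
      exact ⟨b1, b2, b3, (hlab _ _ a1 a2 b1 b2).1 ((hlabE w0 hw0).trans (hlabE w hw).symm)⟩
    · intro w hw w' hw' heq
      obtain ⟨b1, b2, b3, b4⟩ := hE w hw
      obtain ⟨c1, c2, c3, c4⟩ := hE w' hw'
      have hadj := (hW w hw).1
      have hadj' := (hW w' hw').1
      exact edge_two hd hP hC b1 b2 hv hadj.2.2.1 hadj'.2.2.1 b3 b4 (heq ▸ c4) hadj.1 hadj'.1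
  have h3 := core3 hcells μ hmult (fNum P 0) (verts hP) (card_verts hP)
  -- every cell has at most `i` labels
  have h4 : (fam hP i).card =
      ∑ l ∈ Finset.range (i + 1), ((fam hP i).filter (fun S => (lset σ S).card = l)).card := by
    refine Finset.card_eq_sum_card_fiberwise fun S hS => ?_
    rw [Finset.mem_coe, Finset.mem_range]
    obtain ⟨β, lam, hc⟩ := hcells i S hS
    have h5 : lset σ S ⊆ Finset.univ.image lam := by
      intro j hj
      obtain ⟨t, rfl⟩ := (cell_lset hc j).1 hj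
      exact Finset.mem_image.2 ⟨t, Finset.mem_univ _, rfl⟩
    have h6 := (Finset.card_le_card h5).trans Finset.card_image_le
    rw [Finset.card_univ, Fintype.card_fin] at h6
    omega
  have h5 := Nat.mul_le_mul_left (2 ^ i) (fNum_le hP hC hi)
  refine h5.trans ?_
  rw [h4, Finset.mul_sum]
  refine Finset.sum_le_sum fun l _ => ?_
  refine le_trans ?_ (h3 l i)
  refine Nat.mul_le_mul_left _ (Finset.card_le_card ?_)
  intro S hS
  rw [Finset.mem_filter] at hS ⊢
  refine ⟨hS.1, fun v hv => ?_, hS.2⟩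
  obtain ⟨F, _, _, _, _, hF⟩ := (mem_fam hP i S).1 hS.1
  exact (mem_verts hP v).2 ((hF v).1 hv).2

theorem zone_bound_coeff (hd : 3 ≤ d) (hP : IsPolytope P) (hC : Cubical P) {μ : ℕ}
    (hμ : MultAtMost P μ) {i : ℕ} (hi : i < d) :
    ((2 ^ i * fNum P i : ℕ) : ℤ) ≤ (∑ k ∈ Finset.range (fNum P 0),
      (2 * (1 + Polynomial.X) ^ μ - 1) ^ (Nat.digits 2 k).sum : Polynomial ℤ).coeff i := by
  rw [coeff_gen]
  exact_mod_cast zone_bound hd hP hC hμ hi

theorem zone_bound_pow (hd : 3 ≤ d) (hP : IsPolytope P) (hC : Cubical P) {μ : ℕ}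
    (hμ : MultAtMost P μ) {i : ℕ} (hi : i < d) {m : ℕ} (hm : fNum P 0 ≤ 2 ^ m) :
    2 ^ i * fNum P i ≤ 2 ^ m * (μ * m).choose i := by
  rw [← gen_two_pow]
  refine (zone_bound hd hP hC hμ hi).trans (Finset.sum_le_sum fun l _ => ?_)
  exact Nat.mul_le_mul_left _ (cubeSum_mono l hm)

end Pool.Agent.CubF620
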